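import Pool.Agent.U923.CZ.All
import Pool.Agent.R468.MF.FinTC

/-!
First hits of `1`: the levels as finite sets of integers, densities.
-/

set_option autoImplicit false

namespace Pool.Agent.U923.CZ

open Finset Filter Topology Polynomial
open Pool.Agent.R468.MF (NA Lv_neg' NA_neg fin_le Law main_all)
open Pool.Agent.R468.GL
open Pool.Agent.Helper602.MK (ee)

section hit

variable (F : ℕ → ℕ)

/-- the first time at which `1` is reached -/
noncomputable def hit (n : ℕ) : ℕ := sInf {t : ℕ | F^[t] n = 1}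

open Classical in
/-- the positive integers up to `x` which reach `1` -/
noncomputable def hset (x : ℝ) : Finset ℕ := (Icc 1 ⌊x⌋₊).filter fun n => ∃ t : ℕ, F^[t] n = 1

theorem mem_hset {x : ℝ} {n : ℕ} : n ∈ hset F x ↔ 1 ≤ n ∧ (n : ℝ) ≤ x ∧ ∃ t : ℕ, F^[t] n = 1 := by
  classical
  unfold hset
  rw [mem_filter, mem_Icc]
  constructor
  · rintro ⟨⟨h1, h2⟩, h3⟩
    exact ⟨h1, (Nat.le_floor_iff' (by omega)).1 h2, h3⟩
  · rintro ⟨h1, h2, h3⟩
    exact ⟨⟨h1, (Nat.le_floor_iff' (by omega)).2 h2⟩, h3⟩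

theorem hit_eq {n k : ℕ} (h : ∃ t : ℕ, F^[t] n = 1) : hit F n = k ↔ (F^[k] n = 1 ∧ ∀ i < k, F^[i] n ≠ 1) := by
  have hne : {t : ℕ | F^[t] n = 1}.Nonempty := h
  have h1 : F^[hit F n] n = 1 := Nat.sInf_mem hne
  have h2 : ∀ i < hit F n, F^[i] n ≠ 1 := fun i hi h' => Nat.notMem_of_lt_sInf hi h'
  constructor
  · rintro rfl
    exact ⟨h1, h2⟩
  · rintro ⟨h3, h4⟩
    rcases lt_trichotomy (hit F n) k with h5 | h5 | h5
    · exact absurd h1 (h4 _ h5)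
    · exact h5
    · exact absurd h3 (h2 _ h5)

theorem levn_hit (P : Par)
    (hF : ∀ n k : ℕ, n ∈ Lv P 1 1 {1} (k : ℤ) ↔ 1 ≤ n ∧ (F^[k] n = 1 ∧ ∀ i < k, F^[i] n ≠ 1)) :
    LevN (NA P 1 1 {1}) (hset F) (hit F) := by
  classical
  intro x
  refine ⟨fun j => ?_, fun j hj => NA_neg P x hj⟩
  unfold NA
  have : {n : ℕ | (n : ℝ) ≤ x ∧ n ∈ Lv P 1 1 {1} (j : ℤ)} = ((hset F x).filter fun n => hit F n = j : Finset ℕ) := by
    ext n
    rw [mem_coe, mem_filter, mem_hset, Set.mem_ofPred_eq, hF]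
    constructor
    · rintro ⟨h1, h2, h3⟩
      have h4 : ∃ t : ℕ, F^[t] n = 1 := ⟨j, h3.1⟩
      exact ⟨⟨h2, h1, h4⟩, (hit_eq F h4).2 h3⟩
    · rintro ⟨⟨h1, h2, h3⟩, h4⟩
      exact ⟨h2, h1, (hit_eq F h3).1 h4⟩
  rw [this, Set.ncard_coe_finset]

/-- the positive integers with the property `P` have the natural density `δ` -/
def HD (P : ℕ → Prop) (δ : ℝ) : Prop :=
  Tendsto (fun M : ℕ => ({n : ℕ | 1 ≤ n ∧ n ≤ M ∧ P n}.ncard : ℝ) / M) atTop (𝓝 δ)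

/-- densities from counts -/
theorem hd_of {Q : ℕ → Prop} [DecidablePred Q] {c : ℝ}
    (h : Tendsto (fun x : ℝ => (((hset F x).filter Q).card : ℝ) / x) atTop (𝓝 c)) :
    HD (fun n => (∃ t : ℕ, F^[t] n = 1) ∧ Q n) c := by
  unfold HD
  refine (h.comp tendsto_natCast_atTop_atTop).congr fun M => ?_
  simp only [Function.comp_apply]
  have : {n : ℕ | 1 ≤ n ∧ n ≤ M ∧ (∃ t : ℕ, F^[t] n = 1) ∧ Q n} = ((hset F (M : ℝ)).filter Q : Finset ℕ) := by
    ext n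
    rw [mem_coe, mem_filter, mem_hset, Set.mem_ofPred_eq, Nat.cast_le]
    tauto
  rw [this, Set.ncard_coe_finset]

end hit

end Pool.Agent.U923.CZ
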