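import Pool.Agent.U923.CZ.Win

/-!
Sums of digits: `e(γ s_b(n) + β n)` has small sums over all long intervals when `(b - 1) γ` is not an integer.
-/

set_option autoImplicit false

namespace Pool.Agent.U923.CZ

open Finset
open Pool.Agent.R468.MF (per_bound)
open Pool.Agent.Helper602.MK (ee)
open Pool.Agent.Helper602.MK.N_J5b (ee_add ee_zero ee_conj norm_ee)

/-- the sum of the digits in base `b` -/
def sd' (b n : ℕ) : ℕ := (Nat.digits b n).sum

theorem sd_add {b : ℕ} (hb : 2 ≤ b) (m a : ℕ) (ha : a < b) : sd' b (b * m + a) = a + sd' b m := by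
  unfold sd'
  rcases Nat.eq_zero_or_pos (b * m + a) with h | h
  · have ha0 : a = 0 := by omega
    have hm0 : m = 0 := by
      rcases Nat.eq_zero_or_pos m with h' | h'
      · exact h'
      · have := Nat.mul_pos (by omega : 0 < b) h'
        omega
    subst ha0 hm0
    simp
  · rw [Nat.digits_def' (by omega) h, List.sum_cons]
    have h1 : (b * m + a) % b = a := by
      rw [Nat.mul_add_mod]
      exact Nat.mod_eq_of_lt ha
    have h2 : (b * m + a) / b = m := by
      rw [Nat.mul_add_div (by omega), Nat.div_eq_of_lt ha, add_zero]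
    rw [h1, h2]

/-- the factor -/
noncomputable def Gf (b : ℕ) (t : ℝ) : ℂ := ∑ a ∈ range b, ee (t * a)

theorem Gf_le (b : ℕ) (t : ℝ) : ‖Gf b t‖ ≤ b := by
  unfold Gf
  refine (norm_sum_le _ _).trans ?_
  rw [sum_congr rfl fun a _ => norm_ee _, sum_const, card_range, nsmul_eq_mul, mul_one]

theorem ee_cont : Continuous ee := by
  unfold ee
  fun_prop

theorem Gf_cont (b : ℕ) : Continuous (Gf b) := by
  unfold Gf
  exact continuous_finsetSum _ fun a _ => ee_cont.comp (continuous_id.mul continuous_const)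

theorem Gf_per (b : ℕ) (t : ℝ) (n : ℤ) : Gf b (t + n) = Gf b t := by
  unfold Gf
  apply sum_congr rfl
  intro a _
  have h : ee ((n : ℝ) * a) = 1 := (ee_eq_one_iff' _).2 ⟨n * a, by push_cast; ring⟩
  rw [add_mul, ee_add, h, mul_one]

theorem eq_one_of_norm {z : ℂ} (hz : ‖z‖ = 1) (h : ‖1 + z‖ = 2) : z = 1 := by
  have h1 : Complex.normSq z = 1 := by rw [Complex.normSq_eq_norm_sq, hz]; norm_num
  have h2 : Complex.normSq (1 + z) = 4 := by rw [Complex.normSq_eq_norm_sq, h]; norm_num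
  rw [Complex.normSq_apply] at h1 h2
  simp only [Complex.add_re, Complex.one_re, Complex.add_im, Complex.one_im, zero_add] at h2
  have h3 : z.re = 1 := by nlinarith
  have h4 : z.im = 0 := by
    rw [h3] at h1
    have : z.im * z.im = 0 := by linarith
    exact mul_self_eq_zero.1 this
  exact Complex.ext h3 h4

theorem Gf_max {b : ℕ} (hb : 2 ≤ b) {t : ℝ} (h : ‖Gf b t‖ = b) : ee t = 1 := by
  obtain ⟨c, rfl⟩ : ∃ c, b = c + 2 := ⟨b - 2, by omega⟩
  apply eq_one_of_norm (norm_ee t)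
  apply le_antisymm
  · refine (norm_add_le _ _).trans ?_
    rw [norm_one, norm_ee]
    norm_num
  · have h1 : Gf (c + 2) t = (1 + ee t) + ∑ a ∈ range c, ee (t * ((2 + a : ℕ) : ℝ)) := by
      unfold Gf
      rw [add_comm c 2, sum_range_add, sum_range_succ, sum_range_one]
      simp [ee_zero]
    rw [h1] at h
    have h2 := norm_add_le (1 + ee t) (∑ a ∈ range c, ee (t * ((2 + a : ℕ) : ℝ)))
    have h3 : ‖∑ a ∈ range c, ee (t * ((2 + a : ℕ) : ℝ))‖ ≤ c := by
      refine (norm_sum_le _ _).trans ?_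
      rw [sum_congr rfl fun a _ => norm_ee _, sum_const, card_range, nsmul_eq_mul, mul_one]
    have h' : ((c + 2 : ℕ) : ℝ) = (c : ℝ) + 2 := by push_cast; ring
    rw [h'] at h
    linarith

/-- two consecutive factors -/
theorem two_factors {b : ℕ} (hb : 2 ≤ b) {γ : ℝ} (hγ : ∀ n : ℤ, ((b : ℝ) - 1) * γ ≠ n) :
    ∃ ρ : ℝ, 0 ≤ ρ ∧ ρ < 1 ∧ ∀ t : ℝ, ‖Gf b (γ + t)‖ * ‖Gf b (γ + b * t)‖ ≤ (b : ℝ) ^ 2 * ρ := by
  have hb0 : (0 : ℝ) < b := by exact_mod_cast (by omega : 0 < b)
  have hc : Continuous fun t : ℝ => ‖Gf b (γ + t)‖ * ‖Gf b (γ + b * t)‖ := by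
    have := Gf_cont b
    exact ((this.comp (continuous_const.add continuous_id)).norm).mul
      ((this.comp (continuous_const.add (continuous_const.mul continuous_id))).norm)
  have hp : ∀ t : ℝ, ‖Gf b (γ + (t + 1))‖ * ‖Gf b (γ + b * (t + 1))‖ = ‖Gf b (γ + t)‖ * ‖Gf b (γ + b * t)‖ := by
    intro t
    have h1 := Gf_per b (γ + t) 1
    have h2 := Gf_per b (γ + b * t) b
    push_cast at h1 h2
    rw [show γ + (t + 1) = γ + t + 1 by ring, show γ + b * (t + 1) = γ + b * t + b by ring, h1, h2]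
  obtain ⟨t₀, ht₀⟩ := per_bound hc hp
  set M : ℝ := ‖Gf b (γ + t₀)‖ * ‖Gf b (γ + b * t₀)‖ with hM
  have hM0 : 0 ≤ M := by positivity
  have g1 := Gf_le b (γ + t₀)
  have g2 := Gf_le b (γ + b * t₀)
  have n1 := norm_nonneg (Gf b (γ + t₀))
  have n2 := norm_nonneg (Gf b (γ + b * t₀))
  have hlt : M < (b : ℝ) ^ 2 := by
    refine lt_of_le_of_ne (by nlinarith) fun heq => ?_
    have e1 : ‖Gf b (γ + t₀)‖ = b := by
      refine le_antisymm g1 ?_
      by_contra hcon
      push Not at hcon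
      nlinarith
    have e2 : ‖Gf b (γ + b * t₀)‖ = b := by
      refine le_antisymm g2 ?_
      by_contra hcon
      push Not at hcon
      nlinarith
    obtain ⟨n, hn⟩ := (ee_eq_one_iff' _).1 (Gf_max hb e1)
    obtain ⟨n', hn'⟩ := (ee_eq_one_iff' _).1 (Gf_max hb e2)
    apply hγ (b * n - n')
    push_cast
    linear_combination (b : ℝ) * hn - hn'
  refine ⟨M / (b : ℝ) ^ 2, by positivity, (div_lt_one (by positivity)).2 hlt, fun t => ?_⟩
  rw [mul_div_cancel₀ _ (by positivity)]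
  exact ht₀ t

theorem split_blocks' (F : ℕ → ℂ) (q : ℕ) (t : ℕ) :
    ∑ j ∈ range (q * t), F j = ∑ i ∈ range t, ∑ r ∈ range q, F (q * i + r) := by
  induction t with
  | zero => simp
  | succ t ih => rw [Nat.mul_succ, sum_range_add, ih, sum_range_succ]

/-- the phase -/
noncomputable def Fd (b : ℕ) (γ β : ℝ) (n : ℕ) : ℂ := ee (γ * sd' b n + β * n)

theorem block_step {b : ℕ} (hb : 2 ≤ b) (γ β : ℝ) (l m : ℕ) :
    ∑ r ∈ range (b ^ (l + 1)), Fd b γ β (b ^ (l + 1) * m + r) =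
      Gf b (γ + β) * ∑ r ∈ range (b ^ l), Fd b γ (b * β) (b ^ l * m + r) := by
  rw [pow_succ, mul_comm (b ^ l) b, split_blocks', mul_sum]
  apply sum_congr rfl
  intro i _
  unfold Gf
  rw [sum_mul]
  apply sum_congr rfl
  intro a ha
  have e : b * b ^ l * m + (b * i + a) = b * (b ^ l * m + i) + a := by ring
  unfold Fd
  rw [e, sd_add hb _ a (mem_range.1 ha), ← ee_add]
  congr 1
  push_cast
  ring

theorem block_le {b : ℕ} (hb : 2 ≤ b) {γ ρ : ℝ} (hρ : ∀ t : ℝ, ‖Gf b (γ + t)‖ * ‖Gf b (γ + b * t)‖ ≤ (b : ℝ) ^ 2 * ρ)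
    (h0 : 0 ≤ ρ) (j : ℕ) : ∀ (β : ℝ) (m : ℕ),
      ‖∑ r ∈ range (b ^ (2 * j)), Fd b γ β (b ^ (2 * j) * m + r)‖ ≤ (b : ℝ) ^ (2 * j) * ρ ^ j := by
  induction j with
  | zero =>
    intro β m
    simp only [mul_zero, pow_zero, range_one, sum_singleton, mul_one]
    unfold Fd
    rw [norm_ee]
  | succ j ih =>
    intro β m
    have e : 2 * (j + 1) = (2 * j + 1) + 1 := by ring
    rw [e, block_step hb, block_step hb, norm_mul, norm_mul, ← mul_assoc]
    have h1 := hρ β
    have h2 := ih (b * (b * β)) m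
    calc ‖Gf b (γ + β)‖ * ‖Gf b (γ + b * β)‖ * _ ≤ ((b : ℝ) ^ 2 * ρ) * ((b : ℝ) ^ (2 * j) * ρ ^ j) :=
          mul_le_mul h1 h2 (norm_nonneg _) (by positivity)
      _ = (b : ℝ) ^ (2 * j + 1 + 1) * ρ ^ (j + 1) := by ring

/-- THE SUMS OF DIGITS -/
theorem sm_digits {b : ℕ} (hb : 2 ≤ b) {γ : ℝ} (hγ : ∀ n : ℤ, ((b : ℝ) - 1) * γ ≠ n) (β : ℝ) :
    Sm fun n => ee (γ * sd' b n) * ee (β * n) := by
  obtain ⟨ρ, h0, h1, hρ⟩ := two_factors hb hγ
  intro ε hε
  obtain ⟨j, hj⟩ := exists_pow_lt_of_lt_one (show 0 < ε / 2 by positivity) h1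
  set L : ℕ := b ^ (2 * j) with hL
  have hL1 : 1 ≤ L := Nat.one_le_pow _ _ (by omega)
  refine ⟨⌈(2 * L / (ε / 2 * ε)) ^ 2⌉₊, fun y H hy hH => ?_⟩
  have h2L : 2 * (L : ℝ) ≤ ε / 2 * H := by
    have h2 : 2 * L / (ε / 2 * ε) ≤ Real.sqrt y := by
      apply Real.le_sqrt_of_sq_le
      refine (Nat.le_ceil _).trans ?_
      exact_mod_cast hy
    rw [div_le_iff₀ (by positivity)] at h2
    calc 2 * (L : ℝ) ≤ Real.sqrt y * (ε / 2 * ε) := h2
      _ = ε / 2 * (ε * Real.sqrt y) := by ring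
      _ ≤ ε / 2 * H := mul_le_mul_of_nonneg_left hH (by positivity)
  have hterm : ∀ s : Finset ℕ, ∀ g : ℕ → ℕ, ‖∑ i ∈ s, Fd b γ β (g i)‖ ≤ s.card := by
    intro s g
    refine (norm_sum_le _ _).trans ?_
    unfold Fd
    rw [sum_congr rfl fun a _ => norm_ee _, sum_const, nsmul_eq_mul, mul_one]
  have hF : ∀ n : ℕ, ee (γ * sd' b n) * ee (β * n) = Fd b γ β n := by
    intro n
    unfold Fd
    rw [ee_add]
  simp only [hF]
  -- alignment
  set s : ℕ := (L - y % L) % L with hs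
  have hsL : s < L := Nat.mod_lt _ hL1
  have hal : ∃ m₀ : ℕ, y + s = L * m₀ := by
    rcases Nat.eq_zero_or_pos (y % L) with h | h
    · refine ⟨y / L, ?_⟩
      have h2 := Nat.div_add_mod y L
      rw [hs, h, Nat.sub_zero, Nat.mod_self]
      omega
    · refine ⟨y / L + 1, ?_⟩
      have h2 := Nat.div_add_mod y L
      have h3 : (L - y % L) % L = L - y % L := Nat.mod_eq_of_lt (by omega)
      have h4 := Nat.mod_lt y hL1
      rw [hs, h3, Nat.mul_succ]
      omega
  obtain ⟨m₀, hm₀⟩ := hal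
  rcases Nat.lt_or_ge H s with hHs | hHs
  · refine (hterm _ _).trans ?_
    rw [card_range]
    have h3 : (H : ℝ) ≤ L := by exact_mod_cast (by omega : H ≤ L)
    have h4 : (0 : ℝ) ≤ L := Nat.cast_nonneg _
    have h5 : (0 : ℝ) ≤ ε / 2 * H := by positivity
    linarith
  · set t : ℕ := (H - s) / L with ht
    have hdec : H = s + (L * t + (H - s) % L) := by
      have := Nat.div_add_mod (H - s) L
      rw [← ht] at this
      omega
    have hrem : (H - s) % L < L := Nat.mod_lt _ hL1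
    set w : ℕ := (H - s) % L with hw
    have hsum : ∑ i ∈ range H, Fd b γ β (y + i) = ∑ i ∈ range s, Fd b γ β (y + i) +
        (∑ i ∈ range t, ∑ r ∈ range L, Fd b γ β (L * (m₀ + i) + r) +
          ∑ i ∈ range w, Fd b γ β (y + (s + (L * t + i)))) := by
      conv_lhs => rw [hdec]
      rw [sum_range_add, sum_range_add, split_blocks']
      congr 2
      apply sum_congr rfl
      intro i _
      apply sum_congr rfl
      intro r _
      congr 1
      rw [mul_add, ← hm₀]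
      ring
    rw [hsum]
    refine (norm_add_le _ _).trans ?_
    have a1 := hterm (range s) fun i => y + i
    have a3 := hterm (range w) fun i => y + (s + (L * t + i))
    rw [card_range] at a1 a3
    have a2 : ‖∑ i ∈ range t, ∑ r ∈ range L, Fd b γ β (L * (m₀ + i) + r)‖ ≤ ε / 2 * H := by
      refine (norm_sum_le _ _).trans ?_
      have : ∀ i ∈ range t, ‖∑ r ∈ range L, Fd b γ β (L * (m₀ + i) + r)‖ ≤ L * (ε / 2) := by
        intro i _
        refine (block_le hb hρ h0 j β (m₀ + i)).trans ?_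
        rw [hL]
        push_cast
        exact mul_le_mul_of_nonneg_left hj.le (by positivity)
      refine (sum_le_sum this).trans ?_
      rw [sum_const, card_range, nsmul_eq_mul]
      have h6 : ((L * t : ℕ) : ℝ) ≤ H := by exact_mod_cast (by omega : L * t ≤ H)
      push_cast at h6
      nlinarith
    have a4 := norm_add_le (∑ i ∈ range t, ∑ r ∈ range L, Fd b γ β (L * (m₀ + i) + r))
      (∑ i ∈ range w, Fd b γ β (y + (s + (L * t + i))))
    have b1 : (s : ℝ) ≤ L := by exact_mod_cast hsL.le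
    have b2 : (w : ℝ) ≤ L := by exact_mod_cast hrem.le
    linarith

end Pool.Agent.U923.CZ
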