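import Pool.Agent.U923.CZ.Win
import Pool.Agent.H373R2.NB.Weyl

/-!
Polynomial phases with an irrational coefficient have small sums over all long intervals.
-/

set_option autoImplicit false

namespace Pool.Agent.U923.CZ

open Finset Polynomial
open Pool.Agent.H373R2.NB (Ph IW IW_all)
open Pool.Agent.Helper602.MK (ee)
open Pool.Agent.Helper602.MK.N_J5b (ee_add ee_zero ee_conj norm_ee)

theorem Ph_comp' (k : ℕ) : ∀ (α : ℝ) (φ : ℕ → ℝ), Ph k α φ → ∀ m0 D : ℕ,
    Ph k ((D : ℝ) ^ k * α) (fun j => φ (m0 + D * j)) := by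
  induction k with
  | zero =>
    intro α φ h m0 D n
    show φ (m0 + D * n) = (D : ℝ) ^ 0 * α
    rw [pow_zero, one_mul]; exact h _
  | succ k ih =>
    intro α φ h m0 D r
    have h1 := ih _ _ (h (D * r)) m0 D
    have h2 : (fun n => φ (m0 + D * n + D * r) - φ (m0 + D * n)) = fun n => φ (m0 + D * (n + r)) - φ (m0 + D * n) := by
      funext n
      rw [show m0 + D * n + D * r = m0 + D * (n + r) by ring]
    rw [h2] at h1
    have h3 : (D : ℝ) ^ k * (((D * r : ℕ) : ℝ) * α) = (r : ℝ) * ((D : ℝ) ^ (k + 1) * α) := by push_cast; ring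
    rw [h3] at h1
    exact h1

theorem Ph_real' (d : ℕ) : ∀ f : ℝ[X], f.natDegree ≤ d → Ph d ((d.factorial : ℝ) * f.coeff d) (fun n => f.eval (n : ℝ)) := by
  induction d with
  | zero =>
    intro f hf n
    have h1 : f = C (f.coeff 0) := eq_C_of_natDegree_le_zero hf
    have h2 : f.eval (n : ℝ) = f.coeff 0 := by
      conv_lhs => rw [h1]
      rw [eval_C]
    show f.eval (n : ℝ) = _
    rw [h2]; simp
  | succ d ih =>
    intro f hf h
    set g : ℝ[X] := taylor (h : ℝ) f - f with hg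
    have hcoef : ∀ j, d ≤ j → (taylor (h : ℝ) f).coeff j = f.coeff j + (if j = d then ((d : ℝ) + 1) * f.coeff (d + 1) * h else 0) := by
      intro j hj
      rw [taylor_coeff]
      have h1 : (hasseDeriv j f).natDegree < 2 := by
        have := natDegree_hasseDeriv_le f j
        omega
      rw [eval_eq_sum_range' h1, sum_range_succ, sum_range_succ, sum_range_zero, hasseDeriv_coeff, hasseDeriv_coeff]
      rcases eq_or_ne j d with h2 | h2
      · subst h2
        rw [if_pos rfl, zero_add, zero_add, Nat.choose_self, add_comm 1 j, Nat.choose_succ_self_right]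
        push_cast
        ring
      · rw [if_neg h2]
        have h3 : f.coeff (1 + j) = 0 := coeff_eq_zero_of_natDegree_lt (by omega)
        rw [h3, zero_add, zero_add, Nat.choose_self]
        push_cast
        ring
    have hgd : g.natDegree ≤ d := by
      rw [natDegree_le_iff_coeff_eq_zero]
      intro j hj
      rw [hg, coeff_sub, hcoef j (by omega), if_neg (by omega)]
      ring
    have hgc : g.coeff d = ((d : ℝ) + 1) * f.coeff (d + 1) * h := by
      rw [hg, coeff_sub, hcoef d le_rfl, if_pos rfl]; ring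
    have h1 := ih g hgd
    have h2 : (fun n : ℕ => g.eval (n : ℝ)) = fun n : ℕ => f.eval ((n + h : ℕ) : ℝ) - f.eval (n : ℝ) := by
      funext n
      rw [hg, eval_sub, taylor_eval]
      push_cast
      ring_nf
    have h3 : (d.factorial : ℝ) * g.coeff d = (h : ℝ) * (((d + 1).factorial : ℝ) * f.coeff (d + 1)) := by
      rw [hgc, Nat.factorial_succ]; push_cast; ring
    rw [h2, h3] at h1
    exact h1

/-- the multiples of an irrational number up to `Q` are away from the integers -/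
theorem irr_away {β : ℝ} (hβ : Irrational β) (Q : ℕ) :
    ∃ ρ : ℝ, 0 < ρ ∧ ∀ q : ℕ, 1 ≤ q → q ≤ Q → ∀ a : ℤ, ρ ≤ |q * β - a| := by
  induction Q with
  | zero => exact ⟨1, one_pos, fun q h1 h2 => by omega⟩
  | succ Q ih =>
    obtain ⟨ρ, h0, h⟩ := ih
    have hirr : Irrational (((Q + 1 : ℕ) : ℝ) * β) := hβ.natCast_mul (Nat.succ_ne_zero Q)
    have hpos : 0 < |((Q + 1 : ℕ) : ℝ) * β - round (((Q + 1 : ℕ) : ℝ) * β)| :=
      abs_pos.2 (sub_ne_zero.2 (hirr.ne_int _))
    refine ⟨min ρ (|((Q + 1 : ℕ) : ℝ) * β - round (((Q + 1 : ℕ) : ℝ) * β)|), lt_min h0 hpos, fun q h1 h2 a => ?_⟩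
    rcases Nat.lt_or_ge Q q with hq | hq
    · have : q = Q + 1 := by omega
      subst this
      exact (min_le_right _ _).trans (round_le _ _)
    · exact (min_le_left _ _).trans (h q h1 hq a)

/-- progressions -/
theorem ph_small {k : ℕ} (hk : 1 ≤ k) {α : ℝ} (hα : Irrational α) {φ : ℕ → ℝ} (h : Ph k α φ) {q : ℕ} (hq : 1 ≤ q) :
    ∀ ε : ℝ, 0 < ε → ∃ T : ℕ, ∀ y t : ℕ, T ≤ t → ‖∑ i ∈ range t, ee (φ (y + q * i))‖ ≤ ε * t := by
  intro ε hε
  obtain ⟨c, m, hc, hIW⟩ := IW_all k hk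
  set u : ℝ := 1 / ε + 1 with hu
  have hu1 : 1 ≤ u := by have := one_div_pos.2 hε; linarith
  have hβ : Irrational ((q : ℝ) ^ k * α) := by
    have := hα.natCast_mul (m := q ^ k) (pow_ne_zero _ (by omega))
    push_cast at this
    exact this
  obtain ⟨ρ, h0, hρ⟩ := irr_away hβ ⌊(c : ℝ) * u ^ m⌋₊
  refine ⟨⌊(c : ℝ) * u ^ m / ρ⌋₊ + 1, fun y t ht => ?_⟩
  by_contra hcon
  push Not at hcon
  have ht1 : 1 ≤ t := by omega
  have ht0 : (1 : ℝ) ≤ t := by exact_mod_cast ht1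
  have h1 : (t : ℝ) ≤ u * ‖∑ i ∈ range t, ee (φ (y + q * i))‖ := by
    have h2 : 0 ≤ ‖∑ i ∈ range t, ee (φ (y + q * i))‖ := norm_nonneg _
    have h3 : (t : ℝ) = 1 / ε * (ε * t) := by field_simp
    have h4 := one_div_pos.2 hε
    rw [hu, add_mul]
    nlinarith
  obtain ⟨q', hq1, hq2, a, ha⟩ := hIW t u _ _ ht1 hu1 (Ph_comp' k α φ h y q) h1
  have h2 := hρ q' hq1 (Nat.le_floor hq2) a
  have h3 : (c : ℝ) * u ^ m / ρ < t := by
    have := Nat.lt_floor_add_one ((c : ℝ) * u ^ m / ρ)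
    have h4 : ((⌊(c : ℝ) * u ^ m / ρ⌋₊ + 1 : ℕ) : ℝ) ≤ t := by exact_mod_cast ht
    push_cast at h4
    linarith
  rw [div_lt_iff₀ h0] at h3
  have h5 : (t : ℝ) ≤ (t : ℝ) ^ k := le_self_pow₀ ht0 (by omega)
  have h6 : (c : ℝ) * u ^ m / (t : ℝ) ^ k < ρ := by
    rw [div_lt_iff₀ (by positivity)]
    nlinarith
  linarith

/-- splitting a sum -/
theorem split_blocks (F : ℕ → ℂ) (q : ℕ) (t : ℕ) :
    ∑ j ∈ range (q * t), F j = ∑ r ∈ range q, ∑ i ∈ range t, F (r + q * i) := by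
  induction t with
  | zero => simp
  | succ t ih =>
    rw [Nat.mul_succ, sum_range_add, ih, ← sum_add_distrib]
    apply sum_congr rfl
    intro r _
    rw [sum_range_succ]
    congr 2
    ring

theorem rat_mul_int {c : ℝ} {r : ℚ} (h : (r : ℝ) = c) {q : ℕ} (hq : r.den ∣ q) : ∃ z : ℤ, (q : ℝ) * c = z := by
  obtain ⟨d, rfl⟩ := hq
  refine ⟨d * r.num, ?_⟩
  have h1 : (r : ℝ) = (r.num : ℝ) / (r.den : ℝ) := by exact_mod_cast (Rat.num_div_den r).symm
  have h2 : (r.den : ℝ) ≠ 0 := by exact_mod_cast r.den_nz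
  rw [← h, h1]
  push_cast
  field_simp

/-- THE PHASES -/
theorem sm_poly (Q : ℝ[X]) (h : ∃ i, 1 ≤ i ∧ Irrational (Q.coeff i)) : Sm fun n => ee (Q.eval (n : ℝ)) := by
  classical
  -- the largest index of an irrational coefficient
  set S : Finset ℕ := Q.support.filter fun i => 1 ≤ i ∧ Irrational (Q.coeff i) with hS
  have hne : S.Nonempty := by
    obtain ⟨i, h1, h2⟩ := h
    refine ⟨i, mem_filter.2 ⟨mem_support_iff.2 fun h0 => ?_, h1, h2⟩⟩
    rw [h0] at h2
    exact h2 ⟨0, by simp⟩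
  obtain ⟨i, hi, hmax⟩ := exists_max_image S id hne
  obtain ⟨_, hi1, hirr⟩ := mem_filter.1 hi
  have hrat : ∀ j, i < j → ∃ r : ℚ, (r : ℝ) = Q.coeff j := by
    intro j hj
    by_contra hcon
    have h2 : Irrational (Q.coeff j) := fun ⟨r, hr⟩ => hcon ⟨r, hr⟩
    have h3 : j ∈ S := by
      refine mem_filter.2 ⟨mem_support_iff.2 fun h0 => ?_, by omega, h2⟩
      rw [h0] at h2
      exact h2 ⟨0, by simp⟩
    have := hmax j h3
    simp only [id] at this
    omega
  choose! r hr using hrat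
  set d : ℕ := Q.natDegree with hd
  set q : ℕ := ∏ j ∈ range (d + 1), (r j).den with hq
  have hq1 : 1 ≤ q := Nat.one_le_iff_ne_zero.2 (prod_ne_zero_iff.2 fun j _ => (r j).den_nz)
  -- the two parts
  set low : ℝ[X] := ∑ j ∈ range (i + 1), C (Q.coeff j) * X ^ j with hlow
  have hlowd : low.natDegree ≤ i := by
    refine natDegree_sum_le_of_forall_le _ _ fun j hj => ?_
    exact (natDegree_C_mul_X_pow_le _ _).trans (by have := mem_range.1 hj; omega)
  have hlowc : low.coeff i = Q.coeff i := by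
    rw [hlow, finset_sum_coeff, sum_eq_single i]
    · rw [coeff_C_mul, coeff_X_pow, if_pos rfl, mul_one]
    · intro j _ hj
      rw [coeff_C_mul, coeff_X_pow, if_neg (Ne.symm hj), mul_zero]
    · intro h'
      exact absurd (mem_range.2 (Nat.lt_succ_self i)) h'
  set hig : ℕ → ℝ := fun n => ∑ j ∈ Ico (i + 1) (d + 1), Q.coeff j * (n : ℝ) ^ j with hhig
  have hid : i + 1 ≤ d + 1 := by
    have := le_natDegree_of_mem_supp i (mem_filter.1 hi).1
    omega
  have hev : ∀ n : ℕ, Q.eval (n : ℝ) = low.eval (n : ℝ) + hig n := by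
    intro n
    rw [eval_eq_sum_range, hlow, eval_finset_sum, ← hd, range_eq_Ico, ← sum_Ico_consecutive _ (Nat.zero_le _) hid,
      ← range_eq_Ico]
    congr 1
    apply sum_congr rfl
    intro j _
    simp
  have hper : ∀ y t : ℕ, ee (hig (y + q * t)) = ee (hig y) := by
    intro y t
    have h1 : ∃ z : ℤ, hig (y + q * t) = hig y + z := by
      have h2 : ∀ j ∈ Ico (i + 1) (d + 1), ∃ z : ℤ, Q.coeff j * ((y + q * t : ℕ) : ℝ) ^ j = Q.coeff j * (y : ℝ) ^ j + z := by
        intro j hj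
        obtain ⟨hj1, hj2⟩ := mem_Ico.1 hj
        obtain ⟨z, hz⟩ := rat_mul_int (hr j (by omega)) (q := q) (dvd_prod_of_mem _ (mem_range.2 hj2))
        have h3 : (q : ℤ) ∣ ((y + q * t : ℕ) : ℤ) ^ j - (y : ℤ) ^ j := by
          have h4 : ((y + q * t : ℕ) : ℤ) - (y : ℤ) ∣ ((y + q * t : ℕ) : ℤ) ^ j - (y : ℤ) ^ j := sub_dvd_pow_sub_pow _ _ _
          refine dvd_trans ⟨t, ?_⟩ h4
          push_cast
          ring
        obtain ⟨w, hw⟩ := h3
        refine ⟨z * w, ?_⟩
        have h5 : ((y + q * t : ℕ) : ℝ) ^ j = (y : ℝ) ^ j + q * w := by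
          have : (((y + q * t : ℕ) : ℤ) : ℝ) ^ j - ((y : ℤ) : ℝ) ^ j = (q : ℤ) * w := by exact_mod_cast hw
          push_cast at this ⊢
          linarith
        rw [h5]
        push_cast
        linear_combination (w : ℝ) * hz
      choose! z hz using h2
      refine ⟨∑ j ∈ Ico (i + 1) (d + 1), z j, ?_⟩
      rw [hhig]
      simp only
      rw [sum_congr rfl hz, sum_add_distrib]
      push_cast
      rfl
    obtain ⟨z, hz⟩ := h1
    rw [hz, ee_add, (ee_eq_one_iff' (z : ℝ)).2 ⟨z, rfl⟩, mul_one]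
  have hPh := Ph_real' i low hlowd
  rw [hlowc] at hPh
  have hirr' : Irrational ((i.factorial : ℝ) * Q.coeff i) := hirr.natCast_mul (Nat.factorial_ne_zero i)
  intro ε hε
  obtain ⟨T, hT⟩ := ph_small hi1 hirr' hPh hq1 (ε / 2) (by positivity)
  have hq0 : (1 : ℝ) ≤ q := by exact_mod_cast hq1
  refine ⟨⌈((q * T + q : ℕ) : ℝ) / ε⌉₊ ^ 2 + ⌈(2 * q / (ε * ε) : ℝ)⌉₊ ^ 2 + 1, fun y H hy hH => ?_⟩
  have hsq : ∀ c : ℝ, 0 ≤ c → ⌈c⌉₊ ^ 2 ≤ y → c ≤ Real.sqrt y := by
    intro c hc h1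
    apply Real.le_sqrt_of_sq_le
    have h2 : c ^ 2 ≤ (⌈c⌉₊ : ℝ) ^ 2 := pow_le_pow_left₀ hc (Nat.le_ceil c) 2
    refine h2.trans ?_
    exact_mod_cast h1
  have h1 := hsq (((q * T + q : ℕ) : ℝ) / ε) (by positivity) (by omega)
  have h2 := hsq (2 * q / (ε * ε)) (by positivity) (by omega)
  rw [div_le_iff₀ hε] at h1
  rw [div_le_iff₀ (by positivity)] at h2
  have hHq : ((q * T + q : ℕ) : ℝ) ≤ H := by linarith
  have hHq' : q * T + q ≤ H := by exact_mod_cast hHq
  have hH2 : (q : ℝ) ≤ ε / 2 * H := by nlinarith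
  -- blocks
  set t : ℕ := H / q with ht
  have hHt : H = q * t + H % q := (Nat.div_add_mod H q).symm
  have htT : T ≤ t := by
    rw [ht, Nat.le_div_iff_mul_le (by omega)]
    nlinarith
  rw [hHt, sum_range_add]
  refine (norm_add_le _ _).trans ?_
  have b1 : ‖∑ j ∈ range (H % q), ee (Q.eval ((y + (q * t + j) : ℕ) : ℝ))‖ ≤ q := by
    refine (norm_sum_le _ _).trans ?_
    rw [sum_congr rfl fun j _ => norm_ee _, sum_const, card_range, nsmul_eq_mul, mul_one]
    exact_mod_cast (Nat.mod_lt _ (by omega)).le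
  have b2 : ‖∑ j ∈ range (q * t), ee (Q.eval ((y + j : ℕ) : ℝ))‖ ≤ ε / 2 * (q * t) := by
    rw [split_blocks (fun j => ee (Q.eval ((y + j : ℕ) : ℝ)))]
    refine (norm_sum_le _ _).trans ?_
    have : ∀ r ∈ range q, ‖∑ i ∈ range t, ee (Q.eval ((y + (r + q * i) : ℕ) : ℝ))‖ ≤ ε / 2 * t := by
      intro r _
      have e1 : ∑ i ∈ range t, ee (Q.eval ((y + (r + q * i) : ℕ) : ℝ)) =
          ee (hig (y + r)) * ∑ i ∈ range t, ee (low.eval (((y + r) + q * i : ℕ) : ℝ)) := by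
        rw [mul_sum]
        apply sum_congr rfl
        intro j _
        rw [hev, ee_add, ← add_assoc, hper, mul_comm]
      rw [e1, norm_mul, norm_ee, one_mul]
      exact hT (y + r) t htT
    refine (sum_le_sum this).trans ?_
    rw [sum_const, card_range, nsmul_eq_mul]
    linarith
  have b3 : ((q * t : ℕ) : ℝ) ≤ H := by
    have : q * t ≤ H := Nat.mul_div_le H q
    exact_mod_cast this
  push_cast at b3
  rw [← hHt]
  nlinarith

/-- with the twists -/
theorem stw_poly (α : ℝ) (P : ℝ[X]) (h : ∃ i, 2 ≤ i ∧ Irrational (P.coeff i)) : STw α fun n => ee (P.eval (n : ℝ)) := by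
  intro m
  obtain ⟨i, hi, hirr⟩ := h
  have h1 := sm_poly (P + C ((m : ℝ) * α) * X) ⟨i, by omega, by
    rw [coeff_add, coeff_C_mul, coeff_X, if_neg (by omega), mul_zero, add_zero]
    exact hirr⟩
  refine (congrArg Sm (funext fun k => ?_)).mp h1
  rw [eval_add, eval_mul, eval_C, eval_X, ee_add]

end Pool.Agent.U923.CZ
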