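import Pool.Agent.U923.CZ.Win
import Pool.Agent.Y293.SF.SQF

/-!
Squarefree integers in the intervals `[y, y + H)`, `H ≥ ε √y`, also twisted by characters.
-/

set_option autoImplicit false

namespace Pool.Agent.U923.CZ

open Finset
open Pool.Agent.Helper602.MK (ee)
open Pool.Agent.Helper602.MK.N_J5b (ee_add ee_zero ee_conj norm_ee)
open Pool.Agent.Y293.SF (mu abs_mu_le mu_zero indic_eq moebius_hasSum)

/-- the indicator function of the squarefree integers -/
noncomputable def sqf (n : ℕ) : ℝ := if Squarefree n then 1 else 0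

/-- the truncated sum -/
noncomputable def SD (D n : ℕ) : ℝ := ∑ d ∈ Icc 1 D, if d ^ 2 ∣ n then mu d else 0

theorem sqf_eq {n : ℕ} (hn : n ≠ 0) {B : ℕ} (hB : n ≤ B) : sqf n = SD B n := by
  unfold sqf SD
  rw [indic_eq n hn]
  refine sum_subset (Icc_subset_Icc_right hB) ?_
  intro d hd hd'
  rw [if_neg]
  intro h
  apply hd'
  rw [mem_Icc] at hd ⊢
  refine ⟨hd.1, ?_⟩
  have : d ∣ n := dvd_trans (dvd_pow_self d two_ne_zero) h
  exact Nat.le_of_dvd (by omega) this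

theorem sqf_sub_le {n : ℕ} (hn : n ≠ 0) {B D : ℕ} (hB : n ≤ B) (hD : D ≤ B) :
    |sqf n - SD D n| ≤ (((Icc (D + 1) B).filter fun d => d ^ 2 ∣ n).card : ℝ) := by
  have e : sqf n - SD D n = ∑ d ∈ Icc (D + 1) B, if d ^ 2 ∣ n then mu d else 0 := by
    rw [sqf_eq hn hB]
    unfold SD
    have h1 : Icc 1 B = Icc 1 D ∪ Icc (D + 1) B := by
      ext d
      rw [mem_union, mem_Icc, mem_Icc, mem_Icc]
      omega
    rw [h1, sum_union]
    · ring
    · rw [disjoint_left]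
      intro d h h'
      rw [mem_Icc] at h h'
      omega
  rw [e]
  refine (abs_sum_le_sum_abs _ _).trans ?_
  rw [card_filter]
  push_cast
  apply sum_le_sum
  intro d _
  split_ifs
  · exact abs_mu_le d
  · simp

/-! ### multiples in an interval -/

theorem mult_sum (k : ℕ) (hk : 1 ≤ k) (β : ℝ) (z H : ℕ) :
    ∑ i ∈ range H, (if k ∣ z + 1 + i then ee (β * ((z + 1 + i : ℕ) : ℝ)) else 0) =
      ∑ t ∈ Ico (z / k + 1) ((z + H) / k + 1), ee (β * k * t) := by
  induction H with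
  | zero => simp
  | succ H ih =>
    rw [sum_range_succ, ih]
    have h1 : (z + (H + 1)) / k = (z + H) / k + if k ∣ z + H + 1 then 1 else 0 := by
      rw [← add_assoc]
      exact Nat.succ_div
    have h2 : z + 1 + H = z + H + 1 := by ring
    rw [h2]
    by_cases h : k ∣ z + H + 1
    · rw [if_pos h] at h1
      have hle : z / k + 1 ≤ (z + H) / k + 1 := Nat.succ_le_succ (Nat.div_le_div_right (Nat.le_add_right _ _))
      rw [h1, if_pos h, sum_Ico_succ_top hle]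
      congr 2
      obtain ⟨t, ht⟩ := h
      have h3 : (z + (H + 1)) / k = t := by
        rw [← add_assoc, ht]
        exact Nat.mul_div_cancel_left t (by omega)
      rw [h1] at h3
      rw [h3, ht]
      push_cast
      ring
    · rw [if_neg h] at h1
      rw [h1, if_neg h, add_zero, add_zero]

/-- the number of the multiples of `k` -/
theorem mult_card (k : ℕ) (hk : 1 ≤ k) (y H : ℕ) (hy : 1 ≤ y) :
    |(((range H).filter fun i => k ∣ y + i).card : ℝ) - H / k| ≤ 1 := by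
  obtain ⟨z, rfl⟩ : ∃ z, y = z + 1 := ⟨y - 1, by omega⟩
  have h1 := mult_sum k hk 0 z H
  simp only [zero_mul, ee_zero, sum_const, Nat.card_Ico, nsmul_eq_mul, mul_one, ← sum_filter] at h1
  have h2 : ((range H).filter fun i => k ∣ z + 1 + i).card = (z + H) / k + 1 - (z / k + 1) := by exact_mod_cast h1
  have h3 : z / k ≤ (z + H) / k := Nat.div_le_div_right (Nat.le_add_right _ _)
  have h4 : (((range H).filter fun i => k ∣ z + 1 + i).card : ℝ) = ((z + H) / k : ℕ) - ((z / k : ℕ) : ℝ) := by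
    rw [h2, Nat.add_sub_add_right, Nat.cast_sub h3]
  have hk0 : (0 : ℝ) < k := by exact_mod_cast hk
  have a1 : ((z + H) / k : ℕ) ≤ ((z : ℝ) + H) / k := by
    have := Nat.cast_div_le (α := ℝ) (m := z + H) (n := k)
    push_cast at this
    exact this
  have a2 : ((z / k : ℕ) : ℝ) ≤ (z : ℝ) / k := Nat.cast_div_le
  have a3 : ((z : ℝ) + H) / k < ((z + H) / k : ℕ) + 1 := by
    rw [div_lt_iff₀ hk0]
    have := Nat.lt_div_mul_add (a := z + H) (b := k) (by omega)
    have h5 : ((z + H : ℕ) : ℝ) < (((z + H) / k * k + k : ℕ) : ℝ) := by exact_mod_cast this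
    push_cast at h5 ⊢
    linarith
  have a4 : (z : ℝ) / k < ((z / k : ℕ) : ℝ) + 1 := by
    rw [div_lt_iff₀ hk0]
    have := Nat.lt_div_mul_add (a := z) (b := k) (by omega)
    have h5 : (z : ℝ) < ((z / k * k + k : ℕ) : ℝ) := by exact_mod_cast this
    push_cast at h5 ⊢
    linarith
  have a5 : ((z : ℝ) + H) / k = z / k + H / k := add_div _ _ _
  rw [h4, abs_le]
  constructor <;> linarith

/-- twisted sums over the multiples of `k` -/
theorem mult_tw (k : ℕ) (hk : 1 ≤ k) {β : ℝ} (hβ : ∀ n : ℤ, β * k ≠ n) (y H : ℕ) (hy : 1 ≤ y) :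
    ‖∑ i ∈ range H, (if k ∣ y + i then ee (β * ((y + i : ℕ) : ℝ)) else 0)‖ ≤ 2 / ‖ee (β * k) - 1‖ := by
  obtain ⟨z, rfl⟩ : ∃ z, y = z + 1 := ⟨y - 1, by omega⟩
  have hz : ee (β * k) ≠ 1 := fun h => by
    obtain ⟨n, hn⟩ := (ee_eq_one_iff' (β * k)).1 h
    exact hβ n hn
  rw [mult_sum k hk β z H, sum_Ico_eq_sum_range]
  have := geom_window (norm_ee (β * k)) hz 1 (z / k + 1) ((z + H) / k + 1 - (z / k + 1))
  rw [norm_one, one_mul] at this
  refine le_trans (le_of_eq ?_) this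
  congr 1
  apply sum_congr rfl
  intro i _
  rw [one_mul, ee_nat_mul']

/-! ### the large divisors -/

theorem large_div {η : ℝ} (hη : 0 < η) {y H m : ℕ} (hH : 1 ≤ H) (hm : 1 ≤ m) (S : Finset ℕ)
    (hS : ∀ d ∈ S, η * H < d ∧ y ≤ d ^ 2 * m ∧ d ^ 2 * m < y + H) : S.card ≤ ⌊1 / (2 * η)⌋₊ + 1 := by
  rcases S.eq_empty_or_nonempty with h | h
  · subst h; simp
  obtain ⟨d₀, hd₀, hmin⟩ := exists_min_image S id h
  have hsub : S ⊆ Icc d₀ (d₀ + ⌊1 / (2 * η)⌋₊) := by
    intro d hd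
    have h1 : d₀ ≤ d := hmin d hd
    rw [mem_Icc]
    refine ⟨h1, ?_⟩
    obtain ⟨a1, a2, a3⟩ := hS d hd
    obtain ⟨b1, b2, b3⟩ := hS d₀ hd₀
    obtain ⟨w, rfl⟩ : ∃ w, d = d₀ + w := ⟨d - d₀, by omega⟩
    suffices h2 : w ≤ ⌊1 / (2 * η)⌋₊ by omega
    apply Nat.le_floor
    rw [le_div_iff₀ (by positivity)]
    have h3 : w * (2 * d₀ + w) ≤ H := by
      have : (d₀ + w) ^ 2 * m = d₀ ^ 2 * m + w * (2 * d₀ + w) * m := by ring
      have h4 : w * (2 * d₀ + w) ≤ w * (2 * d₀ + w) * m := Nat.le_mul_of_pos_right _ (by omega)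
      omega
    have h4 : (w : ℝ) * (2 * d₀ + w) ≤ H := by exact_mod_cast h3
    have hH0 : (1 : ℝ) ≤ H := by exact_mod_cast hH
    have hw0 : (0 : ℝ) ≤ w := Nat.cast_nonneg _
    have h5 : (w : ℝ) * (2 * η) * H ≤ 1 * H := by nlinarith [mul_nonneg hw0 hw0, mul_nonneg hw0 (sub_nonneg.2 b1.le)]
    exact le_of_mul_le_mul_right h5 (by linarith)
  refine (card_le_card hsub).trans ?_
  rw [Nat.card_Icc]
  omega

theorem inv_sq_sum (D E : ℕ) (hD : 1 ≤ D) : ∑ d ∈ Icc (D + 1) E, (1 : ℝ) / (d : ℝ) ^ 2 ≤ 1 / D := by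
  rcases Nat.lt_or_ge E D with h | h
  · rw [Icc_eq_empty (by omega), sum_empty]
    positivity
  have key : ∑ d ∈ Icc (D + 1) E, (1 : ℝ) / (d : ℝ) ^ 2 ≤ 1 / D - 1 / E := by
    induction E, h using Nat.le_induction with
    | base => rw [Icc_eq_empty (by omega), sum_empty, sub_self]
    | succ E hE ih =>
      have hins : Icc (D + 1) (E + 1) = insert (E + 1) (Icc (D + 1) E) := by
        ext d
        rw [mem_insert, mem_Icc, mem_Icc]
        omega
      rw [hins, sum_insert (by simp)]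
      have h1 : (0 : ℝ) < E := by exact_mod_cast (by omega : 0 < E)
      have h2 : (1 : ℝ) / ((E + 1 : ℕ) : ℝ) ^ 2 ≤ 1 / E - 1 / ((E + 1 : ℕ) : ℝ) := by
        push_cast
        rw [div_sub_div _ _ (by positivity) (by positivity), div_le_div_iff₀ (by positivity) (by positivity)]
        nlinarith
      linarith
  have : (0 : ℝ) ≤ 1 / E := by positivity
  linarith

/-- THE ERROR OF THE TRUNCATION -/
theorem trunc_err : ∀ ε : ℝ, 0 < ε → ∃ D₀ : ℕ, 1 ≤ D₀ ∧ ∀ D : ℕ, D₀ ≤ D → ∃ Y : ℕ, 1 ≤ Y ∧ ∀ y H : ℕ, Y ≤ y →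
    ε * Real.sqrt y ≤ H → ∑ i ∈ range H, |sqf (y + i) - SD D (y + i)| ≤ ε * H := by
  intro ε hε
  set η : ℝ := ε / 4 with hη
  have hη0 : 0 < η := by positivity
  set M₀ : ℝ := 1 / (η ^ 2 * ε ^ 2) + 1 / η ^ 2 with hM₀
  have hM0 : 0 < M₀ := by positivity
  set R : ℕ := ⌊1 / (2 * η)⌋₊ + 1 with hR
  refine ⟨⌈4 / ε⌉₊ + 1, by omega, fun D hD => ⟨⌈((R * M₀) * (4 / ε) + 1) / ε⌉₊ ^ 2 + 1, by omega, fun y H hy hH => ?_⟩⟩
  have hy1 : 1 ≤ y := by omega
  have hD1 : 1 ≤ D := by omega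
  have hy0 : (1 : ℝ) ≤ y := by exact_mod_cast hy1
  have hbig : (R * M₀) * (4 / ε) + 1 ≤ H := by
    have h1 : ((R * M₀) * (4 / ε) + 1) / ε ≤ Real.sqrt y := by
      apply Real.le_sqrt_of_sq_le
      have h2 : (((R * M₀) * (4 / ε) + 1) / ε) ^ 2 ≤ (⌈((R * M₀) * (4 / ε) + 1) / ε⌉₊ : ℝ) ^ 2 :=
        pow_le_pow_left₀ (by positivity) (Nat.le_ceil _) 2
      refine h2.trans ?_
      have h3 : ⌈((R * M₀) * (4 / ε) + 1) / ε⌉₊ ^ 2 ≤ y := by omega
      exact_mod_cast h3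
    rw [div_le_iff₀ hε] at h1
    linarith
  have hRM : (R : ℝ) * M₀ ≤ ε / 4 * H := by
    have h1 : (R * M₀) * (4 / ε) ≤ H := by linarith
    calc (R : ℝ) * M₀ = ε / 4 * ((R * M₀) * (4 / ε)) := by field_simp
      _ ≤ ε / 4 * H := mul_le_mul_of_nonneg_left h1 (by positivity)
  have hH1R : (1 : ℝ) ≤ H := by
    have : (0 : ℝ) ≤ (R * M₀) * (4 / ε) := by positivity
    linarith
  have hH1 : 1 ≤ H := by exact_mod_cast hH1R
  set B : ℕ := y + H + D with hB
  -- the pairs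
  set W : Finset (ℕ × ℕ) := ((range H) ×ˢ (Icc (D + 1) B)).filter fun p => p.2 ^ 2 ∣ y + p.1 with hW
  have hcard : ∑ i ∈ range H, |sqf (y + i) - SD D (y + i)| ≤ (W.card : ℝ) := by
    have e : W.card = ∑ i ∈ range H, ((Icc (D + 1) B).filter fun d => d ^ 2 ∣ y + i).card := by
      rw [hW, card_filter, sum_product]
      apply sum_congr rfl
      intro i _
      rw [card_filter]
    rw [e]
    push_cast
    apply sum_le_sum
    intro i hi
    have := mem_range.1 hi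
    exact sqf_sub_le (by omega) (by omega) (by omega)
  refine hcard.trans ?_
  set E : ℕ := ⌊η * H⌋₊ with hE
  have hsplit : W.card = (W.filter fun p => p.2 ≤ E).card + (W.filter fun p => ¬ p.2 ≤ E).card :=
    (card_filter_add_card_filter_not _).symm
  -- small divisors
  have hW1 : ((W.filter fun p => p.2 ≤ E).card : ℝ) ≤ H * (1 / D) + η * H := by
    have h1 : (W.filter fun p => p.2 ≤ E).card ≤ ∑ d ∈ Icc (D + 1) E, ((range H).filter fun i => d ^ 2 ∣ y + i).card := by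
      have h2 : (W.filter fun p => p.2 ≤ E) ⊆
          (Icc (D + 1) E).biUnion fun d => ((range H).filter fun i => d ^ 2 ∣ y + i).image fun i => (i, d) := by
        intro p hp
        rw [mem_filter, hW, mem_filter, mem_product, mem_Icc] at hp
        rw [mem_biUnion]
        refine ⟨p.2, mem_Icc.2 ⟨hp.1.1.2.1, hp.2⟩, ?_⟩
        rw [mem_image]
        exact ⟨p.1, mem_filter.2 ⟨hp.1.1.1, hp.1.2⟩, rfl⟩
      refine (card_le_card h2).trans (card_biUnion_le.trans ?_)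
      exact sum_le_sum fun d _ => card_image_le
    have h3 : ∀ d ∈ Icc (D + 1) E, (((range H).filter fun i => d ^ 2 ∣ y + i).card : ℝ) ≤ H * (1 / (d : ℝ) ^ 2) + 1 := by
      intro d hd
      have hd1 : 1 ≤ d := by have := (mem_Icc.1 hd).1; omega
      have h4 := mult_card (d ^ 2) (Nat.one_le_pow _ _ hd1) y H hy1
      push_cast at h4
      have h5 := (abs_le.1 h4).2
      have h6 : (H : ℝ) * (1 / (d : ℝ) ^ 2) = H / (d : ℝ) ^ 2 := by ring
      linarith
    calc ((W.filter fun p => p.2 ≤ E).card : ℝ) ≤ ∑ d ∈ Icc (D + 1) E, (((range H).filter fun i => d ^ 2 ∣ y + i).card : ℝ) := by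
          exact_mod_cast h1
      _ ≤ ∑ d ∈ Icc (D + 1) E, ((H : ℝ) * (1 / (d : ℝ) ^ 2) + 1) := sum_le_sum h3
      _ = H * ∑ d ∈ Icc (D + 1) E, (1 / (d : ℝ) ^ 2) + (Icc (D + 1) E).card := by
          rw [sum_add_distrib, mul_sum, sum_const, nsmul_eq_mul, mul_one]
      _ ≤ H * (1 / D) + η * H := by
          have h7 := inv_sq_sum D E hD1
          have h8 : ((Icc (D + 1) E).card : ℝ) ≤ E := by
            rw [Nat.card_Icc]
            exact_mod_cast (by omega : E + 1 - (D + 1) ≤ E)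
          have h9 : (E : ℝ) ≤ η * H := Nat.floor_le (by positivity)
          have h10 : (0 : ℝ) ≤ H := Nat.cast_nonneg _
          nlinarith
  -- large divisors
  have hW2 : ((W.filter fun p => ¬ p.2 ≤ E).card : ℝ) ≤ R * M₀ := by
    have hmem : ∀ p ∈ W.filter fun p => ¬ p.2 ≤ E, η * H < p.2 ∧ p.1 < H ∧ p.2 ^ 2 ∣ y + p.1 := by
      intro p hp
      rw [mem_filter, hW, mem_filter, mem_product, mem_range] at hp
      refine ⟨?_, hp.1.1.1, hp.1.2⟩
      have h1 : E < p.2 := by omega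
      exact (Nat.floor_lt (by positivity)).1 h1
    have h1 : (W.filter fun p => ¬ p.2 ≤ E).card ≤ R * (Icc 1 ⌊M₀⌋₊).card := by
      refine card_le_mul_card_image_of_maps_to (f := fun p => (y + p.1) / p.2 ^ 2) ?_ R ?_
      · intro p hp
        obtain ⟨a1, a2, a3⟩ := hmem p hp
        have hp0 : (0 : ℝ) < p.2 := lt_of_le_of_lt (by positivity) a1
        have hp1 : 0 < p.2 := by exact_mod_cast hp0
        obtain ⟨m, hm⟩ := a3
        have e : (y + p.1) / p.2 ^ 2 = m := by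
          rw [hm]
          exact Nat.mul_div_cancel_left m (by positivity)
        rw [e, mem_Icc]
        have hm1 : 1 ≤ m := by
          rcases Nat.eq_zero_or_pos m with h | h
          · subst h; omega
          · exact h
        refine ⟨hm1, Nat.le_floor ?_⟩
        have h2 : (p.2 : ℝ) ^ 2 * m = y + p.1 := by exact_mod_cast hm.symm
        have h3 : (p.1 : ℝ) ≤ H := by exact_mod_cast a2.le
        have h4 : (y : ℝ) ≤ H ^ 2 / ε ^ 2 := by
          rw [le_div_iff₀ (by positivity)]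
          have h5 : (ε * Real.sqrt y) ^ 2 ≤ (H : ℝ) ^ 2 := pow_le_pow_left₀ (by positivity) hH 2
          rw [mul_pow, Real.sq_sqrt (by positivity)] at h5
          linarith
        have h5 : (η * H) ^ 2 * m ≤ H ^ 2 / ε ^ 2 + H := by
          have h6 : (η * H) ^ 2 ≤ (p.2 : ℝ) ^ 2 := pow_le_pow_left₀ (by positivity) a1.le 2
          have h7 : (0 : ℝ) ≤ m := Nat.cast_nonneg _
          nlinarith
        have h6 : (H : ℝ) ^ 2 / ε ^ 2 + H ≤ (η * H) ^ 2 * M₀ := by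
          have h8 : (η * H) ^ 2 * M₀ = H ^ 2 / ε ^ 2 + H ^ 2 := by
            rw [hM₀]
            field_simp
          rw [h8]
          nlinarith
        have h7 : (η * H) ^ 2 * m ≤ (η * H) ^ 2 * M₀ := h5.trans h6
        exact le_of_mul_le_mul_left h7 (by positivity)
      · intro m hm
        have hm1 := (mem_Icc.1 hm).1
        have h2 : ((W.filter fun p => ¬ p.2 ≤ E).filter fun p => (y + p.1) / p.2 ^ 2 = m).card ≤
            (((W.filter fun p => ¬ p.2 ≤ E).filter fun p => (y + p.1) / p.2 ^ 2 = m).image fun p => p.2).card := by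
          rw [card_image_of_injOn]
          intro p hp q hq hpq
          rw [mem_coe, mem_filter] at hp hq
          have hpq' : p.2 = q.2 := hpq
          obtain ⟨_, _, a3⟩ := hmem p hp.1
          obtain ⟨_, _, b3⟩ := hmem q hq.1
          have e1 := Nat.mul_div_cancel' a3
          have e2 := Nat.mul_div_cancel' b3
          rw [hp.2] at e1
          rw [hq.2] at e2
          rw [hpq'] at e1
          have : y + p.1 = y + q.1 := by rw [← e1, ← e2]
          exact Prod.ext (by omega) hpq'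
        refine h2.trans (large_div hη0 hH1 hm1 (y := y) _ fun d hd => ?_)
        rw [mem_image] at hd
        obtain ⟨p, hp, rfl⟩ := hd
        rw [mem_filter] at hp
        obtain ⟨a1, a2, a3⟩ := hmem p hp.1
        have e1 := Nat.mul_div_cancel' a3
        rw [hp.2] at e1
        exact ⟨a1, by omega, by omega⟩
    rw [Nat.card_Icc, Nat.add_sub_cancel] at h1
    calc ((W.filter fun p => ¬ p.2 ≤ E).card : ℝ) ≤ ((R * ⌊M₀⌋₊ : ℕ) : ℝ) := by exact_mod_cast h1
      _ = R * (⌊M₀⌋₊ : ℝ) := by push_cast; ring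
      _ ≤ R * M₀ := mul_le_mul_of_nonneg_left (Nat.floor_le hM0.le) (Nat.cast_nonneg _)
  rw [hsplit]
  push_cast
  have hDinv : (1 : ℝ) / D ≤ ε / 4 := by
    have h1 : 4 / ε ≤ D := (Nat.le_ceil _).trans (by exact_mod_cast (by omega : ⌈4 / ε⌉₊ ≤ D))
    have hD0 : (0 : ℝ) < D := by exact_mod_cast hD1
    rw [div_le_iff₀ hε] at h1
    rw [div_le_iff₀ hD0]
    linarith
  have : (H : ℝ) * (1 / D) ≤ H * (ε / 4) := mul_le_mul_of_nonneg_left hDinv (by linarith)
  nlinarith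

/-- THE TWISTED SUMS -/
theorem sqf_tw {β : ℝ} (hβ : Irrational β) : Sm fun n => (sqf n : ℂ) * ee (β * n) := by
  intro ε hε
  obtain ⟨D, hD, h⟩ := trunc_err (ε / 2) (by positivity)
  obtain ⟨Y, hY1, hY⟩ := h D le_rfl
  set C : ℝ := ∑ d ∈ Icc 1 D, 2 / ‖ee (β * ((d ^ 2 : ℕ) : ℝ)) - 1‖ with hC
  have hC0 : 0 ≤ C := sum_nonneg fun d _ => by positivity
  refine ⟨Y + ⌈(C / (ε / 2 * ε)) ^ 2⌉₊, fun y H hy hH => ?_⟩
  have hy1 : 1 ≤ y := by omega
  have hs : ε / 2 * Real.sqrt y ≤ H := by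
    have := Real.sqrt_nonneg (y : ℝ)
    nlinarith
  have h1 := hY y H (by omega) hs
  have hCH : C ≤ ε / 2 * H := by
    have h2 : C / (ε / 2 * ε) ≤ Real.sqrt y := by
      apply Real.le_sqrt_of_sq_le
      refine (Nat.le_ceil _).trans ?_
      exact_mod_cast (by omega : ⌈(C / (ε / 2 * ε)) ^ 2⌉₊ ≤ y)
    rw [div_le_iff₀ (by positivity)] at h2
    calc C ≤ Real.sqrt y * (ε / 2 * ε) := h2
      _ = ε / 2 * (ε * Real.sqrt y) := by ring
      _ ≤ ε / 2 * H := mul_le_mul_of_nonneg_left hH (by positivity)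
  have e : ∑ i ∈ range H, (sqf (y + i) : ℂ) * ee (β * ((y + i : ℕ) : ℝ)) =
      ∑ i ∈ range H, ((sqf (y + i) - SD D (y + i) : ℝ) : ℂ) * ee (β * ((y + i : ℕ) : ℝ)) +
      ∑ d ∈ Icc 1 D, (mu d : ℂ) * ∑ i ∈ range H, (if d ^ 2 ∣ y + i then ee (β * ((y + i : ℕ) : ℝ)) else 0) := by
    have e2 : ∑ d ∈ Icc 1 D, (mu d : ℂ) * ∑ i ∈ range H, (if d ^ 2 ∣ y + i then ee (β * ((y + i : ℕ) : ℝ)) else 0) =
        ∑ i ∈ range H, (SD D (y + i) : ℂ) * ee (β * ((y + i : ℕ) : ℝ)) := by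
      simp only [mul_sum]
      rw [sum_comm]
      apply sum_congr rfl
      intro i _
      unfold SD
      push_cast
      rw [sum_mul]
      apply sum_congr rfl
      intro d _
      split_ifs <;> simp
    rw [e2, ← sum_add_distrib]
    apply sum_congr rfl
    intro i _
    push_cast
    ring
  simp only
  rw [e]
  refine (norm_add_le _ _).trans ?_
  have b1 : ‖∑ i ∈ range H, ((sqf (y + i) - SD D (y + i) : ℝ) : ℂ) * ee (β * ((y + i : ℕ) : ℝ))‖ ≤ ε / 2 * H := by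
    refine (norm_sum_le _ _).trans (le_trans (le_of_eq ?_) h1)
    apply sum_congr rfl
    intro i _
    rw [norm_mul, norm_ee, mul_one, Complex.norm_real, Real.norm_eq_abs]
  have b2 : ‖∑ d ∈ Icc 1 D, (mu d : ℂ) * ∑ i ∈ range H, (if d ^ 2 ∣ y + i then ee (β * ((y + i : ℕ) : ℝ)) else 0)‖ ≤ C := by
    refine (norm_sum_le _ _).trans (sum_le_sum fun d hd => ?_)
    have hd1 := (mem_Icc.1 hd).1
    have hirr : Irrational (β * ((d ^ 2 : ℕ) : ℝ)) := hβ.mul_natCast (pow_ne_zero _ (by omega))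
    have h3 := mult_tw (d ^ 2) (Nat.one_le_pow _ _ hd1) (fun n => hirr.ne_int n) y H hy1
    rw [norm_mul, Complex.norm_real, Real.norm_eq_abs]
    calc |mu d| * _ ≤ 1 * (2 / ‖ee (β * ((d ^ 2 : ℕ) : ℝ)) - 1‖) :=
          mul_le_mul (abs_mu_le d) h3 (norm_nonneg _) (by norm_num)
      _ = _ := one_mul _
  linarith

/-- THE MEAN VALUE -/
theorem sqf_mean : Sm fun n => (sqf n : ℂ) - ((6 / Real.pi ^ 2 : ℝ) : ℂ) := by
  intro ε hε
  obtain ⟨D₁, hD₁, h⟩ := trunc_err (ε / 3) (by positivity)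
  have hlim : Filter.Tendsto (fun D : ℕ => ∑ d ∈ range D, mu d * (1 / (d : ℝ) ^ 2)) Filter.atTop
      (nhds (6 / Real.pi ^ 2)) := moebius_hasSum.tendsto_sum_nat
  obtain ⟨D₂, hD₂⟩ := Metric.tendsto_atTop.1 hlim (ε / 3) (by positivity)
  set D : ℕ := max D₁ D₂ with hDdef
  obtain ⟨Y, hY1, hY⟩ := h D (le_max_left _ _)
  have hD : |∑ d ∈ Icc 1 D, mu d * (1 / (d : ℝ) ^ 2) - 6 / Real.pi ^ 2| ≤ ε / 3 := by
    have h1 := hD₂ (D + 1) ((le_max_right D₁ D₂).trans (Nat.le_succ D))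
    have e : ∑ d ∈ range (D + 1), mu d * (1 / (d : ℝ) ^ 2) = ∑ d ∈ Icc 1 D, mu d * (1 / (d : ℝ) ^ 2) := by
      rw [range_eq_Ico, ← sum_Ico_consecutive _ (Nat.zero_le 1) (by omega : 1 ≤ D + 1)]
      have : Ico 1 (D + 1) = Icc 1 D := by
        ext d
        rw [mem_Ico, mem_Icc]
        omega
      rw [this]
      simp [mu_zero]
    rw [e, Real.dist_eq] at h1
    exact h1.le
  refine ⟨Y + ⌈(D / (ε / 3 * ε)) ^ 2⌉₊, fun y H hy hH => ?_⟩
  have hy1 : 1 ≤ y := by omega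
  have hs : ε / 3 * Real.sqrt y ≤ H := by
    have := Real.sqrt_nonneg (y : ℝ)
    nlinarith
  have h1 := hY y H (by omega) hs
  have hCH : (D : ℝ) ≤ ε / 3 * H := by
    have h2 : D / (ε / 3 * ε) ≤ Real.sqrt y := by
      apply Real.le_sqrt_of_sq_le
      refine (Nat.le_ceil _).trans ?_
      exact_mod_cast (by omega : ⌈(D / (ε / 3 * ε)) ^ 2⌉₊ ≤ y)
    rw [div_le_iff₀ (by positivity)] at h2
    calc (D : ℝ) ≤ Real.sqrt y * (ε / 3 * ε) := h2
      _ = ε / 3 * (ε * Real.sqrt y) := by ring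
      _ ≤ ε / 3 * H := mul_le_mul_of_nonneg_left hH (by positivity)
  have e : ∑ i ∈ range H, ((sqf (y + i) : ℂ) - ((6 / Real.pi ^ 2 : ℝ) : ℂ)) =
      ((∑ i ∈ range H, sqf (y + i) - H * (6 / Real.pi ^ 2) : ℝ) : ℂ) := by
    rw [sum_sub_distrib, sum_const, card_range, nsmul_eq_mul]
    push_cast
    rfl
  simp only
  rw [e, Complex.norm_real, Real.norm_eq_abs]
  have e3 : ∑ i ∈ range H, SD D (y + i) = ∑ d ∈ Icc 1 D, mu d * (((range H).filter fun i => d ^ 2 ∣ y + i).card : ℝ) := by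
    unfold SD
    rw [sum_comm]
    apply sum_congr rfl
    intro d _
    rw [← sum_filter, sum_const, nsmul_eq_mul, mul_comm]
  have b1 : |∑ i ∈ range H, sqf (y + i) - ∑ i ∈ range H, SD D (y + i)| ≤ ε / 3 * H := by
    rw [← sum_sub_distrib]
    exact (abs_sum_le_sum_abs _ _).trans h1
  have b2 : |∑ i ∈ range H, SD D (y + i) - H * ∑ d ∈ Icc 1 D, mu d * (1 / (d : ℝ) ^ 2)| ≤ D := by
    rw [e3, mul_sum, ← sum_sub_distrib]
    refine (abs_sum_le_sum_abs _ _).trans ?_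
    have : ∀ d ∈ Icc 1 D, |mu d * (((range H).filter fun i => d ^ 2 ∣ y + i).card : ℝ) - H * (mu d * (1 / (d : ℝ) ^ 2))| ≤ 1 := by
      intro d hd
      have hd1 := (mem_Icc.1 hd).1
      have h4 := mult_card (d ^ 2) (Nat.one_le_pow _ _ hd1) y H hy1
      push_cast at h4
      have e4 : mu d * (((range H).filter fun i => d ^ 2 ∣ y + i).card : ℝ) - H * (mu d * (1 / (d : ℝ) ^ 2)) =
          mu d * ((((range H).filter fun i => d ^ 2 ∣ y + i).card : ℝ) - H / (d : ℝ) ^ 2) := by ring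
      rw [e4, abs_mul]
      calc |mu d| * _ ≤ 1 * 1 := mul_le_mul (abs_mu_le d) h4 (abs_nonneg _) (by norm_num)
        _ = 1 := one_mul _
    refine (sum_le_sum this).trans ?_
    rw [sum_const, Nat.card_Icc, Nat.add_sub_cancel, nsmul_eq_mul, mul_one]
  have b3 : |H * ∑ d ∈ Icc 1 D, mu d * (1 / (d : ℝ) ^ 2) - H * (6 / Real.pi ^ 2)| ≤ ε / 3 * H := by
    rw [← mul_sub, abs_mul, abs_of_nonneg (Nat.cast_nonneg H), mul_comm]
    exact mul_le_mul_of_nonneg_right hD (Nat.cast_nonneg H)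
  rw [abs_le] at b1 b2 b3 ⊢
  constructor <;> linarith [b1.1, b1.2, b2.1, b2.2, b3.1, b3.2]

end Pool.Agent.U923.CZ
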