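import Pool.Agent.U923.CZ.Crit
import Pool.Agent.U923.CZ.Poly
import Pool.Agent.U923.CZ.Sqf
import Pool.Agent.U923.CZ.Dig

/-!
Arithmetic of functions whose levels obey a local limit law with periodic factor: characters, polynomials
modulo one, squarefree values, sums of digits.
-/

set_option autoImplicit false

namespace Pool.Agent.U923.CZ

open Finset Filter Topology Polynomial
open Pool.Agent.R468.MF (gn sd win mem_win gn_pos gn_le sd_pos Law full_sum mass_out per_bound win_sum)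
open Pool.Agent.Helper602.MK (ee)
open Pool.Agent.Helper602.MK.N_J5b (ee_add ee_zero ee_conj norm_ee)

variable {N : ℝ → ℤ → ℝ} {μ v α : ℝ} {θ : ℝ → ℝ} {Ψ : ℝ → ℝ} {δ : ℝ} {A : ℝ → Finset ℕ} {g : ℕ → ℕ}

theorem Sm.zero : Sm fun _ => (0 : ℂ) := by
  intro ε hε
  refine ⟨0, fun y H _ _ => ?_⟩
  rw [sum_const_zero, norm_zero]
  positivity

theorem Sm.sum {ι : Type*} (s : Finset ι) {F : ι → ℕ → ℂ} (h : ∀ i ∈ s, Sm (F i)) : Sm fun k => ∑ i ∈ s, F i k := by
  classical
  induction s using Finset.induction_on with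
  | empty => simpa using Sm.zero
  | insert i s hi ih =>
    have h1 := (h i (mem_insert_self i s)).add (ih fun j hj => h j (mem_insert_of_mem hj))
    refine (congrArg Sm (funext fun k => ?_)).mp h1
    rw [sum_insert hi]

/-- characters off the spectrum -/
theorem char_fun (L : Law N μ v α θ Ψ δ) (hμ : 0 < μ) (hA : LevN N A g) {β : ℝ}
    (hβ : ∀ m n : ℤ, β ≠ m * α + n) : Tendsto (fun x : ℝ => (∑ n ∈ A x, ee (β * g n)) / x) atTop (𝓝 0) := by
  refine transfer_fun L hμ hA (f := fun k => ee (β * k)) (fun k => (norm_ee _).le) fun m => ?_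
  have h1 := sm_linear (β := β + m * α) (fun n hn => hβ (-m) n (by push_cast; linarith)) 1
  refine (congrArg Sm (funext fun k => ?_)).mp h1
  rw [one_mul, ← ee_add]
  congr 1
  ring

/-- polynomials modulo one -/
theorem poly_fun (L : Law N μ v α θ Ψ δ) (hμ : 0 < μ) (hδ : 0 < δ) (hA : LevN N A g) (P : ℝ[X])
    (hP : ∃ i, 2 ≤ i ∧ Irrational (P.coeff i)) {a b : ℝ} (ha : 0 ≤ a) (hab : a ≤ b) (hb : b ≤ 1) :
    Tendsto (fun x : ℝ => (vis A (fun n => P.eval (g n : ℝ)) a b x : ℝ) / x) atTop (𝓝 (δ * (b - a))) := by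
  refine crit_vis hδ (card_fun L hA) (fun m hm => ?_) ha hab hb
  have h1 := transfer_fun L hμ hA (f := fun k => ee ((C (m : ℝ) * P).eval (k : ℝ))) (fun k => (norm_ee _).le)
    (stw_poly α (C (m : ℝ) * P) (by
      obtain ⟨i, hi, hirr⟩ := hP
      refine ⟨i, hi, ?_⟩
      rw [coeff_C_mul]
      exact hirr.intCast_mul hm))
  refine h1.congr fun x => ?_
  congr 1
  apply sum_congr rfl
  intro n _
  rw [eval_mul, eval_C]

/-- multiples of a number modulo one -/
theorem lin_fun (L : Law N μ v α θ Ψ δ) (hμ : 0 < μ) (hδ : 0 < δ) (hA : LevN N A g) {β : ℝ}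
    (hβ : ∀ m k l : ℤ, m ≠ 0 → m * β ≠ k * α + l) {a b : ℝ} (ha : 0 ≤ a) (hab : a ≤ b) (hb : b ≤ 1) :
    Tendsto (fun x : ℝ => (vis A (fun n => β * g n) a b x : ℝ) / x) atTop (𝓝 (δ * (b - a))) := by
  refine crit_vis hδ (card_fun L hA) (fun m hm => ?_) ha hab hb
  refine (char_fun L hμ hA (β := m * β) (fun k l => hβ m k l hm)).congr fun x => ?_
  congr 1
  apply sum_congr rfl
  intro n _
  congr 1
  ring

theorem re_count {Q : ℕ → Prop} [DecidablePred Q] {c : ℝ}
    (h : Tendsto (fun x : ℝ => (∑ n ∈ A x, (((if Q (g n) then (1 : ℝ) else 0) : ℝ) : ℂ)) / x) atTop (𝓝 (c : ℂ))) :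
    Tendsto (fun x : ℝ => (((A x).filter fun n => Q (g n)).card : ℝ) / x) atTop (𝓝 c) := by
  have h3 := (Complex.continuous_re.tendsto _).comp h
  refine (h3.congr fun x => ?_)
  simp only [Function.comp_apply]
  have : (∑ n ∈ A x, (((if Q (g n) then (1 : ℝ) else 0) : ℝ) : ℂ)) / x =
      (((((A x).filter fun n => Q (g n)).card : ℝ) / x : ℝ) : ℂ) := by
    rw [card_filter]
    push_cast
    rfl
  rw [this, Complex.ofReal_re]

/-- squarefree values -/
theorem sqf_fun (L : Law N μ v α θ Ψ δ) (hμ : 0 < μ) (hA : LevN N A g) :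
    Tendsto (fun x : ℝ => (((A x).filter fun n => Squarefree (g n)).card : ℝ) / x) atTop (𝓝 (δ * (6 / Real.pi ^ 2))) := by
  refine re_count (Q := fun k => Squarefree k) ?_
  have h1 := mean_fun L hμ hA (f := fun k => (sqf k : ℂ)) (C := 1) (fun k => by
    rw [Complex.norm_real, Real.norm_eq_abs]
    unfold sqf
    split_ifs <;> simp) (M := ((6 / Real.pi ^ 2 : ℝ) : ℂ)) sqf_mean
    (fun m hm => sqf_tw (L.irr.intCast_mul hm))
  rw [← Complex.ofReal_mul] at h1
  refine h1.congr fun x => ?_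
  rfl

theorem ee_orth {q : ℕ} (hq : 1 ≤ q) (t : ℤ) :
    ∑ j ∈ range q, ee ((j : ℝ) * (t / q)) = if (q : ℤ) ∣ t then (q : ℂ) else 0 := by
  have hq0 : (q : ℝ) ≠ 0 := by exact_mod_cast (by omega : q ≠ 0)
  have e : ∀ j : ℕ, ee ((j : ℝ) * (t / q)) = ee ((t : ℝ) / q) ^ j := fun j => by
    rw [mul_comm]; exact ee_nat_mul' _ _
  simp only [e]
  by_cases h : (q : ℤ) ∣ t
  · rw [if_pos h]
    obtain ⟨w, rfl⟩ := h
    have h1 : ee ((((q : ℤ) * w : ℤ) : ℝ) / q) = 1 := (ee_eq_one_iff' _).2 ⟨w, by push_cast; field_simp⟩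
    rw [h1]
    simp
  · rw [if_neg h]
    have h1 : ee ((t : ℝ) / q) ≠ 1 := fun h2 => by
      obtain ⟨n, hn⟩ := (ee_eq_one_iff' _).1 h2
      apply h
      refine ⟨n, ?_⟩
      rw [div_eq_iff hq0] at hn
      have : (t : ℝ) = ((q * n : ℤ) : ℝ) := by push_cast; linarith
      exact_mod_cast this
    rw [geom_sum_eq h1]
    have h2 : ee ((t : ℝ) / q) ^ q = 1 := by
      rw [← ee_nat_mul', (ee_eq_one_iff' _)]
      exact ⟨t, by field_simp⟩
    rw [h2, sub_self, zero_div]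

/-- sums of digits in residue classes -/
theorem dig_fun (L : Law N μ v α θ Ψ δ) (hμ : 0 < μ) (hA : LevN N A g) {b q : ℕ} (hb : 2 ≤ b) (hq : 1 ≤ q)
    (hcop : Nat.Coprime q (b - 1)) (a : ℕ) :
    Tendsto (fun x : ℝ => (((A x).filter fun n => (Nat.digits b (g n)).sum % q = a % q).card : ℝ) / x) atTop
      (𝓝 (δ / q)) := by
  refine re_count (Q := fun k => (Nat.digits b k).sum % q = a % q) ?_
  have hq0 : (q : ℂ) ≠ 0 := by exact_mod_cast (by omega : q ≠ 0)
  have hqr : (q : ℝ) ≠ 0 := by exact_mod_cast (by omega : q ≠ 0)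
  -- the characters
  have hγ : ∀ j : ℕ, 1 ≤ j → j < q → ∀ n : ℤ, ((b : ℝ) - 1) * ((j : ℝ) / q) ≠ n := by
    intro j h1 h2 n hn
    have h3 : ((b : ℝ) - 1) * j = n * q := by
      rw [← mul_div_assoc, div_eq_iff hqr] at hn
      exact hn
    have h4 : (((b - 1 : ℕ) : ℤ) * j) = n * q := by
      have : (((b - 1 : ℕ) : ℝ)) = (b : ℝ) - 1 := by
        rw [Nat.cast_sub (by omega)]; simp
      rw [← this] at h3
      exact_mod_cast h3
    have h5 : (q : ℤ) ∣ ((b - 1 : ℕ) : ℤ) * j := ⟨n, by rw [h4]; ring⟩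
    have h6 : q ∣ (b - 1) * j := by exact_mod_cast h5
    have h7 : q ∣ j := hcop.dvd_of_dvd_mul_left h6
    have := Nat.le_of_dvd (by omega) h7
    omega
  have hid : ∀ k : ℕ, (((if (Nat.digits b k).sum % q = a % q then (1 : ℝ) else 0) : ℝ) : ℂ) =
      1 / q + ∑ j ∈ Ico 1 q, (1 / q * ee (-((j : ℝ) / q * a))) * ee ((j : ℝ) / q * sd' b k) := by
    intro k
    have h1 := ee_orth hq ((sd' b k : ℤ) - a)
    rw [range_eq_Ico, ← sum_Ico_consecutive _ (Nat.zero_le 1) (by omega : 1 ≤ q)] at h1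
    have h2 : ∑ i ∈ Ico (0 : ℕ) 1, ee ((i : ℝ) * ((((sd' b k : ℤ) - a : ℤ) : ℝ) / q)) = 1 := by
      rw [show Ico (0 : ℕ) 1 = {0} from rfl, sum_singleton]
      simp [ee_zero]
    rw [h2] at h1
    have h3 : ((q : ℤ) ∣ ((sd' b k : ℤ) - a)) ↔ ((Nat.digits b k).sum % q = a % q) := by
      change _ ↔ (sd' b k) % q = a % q
      rw [Int.dvd_iff_emod_eq_zero]
      constructor
      · intro h
        have : ((sd' b k : ℤ)) % q = (a : ℤ) % q := Int.emod_eq_emod_iff_emod_sub_eq_zero.2 h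
        exact_mod_cast this
      · intro h
        apply Int.emod_eq_emod_iff_emod_sub_eq_zero.1
        exact_mod_cast h
    have h4 : ∑ j ∈ Ico 1 q, (1 / q * ee (-((j : ℝ) / q * a))) * ee ((j : ℝ) / q * sd' b k) =
        1 / q * ∑ i ∈ Ico (1 : ℕ) q, ee ((i : ℝ) * ((((sd' b k : ℤ) - a : ℤ) : ℝ) / q)) := by
      rw [mul_sum]
      apply sum_congr rfl
      intro j _
      rw [mul_assoc, ← ee_add]
      congr 2
      push_cast
      ring
    rw [h4]
    by_cases h : (Nat.digits b k).sum % q = a % q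
    · rw [if_pos h]
      rw [if_pos (h3.2 h)] at h1
      have h5 : ∑ i ∈ Ico (1 : ℕ) q, ee ((i : ℝ) * ((((sd' b k : ℤ) - a : ℤ) : ℝ) / q)) = q - 1 := by
        linear_combination h1
      rw [h5]
      push_cast
      field_simp
      ring
    · rw [if_neg h]
      rw [if_neg (fun h' => h (h3.1 h'))] at h1
      have h5 : ∑ i ∈ Ico (1 : ℕ) q, ee ((i : ℝ) * ((((sd' b k : ℤ) - a : ℤ) : ℝ) / q)) = -1 := by
        linear_combination h1
      rw [h5]
      push_cast
      ring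
  have hterm : ∀ (c : ℂ) (β : ℝ), ∀ j ∈ Ico 1 q, Sm fun k => (1 / q * ee (-((j : ℝ) / q * a)) * c) *
      (ee ((j : ℝ) / q * sd' b k) * ee (β * k)) := by
    intro c β j hj
    obtain ⟨h1, h2⟩ := mem_Ico.1 hj
    exact (sm_digits hb (hγ j h1 h2) β).const_mul _
  have h1 := mean_fun L hμ hA (f := fun k => (((if (Nat.digits b k).sum % q = a % q then (1 : ℝ) else 0) : ℝ) : ℂ))
    (C := 1) (fun k => by
      rw [Complex.norm_real, Real.norm_eq_abs]
      split_ifs <;> simp) (M := ((1 / q : ℝ) : ℂ))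
    (by
      have h2 := Sm.sum (Ico 1 q) (hterm 1 0)
      refine (congrArg Sm (funext fun k => ?_)).mp h2
      rw [hid k]
      push_cast
      rw [add_sub_cancel_left]
      apply sum_congr rfl
      intro j _
      rw [zero_mul, ee_zero]
      push_cast
      ring)
    (fun m hm => by
      have h2 := Sm.sum (Ico 1 q) (hterm 1 (m * α))
      have h3 : Sm fun k : ℕ => (1 / q : ℂ) * ee (m * α * k) :=
        sm_linear (fun n hn => (L.irr.intCast_mul hm).ne_int n hn) _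
      refine (congrArg Sm (funext fun k => ?_)).mp (h3.add h2)
      rw [hid k, add_mul, sum_mul]
      congr 1
      apply sum_congr rfl
      intro j _
      ring)
  rw [← Complex.ofReal_mul, mul_one_div] at h1
  exact h1

end Pool.Agent.U923.CZ
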