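import Pool.Agent.U923.CZ.Fun2
import Pool.Agent.U923.CZ.All
import Pool.Agent.U923.CZ.Hit

/-!
Arithmetic of functions whose levels obey a local limit law with periodic factor, uniformly for the
elements with `g n ≤ κ`.
-/

set_option autoImplicit false

namespace Pool.Agent.U923.CZ

open Finset Filter Topology Polynomial
open Pool.Agent.R468.MF (gn sd win mem_win gn_pos gn_le sd_pos Law full_sum mass_out per_bound win_sum NA NA_neg)
open Pool.Agent.R468.GL (Par Lv)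
open Pool.Agent.Helper602.MK (ee)
open Pool.Agent.Helper602.MK.N_J5b (ee_add ee_zero ee_conj norm_ee)

variable {N : ℝ → ℤ → ℝ} {μ v α : ℝ} {θ : ℝ → ℝ} {Ψ : ℝ → ℝ} {δ : ℝ} {A : ℝ → Finset ℕ} {g : ℕ → ℕ} {c : ℝ}

/-- characters off the spectrum -/
theorem char_cut (L : Law N μ v α θ Ψ δ) (hμ : 0 < μ) (hc : 0 < c) (hA : LevC c N A g) {β : ℝ}
    (hβ : ∀ m n : ℤ, β ≠ m * α + n) : ∀ ε : ℝ, 0 < ε → ∃ X₀ : ℝ, 2 ≤ X₀ ∧ ∀ x : ℝ, X₀ ≤ x → ∀ κ : ℕ,
      ‖∑ n ∈ (A x).filter (fun n => g n ≤ κ), ee (β * g n)‖ ≤ ε * x := by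
  refine tr0 L hμ hc hA (f := fun k => ee (β * k)) (C := 1) (fun k => (norm_ee _).le) fun m => ?_
  have h1 := sm_linear (β := β + m * α) (fun n hn => hβ (-m) n (by push_cast; linarith)) 1
  refine (congrArg Sm (funext fun k => ?_)).mp h1
  rw [one_mul, ← ee_add]
  congr 1
  ring

/-- the polynomials -/
def GoodP (α : ℝ) (P : ℝ[X]) : Prop :=
  (∃ i, 2 ≤ i ∧ Irrational (P.coeff i)) ∨ ∀ r s : ℚ, P.coeff 1 ≠ r + s * α

theorem stw_good {α : ℝ} {P : ℝ[X]} (h : GoodP α P) {m : ℤ} (hm : m ≠ 0) : STw α fun k => ee (m * P.eval (k : ℝ)) := by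
  intro m'
  have hm' : (m : ℝ) ≠ 0 := by exact_mod_cast hm
  have hirr : ∃ i, 1 ≤ i ∧ Irrational ((C (m : ℝ) * P + C ((m' : ℝ) * α) * X).coeff i) := by
    rcases h with ⟨i, hi, hirr⟩ | h
    · refine ⟨i, by omega, ?_⟩
      rw [coeff_add, coeff_C_mul, coeff_C_mul, coeff_X, if_neg (by omega), mul_zero, add_zero]
      exact hirr.intCast_mul hm
    · refine ⟨1, le_rfl, ?_⟩
      rw [coeff_add, coeff_C_mul, coeff_C_mul, coeff_X, if_pos rfl, mul_one]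
      rintro ⟨q, hq⟩
      apply h (q / m) (-(m' / m))
      push_cast
      field_simp
      linarith
  have h1 := sm_poly _ hirr
  refine (congrArg Sm (funext fun k => ?_)).mp h1
  rw [eval_add, eval_mul, eval_mul, eval_C, eval_C, eval_X, ee_add]

/-- polynomials modulo one -/
theorem poly_cut (L : Law N μ v α θ Ψ δ) (hμ : 0 < μ) (hc : 0 < c) (hA : LevC c N A g)
    (hcard : ∀ x : ℝ, 0 < x → ((A x).card : ℝ) ≤ x) {P : ℝ[X]}
    (hP : GoodP α P) {a b : ℝ} (ha : 0 ≤ a) (hab : a ≤ b) (hb : b ≤ 1) :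
    ∀ ε : ℝ, 0 < ε → ∃ X₀ : ℝ, ∀ x : ℝ, X₀ ≤ x → ∀ κ : ℕ,
      |((((A x).filter (fun n => g n ≤ κ)).filter fun n => a ≤ Int.fract (P.eval (g n : ℝ)) ∧
        Int.fract (P.eval (g n : ℝ)) < b).card : ℝ) - (b - a) * ((A x).filter (fun n => g n ≤ κ)).card| ≤ ε * x := by
  intro ε hε
  have h1 := cr_vs (ι := ℕ) (B := fun κ x => (A x).filter (fun n => g n ≤ κ)) (u := fun n => P.eval (g n : ℝ))
    (fun κ x hx => by
      refine le_trans ?_ (hcard x hx)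
      exact_mod_cast card_filter_le _ _)
    (fun m hm ε hε => by
      obtain ⟨X₀, _, hX⟩ := tr0 L hμ hc hA (f := fun k => ee (m * P.eval (k : ℝ))) (C := 1) (fun k => (norm_ee _).le)
        (stw_good hP hm) ε hε
      exact ⟨X₀, fun x hx κ => hX x hx κ⟩) ha hab hb ε hε
  obtain ⟨X₀, hX⟩ := h1
  exact ⟨X₀, fun x hx κ => hX x hx κ⟩

theorem cut_count {Q : ℕ → Prop} [DecidablePred Q] {M : ℝ}
    (h : ∀ ε : ℝ, 0 < ε → ∃ X₀ : ℝ, 2 ≤ X₀ ∧ ∀ x : ℝ, X₀ ≤ x → ∀ κ : ℕ,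
      ‖∑ n ∈ (A x).filter (fun n => g n ≤ κ), ((((if Q (g n) then (1 : ℝ) else 0) : ℝ) : ℂ) - (M : ℂ))‖ ≤ ε * x) :
    ∀ ε : ℝ, 0 < ε → ∃ X₀ : ℝ, ∀ x : ℝ, X₀ ≤ x → ∀ κ : ℕ,
      |((((A x).filter (fun n => g n ≤ κ)).filter fun n => Q (g n)).card : ℝ) -
        M * ((A x).filter (fun n => g n ≤ κ)).card| ≤ ε * x := by
  intro ε hε
  obtain ⟨X₀, _, hX⟩ := h ε hε
  refine ⟨X₀, fun x hx κ => ?_⟩
  refine le_trans (le_of_eq ?_) (hX x hx κ)
  have : ∑ n ∈ (A x).filter (fun n => g n ≤ κ), ((((if Q (g n) then (1 : ℝ) else 0) : ℝ) : ℂ) - (M : ℂ)) =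
      ((((((A x).filter (fun n => g n ≤ κ)).filter fun n => Q (g n)).card : ℝ) -
        M * ((A x).filter (fun n => g n ≤ κ)).card : ℝ) : ℂ) := by
    rw [sum_sub_distrib, sum_const, nsmul_eq_mul, card_filter (fun n => Q (g n))]
    push_cast
    ring
  rw [this, Complex.norm_real, Real.norm_eq_abs]

/-- squarefree values -/
theorem sqf_cut (L : Law N μ v α θ Ψ δ) (hμ : 0 < μ) (hc : 0 < c) (hA : LevC c N A g) :
    ∀ ε : ℝ, 0 < ε → ∃ X₀ : ℝ, ∀ x : ℝ, X₀ ≤ x → ∀ κ : ℕ,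
      |((((A x).filter (fun n => g n ≤ κ)).filter fun n => Squarefree (g n)).card : ℝ) -
        6 / Real.pi ^ 2 * ((A x).filter (fun n => g n ≤ κ)).card| ≤ ε * x := by
  refine cut_count (Q := fun k => Squarefree k) ?_
  exact tr1 L hμ hc hA (f := fun k => (sqf k : ℂ)) (C := 1) (fun k => by
    rw [Complex.norm_real, Real.norm_eq_abs]
    unfold sqf
    split_ifs <;> simp) (M := ((6 / Real.pi ^ 2 : ℝ) : ℂ)) sqf_mean
    (fun m hm => sqf_tw (L.irr.intCast_mul hm))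

/-- sums of digits: small sums of the centered indicator functions -/
theorem dig_sm (α : ℝ) (hα : Irrational α) {b q : ℕ} (hb : 2 ≤ b) (hq : 1 ≤ q)
    (hcop : Nat.Coprime q (b - 1)) (a : ℕ) :
    (Sm fun k => (((if (Nat.digits b k).sum % q = a % q then (1 : ℝ) else 0) : ℝ) : ℂ) - ((1 / q : ℝ) : ℂ)) ∧
    ∀ m : ℤ, m ≠ 0 → Sm fun k => (((if (Nat.digits b k).sum % q = a % q then (1 : ℝ) else 0) : ℝ) : ℂ) * ee (m * α * k) := by
  have hq0 : (q : ℂ) ≠ 0 := by exact_mod_cast (by omega : q ≠ 0)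
  have hqr : (q : ℝ) ≠ 0 := by exact_mod_cast (by omega : q ≠ 0)
  have hγ : ∀ j : ℕ, 1 ≤ j → j < q → ∀ n : ℤ, ((b : ℝ) - 1) * ((j : ℝ) / q) ≠ n := by
    intro j h1 h2 n hn
    have h3 : ((b : ℝ) - 1) * j = n * q := by
      rw [← mul_div_assoc, div_eq_iff hqr] at hn
      exact hn
    have h4 : (((b - 1 : ℕ) : ℤ) * j) = n * q := by
      have : (((b - 1 : ℕ) : ℝ)) = (b : ℝ) - 1 := by
        rw [Nat.cast_sub (by omega)]; simp
      rw [← this] at h3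
      exact_mod_cast h3
    have h5 : (q : ℤ) ∣ ((b - 1 : ℕ) : ℤ) * j := ⟨n, by rw [h4]; ring⟩
    have h6 : q ∣ (b - 1) * j := by exact_mod_cast h5
    have h7 : q ∣ j := hcop.dvd_of_dvd_mul_left h6
    have := Nat.le_of_dvd (by omega) h7
    omega
  have hid : ∀ k : ℕ, (((if (Nat.digits b k).sum % q = a % q then (1 : ℝ) else 0) : ℝ) : ℂ) =
      1 / q + ∑ j ∈ Ico 1 q, (1 / q * ee (-((j : ℝ) / q * a))) * ee ((j : ℝ) / q * sd' b k) := by
    intro k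
    have h1 := ee_orth hq ((sd' b k : ℤ) - a)
    rw [range_eq_Ico, ← sum_Ico_consecutive _ (Nat.zero_le 1) (by omega : 1 ≤ q)] at h1
    have h2 : ∑ i ∈ Ico (0 : ℕ) 1, ee ((i : ℝ) * ((((sd' b k : ℤ) - a : ℤ) : ℝ) / q)) = 1 := by
      rw [show Ico (0 : ℕ) 1 = {0} from rfl, sum_singleton]
      simp [ee_zero]
    rw [h2] at h1
    have h3 : ((q : ℤ) ∣ ((sd' b k : ℤ) - a)) ↔ ((Nat.digits b k).sum % q = a % q) := by
      change _ ↔ (sd' b k) % q = a % q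
      rw [Int.dvd_iff_emod_eq_zero]
      constructor
      · intro h
        have : ((sd' b k : ℤ)) % q = (a : ℤ) % q := Int.emod_eq_emod_iff_emod_sub_eq_zero.2 h
        exact_mod_cast this
      · intro h
        apply Int.emod_eq_emod_iff_emod_sub_eq_zero.1
        exact_mod_cast h
    have h4 : ∑ j ∈ Ico 1 q, (1 / q * ee (-((j : ℝ) / q * a))) * ee ((j : ℝ) / q * sd' b k) =
        1 / q * ∑ i ∈ Ico (1 : ℕ) q, ee ((i : ℝ) * ((((sd' b k : ℤ) - a : ℤ) : ℝ) / q)) := by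
      rw [mul_sum]
      apply sum_congr rfl
      intro j _
      rw [mul_assoc, ← ee_add]
      congr 2
      push_cast
      ring
    rw [h4]
    by_cases h : (Nat.digits b k).sum % q = a % q
    · rw [if_pos h]
      rw [if_pos (h3.2 h)] at h1
      have h5 : ∑ i ∈ Ico (1 : ℕ) q, ee ((i : ℝ) * ((((sd' b k : ℤ) - a : ℤ) : ℝ) / q)) = q - 1 := by
        linear_combination h1
      rw [h5]
      push_cast
      field_simp
      ring
    · rw [if_neg h]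
      rw [if_neg (fun h' => h (h3.1 h'))] at h1
      have h5 : ∑ i ∈ Ico (1 : ℕ) q, ee ((i : ℝ) * ((((sd' b k : ℤ) - a : ℤ) : ℝ) / q)) = -1 := by
        linear_combination h1
      rw [h5]
      push_cast
      ring
  have hterm : ∀ β : ℝ, ∀ j ∈ Ico 1 q, Sm fun k => (1 / q * ee (-((j : ℝ) / q * a)) * 1) *
      (ee ((j : ℝ) / q * sd' b k) * ee (β * k)) := by
    intro β j hj
    obtain ⟨h1, h2⟩ := mem_Ico.1 hj
    exact (sm_digits hb (hγ j h1 h2) β).const_mul _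
  refine ⟨?_, fun m hm => ?_⟩
  · have h2 := Sm.sum (Ico 1 q) (hterm 0)
    refine (congrArg Sm (funext fun k => ?_)).mp h2
    rw [hid k]
    push_cast
    rw [add_sub_cancel_left]
    apply sum_congr rfl
    intro j _
    rw [zero_mul, ee_zero]
    ring
  · have h2 := Sm.sum (Ico 1 q) (hterm (m * α))
    have h3 : Sm fun k : ℕ => (1 / q : ℂ) * ee (m * α * k) :=
      sm_linear (fun n hn => (hα.intCast_mul hm).ne_int n hn) _
    refine (congrArg Sm (funext fun k => ?_)).mp (h3.add h2)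
    rw [hid k, add_mul, sum_mul]
    congr 1
    apply sum_congr rfl
    intro j _
    ring

/-- sums of digits in residue classes -/
theorem dig_cut (L : Law N μ v α θ Ψ δ) (hμ : 0 < μ) (hc : 0 < c) (hA : LevC c N A g) {b q : ℕ} (hb : 2 ≤ b) (hq : 1 ≤ q)
    (hcop : Nat.Coprime q (b - 1)) (a : ℕ) :
    ∀ ε : ℝ, 0 < ε → ∃ X₀ : ℝ, ∀ x : ℝ, X₀ ≤ x → ∀ κ : ℕ,
      |((((A x).filter (fun n => g n ≤ κ)).filter fun n => (Nat.digits b (g n)).sum % q = a % q).card : ℝ) -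
        1 / q * ((A x).filter (fun n => g n ≤ κ)).card| ≤ ε * x := by
  obtain ⟨h1, h2⟩ := dig_sm α L.irr hb hq hcop a
  refine cut_count (Q := fun k => (Nat.digits b k).sum % q = a % q) (M := 1 / q) ?_
  exact tr1 L hμ hc hA (f := fun k => (((if (Nat.digits b k).sum % q = a % q then (1 : ℝ) else 0) : ℝ) : ℂ))
    (C := 1) (fun k => by
      rw [Complex.norm_real, Real.norm_eq_abs]
      split_ifs <;> simp) (M := ((1 / q : ℝ) : ℂ)) h1 h2

/-! ### the passage to counts of sets -/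

theorem hset_card (F : ℕ → ℕ) (x : ℝ) (hx : 0 < x) : ((hset F x).card : ℝ) ≤ x := by
  classical
  unfold hset
  calc ((((Icc 1 ⌊x⌋₊).filter fun n => ∃ t : ℕ, F^[t] n = 1).card : ℕ) : ℝ) ≤ ((Icc 1 ⌊x⌋₊).card : ℕ) := by
        exact_mod_cast card_filter_le _ _
    _ = (⌊x⌋₊ : ℝ) := by rw [Nat.card_Icc, Nat.add_sub_cancel]
    _ ≤ x := Nat.floor_le hx.le

theorem cut_ncard (F : ℕ → ℕ) (x : ℝ) (κ : ℕ) (Q : ℕ → Prop) [DecidablePred Q] :
    {n : ℕ | 1 ≤ n ∧ (n : ℝ) ≤ x ∧ (∃ t : ℕ, F^[t] n = 1) ∧ hit F n ≤ κ ∧ Q n}.ncard =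
      (((hset F x).filter (fun n => hit F n ≤ κ)).filter Q).card := by
  rw [← Set.ncard_coe_finset]
  congr 1
  ext n
  rw [mem_coe, mem_filter, mem_filter, mem_hset, Set.mem_ofPred_eq]
  tauto

theorem cut_ncard' (F : ℕ → ℕ) (x : ℝ) (κ : ℕ) :
    {n : ℕ | 1 ≤ n ∧ (n : ℝ) ≤ x ∧ (∃ t : ℕ, F^[t] n = 1) ∧ hit F n ≤ κ}.ncard =
      ((hset F x).filter (fun n => hit F n ≤ κ)).card := by
  rw [← Set.ncard_coe_finset]
  congr 1
  ext n
  rw [mem_coe, mem_filter, mem_hset, Set.mem_ofPred_eq]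
  tauto

end Pool.Agent.U923.CZ
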