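import Pool.Agent.U923.CZ.Win

/-!
Gaussian averages of functions with small sums over windows.
-/

set_option autoImplicit false

namespace Pool.Agent.U923.CZ

open Finset
open Pool.Agent.R468.MF (gn sd win mem_win gn_pos gn_le sd_pos)

theorem exp_neg_sub_le {a b : ℝ} (ha : 0 ≤ a) (hb : 0 ≤ b) : |Real.exp (-a) - Real.exp (-b)| ≤ |a - b| := by
  have key : ∀ {a b : ℝ}, 0 ≤ a → a ≤ b → Real.exp (-a) - Real.exp (-b) ≤ b - a := by
    intro a b ha hab
    have h1 : Real.exp (-b) = Real.exp (-a) * Real.exp (-(b - a)) := by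
      rw [← Real.exp_add]; congr 1; ring
    have h2 := Real.add_one_le_exp (-(b - a))
    have h3 : Real.exp (-a) ≤ 1 := Real.exp_le_one_iff.2 (by linarith)
    have h4 := Real.exp_pos (-a)
    rw [h1]
    nlinarith
  rcases le_total a b with h | h
  · have h1 := key ha h
    have h2 : Real.exp (-b) ≤ Real.exp (-a) := Real.exp_le_exp.2 (by linarith)
    rw [abs_of_nonneg (by linarith), abs_of_nonpos (by linarith)]
    linarith
  · have h1 := key hb h
    have h2 : Real.exp (-a) ≤ Real.exp (-b) := Real.exp_le_exp.2 (by linarith)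
    rw [abs_of_nonpos (by linarith), abs_of_nonneg (by linarith)]
    linarith

/-- one shift -/
theorem shift_one {G : ℕ → ℝ} {F : ℕ → ℂ} {g D B : ℝ} (hB : 0 ≤ B) (hF : ∀ k, ‖F k‖ ≤ B) (M : ℕ)
    (hG0 : ∀ t ≤ M, 0 ≤ G t) (hG : ∀ t ≤ M, G t ≤ g) (hD : ∀ t < M, |G (t + 1) - G t| ≤ D) (s : ℕ) :
    ‖∑ t ∈ range M, (G t : ℂ) * F (t + (s + 1)) - ∑ t ∈ range M, (G t : ℂ) * F (t + s)‖ ≤ B * (2 * g + M * D) := by
  have e1 : ∑ t ∈ range M, (G t : ℂ) * F (t + (s + 1)) - ∑ t ∈ range M, (G t : ℂ) * F (t + s) =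
      (G M : ℂ) * F (M + s) - (G 0 : ℂ) * F (0 + s) -
        ∑ t ∈ range M, ((G (t + 1) : ℂ) - G t) * F (t + 1 + s) := by
    have h := Finset.sum_range_sub (fun t => (G t : ℂ) * F (t + s)) M
    rw [← h, ← sum_sub_distrib, ← sum_sub_distrib]
    apply sum_congr rfl
    intro t _
    have : t + (s + 1) = t + 1 + s := by ring
    rw [this]
    ring
  rw [e1]
  have h1 : ‖∑ t ∈ range M, ((G (t + 1) : ℂ) - G t) * F (t + 1 + s)‖ ≤ B * (M * D) := by
    refine (norm_sum_le _ _).trans ?_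
    have : ∀ t ∈ range M, ‖((G (t + 1) : ℂ) - G t) * F (t + 1 + s)‖ ≤ B * D := by
      intro t ht
      rw [norm_mul, ← Complex.ofReal_sub, Complex.norm_real, Real.norm_eq_abs, mul_comm B D]
      exact mul_le_mul (hD t (mem_range.1 ht)) (hF _) (norm_nonneg _) ((abs_nonneg _).trans (hD t (mem_range.1 ht)))
    refine (sum_le_sum this).trans ?_
    rw [sum_const, card_range, nsmul_eq_mul]
    linarith
  have h2 : ‖(G M : ℂ) * F (M + s)‖ ≤ B * g := by
    rw [norm_mul, Complex.norm_real, Real.norm_eq_abs, abs_of_nonneg (hG0 M le_rfl), mul_comm B g]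
    exact mul_le_mul (hG M le_rfl) (hF _) (norm_nonneg _) ((hG0 M le_rfl).trans (hG M le_rfl))
  have h3 : ‖(G 0 : ℂ) * F (0 + s)‖ ≤ B * g := by
    rw [norm_mul, Complex.norm_real, Real.norm_eq_abs, abs_of_nonneg (hG0 0 (Nat.zero_le _)), mul_comm B g]
    exact mul_le_mul (hG 0 (Nat.zero_le _)) (hF _) (norm_nonneg _) ((hG0 0 (Nat.zero_le _)).trans (hG 0 (Nat.zero_le _)))
  refine (norm_sub_le _ _).trans ?_
  have h4 := norm_sub_le ((G M : ℂ) * F (M + s)) ((G 0 : ℂ) * F (0 + s))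
  linarith

/-- averaging over the shifts -/
theorem shift_avg {G : ℕ → ℝ} {F : ℕ → ℂ} {g D B η : ℝ} (hB : 0 ≤ B) (hF : ∀ k, ‖F k‖ ≤ B) (M H : ℕ) (hH : 1 ≤ H)
    (hg : 0 ≤ g) (hDn : 0 ≤ D)
    (hG0 : ∀ t ≤ M, 0 ≤ G t) (hG : ∀ t ≤ M, G t ≤ g) (hD : ∀ t < M, |G (t + 1) - G t| ≤ D)
    (hs : ∀ t < M, ‖∑ i ∈ range H, F (t + i)‖ ≤ η * H) :
    ‖∑ t ∈ range M, (G t : ℂ) * F t‖ ≤ η * ∑ t ∈ range M, G t + H * (B * (2 * g + M * D)) := by
  set E : ℝ := B * (2 * g + M * D) with hE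
  have hE0 : 0 ≤ E := by positivity
  have hHR : (1 : ℝ) ≤ H := by exact_mod_cast hH
  set S : ℕ → ℂ := fun s => ∑ t ∈ range M, (G t : ℂ) * F (t + s) with hS
  have h1 : ∀ s, ‖S s - S 0‖ ≤ s * E := by
    intro s
    induction s with
    | zero => simp
    | succ s ih =>
      have h2 := shift_one hB hF M hG0 hG hD s
      have e : S (s + 1) - S 0 = (S (s + 1) - S s) + (S s - S 0) := by ring
      rw [e]
      refine (norm_add_le _ _).trans ?_
      have h3 : ‖S (s + 1) - S s‖ ≤ E := h2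
      push_cast
      linarith
  have h2 : (H : ℂ) * S 0 = ∑ s ∈ range H, S s - ∑ s ∈ range H, (S s - S 0) := by
    rw [sum_sub_distrib, sum_const, card_range, nsmul_eq_mul]
    ring
  have h3 : ‖∑ s ∈ range H, (S s - S 0)‖ ≤ H * (H * E) := by
    refine (norm_sum_le _ _).trans ?_
    have : ∀ s ∈ range H, ‖S s - S 0‖ ≤ H * E := by
      intro s hs
      refine (h1 s).trans (mul_le_mul_of_nonneg_right ?_ hE0)
      exact_mod_cast (mem_range.1 hs).le
    refine (sum_le_sum this).trans ?_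
    rw [sum_const, card_range, nsmul_eq_mul]
  have h4 : ‖∑ s ∈ range H, S s‖ ≤ H * (η * ∑ t ∈ range M, G t) := by
    rw [hS]
    simp only
    rw [sum_comm]
    refine (norm_sum_le _ _).trans ?_
    have : ∀ t ∈ range M, ‖∑ s ∈ range H, (G t : ℂ) * F (t + s)‖ ≤ H * (η * G t) := by
      intro t ht
      rw [← mul_sum, norm_mul, Complex.norm_real, Real.norm_eq_abs, abs_of_nonneg (hG0 t (mem_range.1 ht).le)]
      calc G t * ‖∑ i ∈ range H, F (t + i)‖ ≤ G t * (η * H) :=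
            mul_le_mul_of_nonneg_left (hs t (mem_range.1 ht)) (hG0 t (mem_range.1 ht).le)
        _ = _ := by ring
    refine (sum_le_sum this).trans ?_
    rw [← mul_sum, ← mul_sum]
  have h5 : (H : ℝ) * ‖S 0‖ ≤ H * (η * ∑ t ∈ range M, G t + H * E) := by
    have e : (H : ℝ) * ‖S 0‖ = ‖(H : ℂ) * S 0‖ := by
      rw [norm_mul, Complex.norm_natCast]
    rw [e, h2]
    refine (norm_sub_le _ _).trans ?_
    rw [mul_add]
    exact add_le_add h4 h3
  have h6 := le_of_mul_le_mul_left h5 (by linarith)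
  have e0 : S 0 = ∑ t ∈ range M, (G t : ℂ) * F t := by
    rw [hS]; simp
  rw [← e0]
  exact h6

/-- consecutive values of the Gaussian density -/
theorem gn_step {μ v x R : ℝ} (hv : 0 < v) (hx : 0 < Real.log x) {j : ℤ}
    (hj : |(j : ℝ) - μ * Real.log x| ≤ R) :
    |gn μ v x (j + 1) - gn μ v x j| ≤ (2 * R + 1) / (2 * (v * Real.log x)) / sd v x := by
  have hs := sd_pos hv hx
  have hvx : 0 < v * Real.log x := by positivity
  unfold gn
  rw [← sub_div, abs_div, abs_of_pos hs]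
  apply div_le_div_of_nonneg_right _ hs.le
  refine (exp_neg_sub_le (by positivity) (by positivity)).trans ?_
  rw [← sub_div, abs_div, abs_of_pos (show (0 : ℝ) < 2 * (v * Real.log x) by positivity)]
  apply div_le_div_of_nonneg_right _ (by positivity)
  have e : (((j + 1 : ℤ) : ℝ) - μ * Real.log x) ^ 2 - ((j : ℝ) - μ * Real.log x) ^ 2 =
      2 * ((j : ℝ) - μ * Real.log x) + 1 := by push_cast; ring
  rw [e]
  refine (abs_add_le _ _).trans ?_
  rw [abs_mul, abs_of_pos (show (0 : ℝ) < 2 by norm_num), abs_one]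
  linarith

/-- the sum over a window as a sum over an interval of natural numbers -/
theorem win_range {μ K x : ℝ} (F : ℤ → ℂ) (h : 0 ≤ μ * Real.log x - K * Real.sqrt (Real.log x)) :
    ∃ A M : ℕ, (∀ j : ℤ, j ∈ win μ K x ↔ ∃ t : ℕ, t < M ∧ j = ((A + t : ℕ) : ℤ)) ∧
      ∑ j ∈ win μ K x, F j = ∑ t ∈ range M, F ((A + t : ℕ) : ℤ) := by
  set a : ℤ := ⌈μ * Real.log x - K * Real.sqrt (Real.log x)⌉ with ha
  set b : ℤ := ⌊μ * Real.log x + K * Real.sqrt (Real.log x)⌋ with hb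
  have ha0 : 0 ≤ a := Int.ceil_nonneg h
  refine ⟨a.toNat, (b + 1 - a).toNat, ?_, ?_⟩
  · intro j
    unfold win
    rw [← ha, ← hb, Finset.mem_Icc]
    constructor
    · rintro ⟨h1, h2⟩
      refine ⟨(j - a).toNat, by omega, by omega⟩
    · rintro ⟨t, h1, h2⟩
      omega
  · unfold win
    rw [← ha, ← hb]
    symm
    refine sum_bij (fun t _ => ((a.toNat + t : ℕ) : ℤ)) ?_ ?_ ?_ ?_
    · intro t ht
      rw [mem_range] at ht
      rw [Finset.mem_Icc]
      omega
    · intro t _ t' _ h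
      omega
    · intro j hj
      rw [Finset.mem_Icc] at hj
      exact ⟨(j - a).toNat, by rw [mem_range]; omega, by omega⟩
    · intro t _
      rfl

end Pool.Agent.U923.CZ
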