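import Pool.Agent.U923.CZ.Fun2

/-!
The converse of the transfer principle: small truncated sums of `F (g n)` imply small sums of `F` over the
intervals `[y, y + H)`, `H ≥ ε √y`.
-/

set_option autoImplicit false

namespace Pool.Agent.U923.CZ

open Finset Filter Topology
open Pool.Agent.R468.MF (gn sd win mem_win gn_pos gn_le sd_pos Law per_bound)

/-- Riemann sums of a continuous periodic function -/
theorem riemann {Ψ : ℝ → ℝ} {δ : ℝ} (hc : Continuous Ψ) (hp : ∀ t, Ψ (t + 1) = Ψ t)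
    (hint : ∫ t in (0 : ℝ)..1, Ψ t = δ) : ∀ η : ℝ, 0 < η → ∃ R : ℕ, 1 ≤ R ∧ ∀ s : ℝ,
      |∑ i ∈ range R, Ψ (s + i / R) - R * δ| ≤ η * R := by
  intro η hη
  have hper : Function.Periodic Ψ 1 := hp
  have huc := (isCompact_Icc (a := (0 : ℝ)) (b := 2)).uniformContinuousOn_of_continuous hc.continuousOn
  rw [Metric.uniformContinuousOn_iff] at huc
  obtain ⟨d, hd, h⟩ := huc η hη
  obtain ⟨R, hR⟩ := exists_nat_gt (1 / d)
  have hR0 : (0 : ℝ) < R := lt_trans (by positivity) hR
  have hR1 : 1 ≤ R := by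
    have : 0 < R := by exact_mod_cast hR0
    omega
  refine ⟨R, hR1, fun s => ?_⟩
  -- reduction to `[0, 1)`
  have key : ∀ s : ℝ, 0 ≤ s → s < 1 → |∑ i ∈ range R, Ψ (s + i / R) - R * δ| ≤ η * R := by
    intro s hs0 hs1
    have h1 : ∑ i ∈ range R, ∫ t in (s + (i : ℕ) / R)..(s + ((i + 1 : ℕ) : ℝ) / R), Ψ t = δ := by
      have h2 := intervalIntegral.sum_integral_adjacent_intervals (f := Ψ) (μ := MeasureTheory.volume)
        (a := fun i : ℕ => s + (i : ℝ) / R) (n := R) (fun k _ => hc.intervalIntegrable _ _)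
      rw [h2]
      have e1 : s + ((0 : ℕ) : ℝ) / R = s := by simp
      have e2 : s + ((R : ℕ) : ℝ) / R = s + 1 := by rw [div_self hR0.ne']
      rw [e1, e2, hper.intervalIntegral_add_eq s 0, zero_add]
      exact hint
    have h3 : ∑ i ∈ range R, Ψ (s + i / R) - R * δ = ∑ i ∈ range R, (Ψ (s + i / R) -
        R * ∫ t in (s + (i : ℕ) / R)..(s + ((i + 1 : ℕ) : ℝ) / R), Ψ t) := by
      rw [sum_sub_distrib, ← mul_sum, h1]
    rw [h3]
    refine (abs_sum_le_sum_abs _ _).trans ?_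
    have h4 : ∀ i ∈ range R, |Ψ (s + i / R) - R * ∫ t in (s + (i : ℕ) / R)..(s + ((i + 1 : ℕ) : ℝ) / R), Ψ t| ≤ η := by
      intro i hi
      have hiR := mem_range.1 hi
      have hle : s + (i : ℝ) / R ≤ s + ((i + 1 : ℕ) : ℝ) / R := by
        push_cast
        gcongr
        linarith
      have hlen : s + ((i + 1 : ℕ) : ℝ) / R - (s + (i : ℝ) / R) = 1 / R := by
        push_cast; ring
      have h5 : Ψ (s + i / R) - R * ∫ t in (s + (i : ℕ) / R)..(s + ((i + 1 : ℕ) : ℝ) / R), Ψ t =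
          R * ∫ t in (s + (i : ℕ) / R)..(s + ((i + 1 : ℕ) : ℝ) / R), (Ψ (s + i / R) - Ψ t) := by
        rw [intervalIntegral.integral_sub (by simp) (hc.intervalIntegrable _ _), intervalIntegral.integral_const,
          hlen, smul_eq_mul]
        field_simp
      rw [h5, abs_mul, abs_of_pos hR0]
      have h6 : |∫ t in (s + (i : ℕ) / R)..(s + ((i + 1 : ℕ) : ℝ) / R), (Ψ (s + i / R) - Ψ t)| ≤ η * (1 / R) := by
        rw [← hlen]
        have h7 := intervalIntegral.norm_integral_le_of_norm_le_const (a := s + (i : ℝ) / R)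
          (b := s + ((i + 1 : ℕ) : ℝ) / R) (f := fun t => Ψ (s + i / R) - Ψ t) (C := η) (fun t ht => ?_)
        · rw [Real.norm_eq_abs, abs_of_nonneg (by linarith : (0 : ℝ) ≤ s + ((i + 1 : ℕ) : ℝ) / R - (s + (i : ℝ) / R))] at h7
          exact h7
        · rw [Set.uIoc_of_le hle] at ht
          have hiR' : ((i + 1 : ℕ) : ℝ) ≤ R := by exact_mod_cast hiR
          have b1 : (0 : ℝ) ≤ s + (i : ℝ) / R := by positivity
          have b2 : s + ((i + 1 : ℕ) : ℝ) / R ≤ 2 := by
            have : ((i + 1 : ℕ) : ℝ) / R ≤ 1 := (div_le_one hR0).2 hiR'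
            linarith
          have h8 := h (s + i / R) ⟨b1, hle.trans b2⟩ t ⟨b1.trans ht.1.le, ht.2.trans b2⟩ (by
            rw [Real.dist_eq, abs_sub_comm, abs_of_nonneg (by linarith [ht.1])]
            have : (1 : ℝ) / R < d := by
              rw [div_lt_iff₀ hR0]
              rw [div_lt_iff₀ hd] at hR
              linarith
            linarith [ht.2])
          rw [Real.dist_eq] at h8
          rw [Real.norm_eq_abs]
          exact h8.le
      calc (R : ℝ) * |_| ≤ R * (η * (1 / R)) := mul_le_mul_of_nonneg_left h6 hR0.le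
        _ = η := by field_simp
    refine (sum_le_sum h4).trans ?_
    rw [sum_const, card_range, nsmul_eq_mul, mul_comm]
  have h9 : ∀ i : ℕ, Ψ (s + i / R) = Ψ (Int.fract s + i / R) := by
    intro i
    have h10 := hper.sub_zsmul_eq (x := s + i / R) ⌊s⌋
    rw [zsmul_one] at h10
    rw [← h10]
    congr 1
    unfold Int.fract
    ring
  simp only [h9]
  exact key _ (Int.fract_nonneg s) (Int.fract_lt_one s)

/-- Abel summation with an increasing weight -/
theorem abel {a : ℕ → ℂ} {c : ℕ → ℝ} {η : ℝ} (n : ℕ) (h0 : 0 ≤ c 0) (hc : ∀ i < n, c i ≤ c (i + 1))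
    (ha : ∀ k ≤ n + 1, ‖∑ i ∈ range k, a i‖ ≤ η) : ‖∑ i ∈ range (n + 1), (c i : ℂ) * a i‖ ≤ 2 * c n * η := by
  have key : ∀ n : ℕ, ∑ i ∈ range (n + 1), (c i : ℂ) * a i = c n * ∑ i ∈ range (n + 1), a i -
      ∑ i ∈ range n, ((c (i + 1) - c i : ℝ) : ℂ) * ∑ k ∈ range (i + 1), a k := by
    intro n
    induction n with
    | zero => simp
    | succ n ih =>
      rw [sum_range_succ, ih, sum_range_succ (fun i => a i) (n + 1),
        sum_range_succ (fun i => ((c (i + 1) - c i : ℝ) : ℂ) * ∑ k ∈ range (i + 1), a k) n]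
      push_cast
      ring
  have hη : 0 ≤ η := by simpa using ha 0 (Nat.zero_le _)
  have hmono : ∀ k ≤ n, c 0 ≤ c k := by
    intro k
    induction k with
    | zero => intro _; exact le_rfl
    | succ k ih => intro hk; exact (ih (by omega)).trans (hc k (by omega))
  have hcn : 0 ≤ c n := h0.trans (hmono n le_rfl)
  rw [key n]
  refine (norm_sub_le _ _).trans ?_
  have h1 : ‖(c n : ℂ) * ∑ i ∈ range (n + 1), a i‖ ≤ c n * η := by
    rw [norm_mul, Complex.norm_real, Real.norm_eq_abs, abs_of_nonneg hcn]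
    exact mul_le_mul_of_nonneg_left (ha _ le_rfl) hcn
  have h2 : ‖∑ i ∈ range n, ((c (i + 1) - c i : ℝ) : ℂ) * ∑ k ∈ range (i + 1), a k‖ ≤ (c n - c 0) * η := by
    refine (norm_sum_le _ _).trans ?_
    have : ∀ i ∈ range n, ‖((c (i + 1) - c i : ℝ) : ℂ) * ∑ k ∈ range (i + 1), a k‖ ≤ (c (i + 1) - c i) * η := by
      intro i hi
      have := mem_range.1 hi
      rw [norm_mul, Complex.norm_real, Real.norm_eq_abs, abs_of_nonneg (by linarith [hc i this])]
      exact mul_le_mul_of_nonneg_left (ha _ (by omega)) (by linarith [hc i this])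
    refine (sum_le_sum this).trans ?_
    rw [← sum_mul, sum_range_sub]
  nlinarith

/-- the Gaussian weights of neighbouring `x` -/
theorem gauss_cmp {μ v w : ℝ} (hμ : 0 < μ) (hv : 0 < v) (hw : 0 < w) : ∀ η : ℝ, 0 < η → ∃ L₀ : ℝ, 1 ≤ L₀ ∧
    ∀ L : ℝ, L₀ ≤ L → ∀ t s : ℝ, 0 ≤ t → t ^ 2 ≤ μ * L → 0 ≤ s → s ≤ w →
      |Real.exp (-((t - μ * s) ^ 2 / (2 * (v * (L + s))))) / Real.sqrt (2 * Real.pi * (v * (L + s))) -
        Real.exp (-(t ^ 2 / (2 * (v * L)))) / Real.sqrt (2 * Real.pi * (v * L))| ≤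
        η * (1 / Real.sqrt (2 * Real.pi * (v * L))) := by
  intro η hη
  have hpi := Real.pi_pos
  set C : ℝ := (2 * Real.sqrt μ * (μ * w) + (μ * w) ^ 2 + μ * w) / (2 * v) with hC
  have hC0 : 0 ≤ C := by positivity
  refine ⟨max 1 (((C + w + 1) / η) ^ 2), le_max_left _ _, fun L hL t s ht0 ht hs0 hs1 => ?_⟩
  have hL1 : 1 ≤ L := (le_max_left _ _).trans hL
  have hL0 : 0 < L := by linarith
  have hr : (C + w + 1) / η ≤ Real.sqrt L := Real.le_sqrt_of_sq_le ((le_max_right _ _).trans hL)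
  set r : ℝ := Real.sqrt L with hrdef
  have hr2 : r ^ 2 = L := Real.sq_sqrt hL0.le
  have hr1 : 1 ≤ r := Real.one_le_sqrt.2 hL1
  have hr0 : 0 < r := by linarith
  rw [div_le_iff₀ hη] at hr
  have hLs : 0 < L + s := by linarith
  set G : ℝ := 1 / Real.sqrt (2 * Real.pi * (v * L)) with hG
  have hG0 : 0 < G := by positivity
  have hsq : 1 / Real.sqrt (2 * Real.pi * (v * (L + s))) = G * Real.sqrt (L / (L + s)) := by
    rw [hG, Real.sqrt_div hL0.le, show 2 * Real.pi * (v * (L + s)) = (2 * Real.pi * v) * (L + s) by ring,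
      show 2 * Real.pi * (v * L) = (2 * Real.pi * v) * L by ring, Real.sqrt_mul (by positivity) (L + s),
      Real.sqrt_mul (by positivity) L]
    have h1 : 0 < Real.sqrt (2 * Real.pi * v) := by positivity
    have h2 : 0 < Real.sqrt (L + s) := by positivity
    field_simp
  have hq0 : 0 < L / (L + s) := by positivity
  have hq1 : L / (L + s) ≤ 1 := (div_le_one hLs).2 (by linarith)
  have hsq1 : Real.sqrt (L / (L + s)) ≤ 1 := Real.sqrt_le_one.2 hq1
  have hsq2 : L / (L + s) ≤ Real.sqrt (L / (L + s)) := by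
    apply Real.le_sqrt_of_sq_le
    nlinarith
  have hsq3 : 1 - L / (L + s) ≤ w / L := by
    have : 1 - L / (L + s) = s / (L + s) := by field_simp; ring
    rw [this, div_le_div_iff₀ hLs hL0]
    nlinarith
  set a0 : ℝ := t ^ 2 / (2 * (v * L)) with ha0
  set a1 : ℝ := (t - μ * s) ^ 2 / (2 * (v * (L + s))) with ha1
  have ha0' : 0 ≤ a0 := by positivity
  have ha1' : 0 ≤ a1 := by positivity
  have htle : t ≤ Real.sqrt μ * r := by
    rw [hrdef, ← Real.sqrt_mul hμ.le]
    exact Real.le_sqrt_of_sq_le ht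
  have hdiff : |a1 - a0| ≤ C / r := by
    have e : a1 - a0 = (L * (-(2 * t * (μ * s)) + (μ * s) ^ 2) - t ^ 2 * s) / (2 * v * L * (L + s)) := by
      rw [ha1, ha0]
      field_simp
      ring
    have hms : μ * s ≤ μ * w := mul_le_mul_of_nonneg_left hs1 hμ.le
    have hms0 : 0 ≤ μ * s := by positivity
    rw [e, abs_div, abs_of_pos (by positivity : (0 : ℝ) < 2 * v * L * (L + s)), div_le_div_iff₀ (by positivity) hr0]
    have hnum : |L * (-(2 * t * (μ * s)) + (μ * s) ^ 2) - t ^ 2 * s| ≤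
        L * (2 * t * (μ * w) + (μ * w) ^ 2) + μ * L * w := by
      rw [abs_le]
      have q1 : t * (μ * s) ≤ t * (μ * w) := mul_le_mul_of_nonneg_left hms ht0
      have q2 : (μ * s) ^ 2 ≤ (μ * w) ^ 2 := pow_le_pow_left₀ hms0 hms 2
      have q3 : t ^ 2 * s ≤ μ * L * w := mul_le_mul ht hs1 hs0 (by positivity)
      have q4 : 0 ≤ t * (μ * s) := by positivity
      have q5 : 0 ≤ t ^ 2 * s := by positivity
      have q6 : 0 ≤ μ * L * w := by positivity
      have q7 : 0 ≤ L * (t * (μ * w)) := by positivity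
      constructor
      · nlinarith [mul_le_mul_of_nonneg_left q1 hL0.le, mul_nonneg hL0.le (sq_nonneg (μ * s)), mul_nonneg hL0.le (sq_nonneg (μ * w))]
      · nlinarith [mul_le_mul_of_nonneg_left q2 hL0.le, mul_nonneg hL0.le q4]
    have hC' : C * (2 * v) = 2 * Real.sqrt μ * (μ * w) + (μ * w) ^ 2 + μ * w := by
      rw [hC]; field_simp
    have hfin : (L * (2 * t * (μ * w) + (μ * w) ^ 2) + μ * L * w) * r ≤ C * (2 * v * L * (L + s)) := by
      have q1 : 2 * t * (μ * w) ≤ 2 * (Real.sqrt μ * r) * (μ * w) := by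
        have := mul_le_mul_of_nonneg_right htle (by positivity : (0 : ℝ) ≤ μ * w)
        linarith
      have q2 : (L * (2 * t * (μ * w) + (μ * w) ^ 2) + μ * L * w) ≤
          L * (2 * (Real.sqrt μ * r) * (μ * w) + (μ * w) ^ 2 * r + μ * w * r) := by
        have q3 : (μ * w) ^ 2 ≤ (μ * w) ^ 2 * r := le_mul_of_one_le_right (by positivity) hr1
        have q4 : μ * w ≤ μ * w * r := le_mul_of_one_le_right (by positivity) hr1
        nlinarith
      calc (L * (2 * t * (μ * w) + (μ * w) ^ 2) + μ * L * w) * r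
          ≤ (L * (2 * (Real.sqrt μ * r) * (μ * w) + (μ * w) ^ 2 * r + μ * w * r)) * r :=
            mul_le_mul_of_nonneg_right q2 hr0.le
        _ = (2 * Real.sqrt μ * (μ * w) + (μ * w) ^ 2 + μ * w) * L * r ^ 2 := by ring
        _ = C * (2 * v) * L * L := by rw [hC', hr2]
        _ ≤ C * (2 * v * L * (L + s)) := by nlinarith [mul_nonneg (mul_nonneg hC0 hv.le) (mul_nonneg hL0.le hs0)]
    calc _ ≤ (L * (2 * t * (μ * w) + (μ * w) ^ 2) + μ * L * w) * r := mul_le_mul_of_nonneg_right hnum hr0.le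
      _ ≤ _ := hfin
  have hexp : |Real.exp (-a1) - Real.exp (-a0)| ≤ C / r := (exp_neg_sub_le ha1' ha0').trans hdiff
  have e1 : Real.exp (-a1) / Real.sqrt (2 * Real.pi * (v * (L + s))) - Real.exp (-a0) / Real.sqrt (2 * Real.pi * (v * L)) =
      G * ((Real.exp (-a1) - Real.exp (-a0)) * Real.sqrt (L / (L + s)) -
        Real.exp (-a0) * (1 - Real.sqrt (L / (L + s)))) := by
    have h1 : Real.exp (-a1) / Real.sqrt (2 * Real.pi * (v * (L + s))) = Real.exp (-a1) * (G * Real.sqrt (L / (L + s))) := by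
      rw [← hsq]; ring
    have h2 : Real.exp (-a0) / Real.sqrt (2 * Real.pi * (v * L)) = Real.exp (-a0) * G := by
      rw [hG]; ring
    rw [h1, h2]
    ring
  rw [e1, abs_mul, abs_of_pos hG0, mul_comm]
  apply mul_le_mul_of_nonneg_right _ hG0.le
  have hx0 : 0 ≤ Real.exp (-a0) := (Real.exp_pos _).le
  have hx1 : Real.exp (-a0) ≤ 1 := Real.exp_le_one_iff.2 (by linarith)
  have hsn : 0 ≤ Real.sqrt (L / (L + s)) := Real.sqrt_nonneg _
  have h3 : |(Real.exp (-a1) - Real.exp (-a0)) * Real.sqrt (L / (L + s)) - Real.exp (-a0) * (1 - Real.sqrt (L / (L + s)))| ≤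
      C / r + w / L := by
    refine (abs_sub _ _).trans ?_
    rw [abs_mul, abs_mul, abs_of_nonneg hsn, abs_of_nonneg hx0, abs_of_nonneg (by linarith : (0 : ℝ) ≤ 1 - Real.sqrt (L / (L + s)))]
    have q1 : |Real.exp (-a1) - Real.exp (-a0)| * Real.sqrt (L / (L + s)) ≤ C / r * 1 :=
      mul_le_mul hexp hsq1 hsn (by positivity)
    have q2 : Real.exp (-a0) * (1 - Real.sqrt (L / (L + s))) ≤ 1 * (w / L) :=
      mul_le_mul hx1 (by linarith) (by linarith) (by norm_num)
    linarith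
  refine h3.trans ?_
  have h4 : w / L ≤ w / r := by
    apply div_le_div_of_nonneg_left hw.le hr0
    nlinarith
  have h5 : C / r + w / r ≤ η := by
    rw [← add_div, div_le_iff₀ hr0]
    nlinarith
  linarith

end Pool.Agent.U923.CZ
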