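import Pool.Agent.U923.CZ.Conv

/-!
The converse of the transfer principle: the blocks and the assembly.
-/

set_option autoImplicit false

namespace Pool.Agent.U923.CZ

open Finset Filter Topology
open Pool.Agent.R468.MF (gn sd win mem_win gn_pos gn_le sd_pos Law per_bound)

variable {N : ℝ → ℤ → ℝ} {μ v α : ℝ} {θ : ℝ → ℝ} {Ψ : ℝ → ℝ} {δ : ℝ}

/-- small truncated sums -/
def Tr0 (N : ℝ → ℤ → ℝ) (F : ℕ → ℂ) : Prop :=
  ∀ ε : ℝ, 0 < ε → ∃ X₀ : ℝ, ∀ x : ℝ, X₀ ≤ x → ∀ κ : ℕ, ‖∑ j ∈ range κ, F j * (N x (j : ℤ) : ℂ)‖ ≤ ε * x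

/-- the sums over short blocks, with Gaussian weights -/
theorem block_w (L : Law N μ v α θ Ψ δ) (hμ : 0 < μ) (hδ : 0 < δ) {w : ℝ} (hw : 0 < w)
    (hθ : ∀ x : ℝ, 0 < x → θ x = Real.log x / w) {F : ℕ → ℂ} {C : ℝ} (hF : ∀ k, ‖F k‖ ≤ C) (hyp : Tr0 N F) :
    ∀ η : ℝ, 0 < η → ∃ Y : ℕ, 1 ≤ Y ∧ ∀ y : ℕ, Y ≤ y → ∀ B : ℕ, (B : ℝ) ≤ Real.sqrt y →
      ‖∑ t ∈ range B, F (y + t) * (Real.exp (-((t : ℝ) ^ 2 / (2 * (v * (y / μ))))) /
        Real.sqrt (2 * Real.pi * (v * (y / μ))) : ℝ)‖ ≤ η := by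
  intro η hη
  have hpi := Real.pi_pos
  have hv := L.v_pos
  have hC : 0 ≤ C := (norm_nonneg _).trans (hF 0)
  obtain ⟨t₀, ht₀⟩ := per_bound L.cont L.per
  set M : ℝ := Ψ t₀ with hM
  have hM0 : 0 ≤ M := L.psi_nonneg _
  set C1 : ℝ := Real.sqrt (μ / (2 * Real.pi * v)) with hC1
  have hC10 : 0 < C1 := Real.sqrt_pos.2 (by positivity)
  set η₁ : ℝ := δ * η / (2 * (C + 1) * C1 * (M + 2)) with hη₁
  have hη10 : 0 < η₁ := by positivity
  set ε₁ : ℝ := δ * η / 4 with hε₁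
  have hε10 : 0 < ε₁ := by positivity
  obtain ⟨R, hR1, hR⟩ := riemann L.cont L.per L.psi_int η₁ hη10
  have hR0 : (0 : ℝ) < R := by exact_mod_cast hR1
  obtain ⟨L₀, hL01, hL0⟩ := gauss_cmp hμ hv hw η₁ hη10
  obtain ⟨X₁, hX1, h1⟩ := L.loc (Real.sqrt μ + 1) η₁ hη10
  obtain ⟨X₂, h2⟩ := hyp ε₁ hε10
  set L₁ : ℝ := max (max L₀ (Real.log (max X₁ X₂))) ((μ * w) ^ 2) with hL₁
  refine ⟨⌈μ * L₁⌉₊ + 1, by omega, fun y hy B hB => ?_⟩
  have hyR : μ * L₁ ≤ y := (Nat.le_ceil _).trans (by exact_mod_cast (by omega : ⌈μ * L₁⌉₊ ≤ y))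
  set ℓ : ℝ := (y : ℝ) / μ with hℓ
  have hyℓ : (y : ℝ) = μ * ℓ := by rw [hℓ]; field_simp
  have hℓ1 : L₁ ≤ ℓ := by
    rw [hℓ, le_div_iff₀ hμ]; linarith
  have hℓL₀ : L₀ ≤ ℓ := ((le_max_left _ _).trans (le_max_left _ _)).trans hℓ1
  have hℓX : Real.log (max X₁ X₂) ≤ ℓ := ((le_max_right _ _).trans (le_max_left _ _)).trans hℓ1
  have hℓw : (μ * w) ^ 2 ≤ ℓ := (le_max_right _ _).trans hℓ1
  have hℓ0 : 1 ≤ ℓ := hL01.trans hℓL₀
  have hℓpos : 0 < ℓ := by linarith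
  set G : ℝ := 1 / Real.sqrt (2 * Real.pi * (v * ℓ)) with hG
  have hG0 : 0 < G := by positivity
  -- the points
  set xs : ℕ → ℝ := fun i => Real.exp (ℓ + w * (i / R)) with hxs
  have hxs0 : ∀ i, 0 < xs i := fun i => Real.exp_pos _
  have hlog : ∀ i, Real.log (xs i) = ℓ + w * (i / R) := fun i => Real.log_exp _
  have hXX : 0 < max X₁ X₂ := lt_max_of_lt_left (by linarith)
  have hge : ∀ i : ℕ, max X₁ X₂ ≤ xs i := by
    intro i
    rw [hxs]
    simp only
    rw [← Real.log_le_iff_le_exp hXX]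
    have : 0 ≤ w * ((i : ℝ) / R) := by positivity
    linarith
  -- the sums of `F N`
  have hS : ∀ i : ℕ, ‖∑ t ∈ range B, F (y + t) * (N (xs i) ((y + t : ℕ) : ℤ) : ℂ)‖ ≤ 2 * ε₁ * xs i := by
    intro i
    have e : ∑ t ∈ range B, F (y + t) * (N (xs i) ((y + t : ℕ) : ℤ) : ℂ) =
        ∑ j ∈ range (y + B), F j * (N (xs i) (j : ℤ) : ℂ) - ∑ j ∈ range y, F j * (N (xs i) (j : ℤ) : ℂ) := by
      rw [sum_range_add]
      ring
    rw [e]
    refine (norm_sub_le _ _).trans ?_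
    have a1 := h2 (xs i) ((le_max_right _ _).trans (hge i)) (y + B)
    have a2 := h2 (xs i) ((le_max_right _ _).trans (hge i)) y
    linarith
  -- the counts
  have hgn : ∀ i : ℕ, i < R → ∀ t : ℕ, t < B → gn μ v (xs i) ((y + t : ℕ) : ℤ) =
      Real.exp (-(((t : ℝ) - μ * (w * (i / R))) ^ 2 / (2 * (v * (ℓ + w * (i / R)))))) /
        Real.sqrt (2 * Real.pi * (v * (ℓ + w * (i / R)))) := by
    intro i _ t _
    unfold gn sd
    rw [hlog]
    congr 5
    push_cast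
    rw [hyℓ]
    ring
  have hD : ∀ t : ℕ, t < B → |(1 / R : ℝ) * ∑ i ∈ range R, N (xs i) ((y + t : ℕ) : ℤ) / xs i -
      δ * (Real.exp (-((t : ℝ) ^ 2 / (2 * (v * ℓ)))) / Real.sqrt (2 * Real.pi * (v * ℓ)))| ≤ η₁ * (M + 2) * G := by
    intro t ht
    set g0 : ℝ := Real.exp (-((t : ℝ) ^ 2 / (2 * (v * ℓ)))) / Real.sqrt (2 * Real.pi * (v * ℓ)) with hg0
    have hg0G : g0 ≤ G := by
      rw [hg0, hG]
      apply div_le_div_of_nonneg_right _ (Real.sqrt_nonneg _)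
      exact Real.exp_le_one_iff.2 (by have : 0 ≤ (t : ℝ) ^ 2 / (2 * (v * ℓ)) := by positivity
                                      linarith)
    have hg00 : 0 ≤ g0 := by positivity
    have htB : (t : ℝ) ≤ Real.sqrt y := le_trans (by exact_mod_cast ht.le) hB
    have ht2 : (t : ℝ) ^ 2 ≤ μ * ℓ := by
      rw [← hyℓ]
      calc (t : ℝ) ^ 2 ≤ Real.sqrt y ^ 2 := pow_le_pow_left₀ (Nat.cast_nonneg _) htB 2
        _ = y := Real.sq_sqrt (Nat.cast_nonneg _)
    set s : ℝ := θ (xs 0) - ((y + t : ℕ) : ℝ) * α with hs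
    have hterm : ∀ i ∈ range R, |N (xs i) ((y + t : ℕ) : ℤ) / xs i - g0 * Ψ (s + i / R)| ≤ η₁ * G * (M + 1) := by
      intro i hi
      have hiR := mem_range.1 hi
      have hq : (i : ℝ) / R ≤ 1 := (div_le_one hR0).2 (by exact_mod_cast hiR.le)
      have hq0 : 0 ≤ (i : ℝ) / R := by positivity
      have hsw : w * ((i : ℝ) / R) ≤ w := by nlinarith
      have hs0 : 0 ≤ w * ((i : ℝ) / R) := by positivity
      have hgi := hgn i hiR t ht
      set gi : ℝ := gn μ v (xs i) ((y + t : ℕ) : ℤ) with hgidef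
      have hlogi : 0 < Real.log (xs i) := by rw [hlog]; linarith
      have hgi0 : 0 < gi := gn_pos hv hlogi _
      have hcmp := hL0 ℓ hℓL₀ t (w * (i / R)) (Nat.cast_nonneg _) ht2 hs0 hsw
      rw [← hgi, ← hg0, ← hG] at hcmp
      have hgiG : gi ≤ G := by
        have := gn_le (μ := μ) hv hlogi ((y + t : ℕ) : ℤ)
        refine this.trans ?_
        rw [hG]
        apply one_div_le_one_div_of_le (Real.sqrt_pos.2 (by positivity))
        unfold sd
        apply Real.sqrt_le_sqrt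
        rw [hlog]
        have : v * ℓ ≤ v * (ℓ + w * (i / R)) := mul_le_mul_of_nonneg_left (by linarith) hv.le
        nlinarith
      have hdev : |(((y + t : ℕ) : ℤ) : ℝ) - μ * Real.log (xs i)| ≤ (Real.sqrt μ + 1) * Real.sqrt (Real.log (xs i)) := by
        rw [hlog]
        have e : (((y + t : ℕ) : ℤ) : ℝ) - μ * (ℓ + w * (i / R)) = t - μ * (w * (i / R)) := by
          push_cast
          rw [hyℓ]
          ring
        rw [e]
        have r1 : Real.sqrt ℓ ≤ Real.sqrt (ℓ + w * (i / R)) := Real.sqrt_le_sqrt (by linarith)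
        have r2 : Real.sqrt (y : ℝ) = Real.sqrt μ * Real.sqrt ℓ := by rw [hyℓ, Real.sqrt_mul hμ.le]
        have r3 : μ * w ≤ Real.sqrt ℓ := Real.le_sqrt_of_sq_le hℓw
        have r4 : 0 ≤ Real.sqrt μ := Real.sqrt_nonneg _
        have r5 : μ * (w * (i / R)) ≤ μ * w := mul_le_mul_of_nonneg_left hsw hμ.le
        have r6 : 0 ≤ μ * (w * ((i : ℝ) / R)) := by positivity
        have r7 : (0 : ℝ) ≤ t := Nat.cast_nonneg _
        have r8 : Real.sqrt μ * Real.sqrt ℓ ≤ Real.sqrt μ * Real.sqrt (ℓ + w * (i / R)) := mul_le_mul_of_nonneg_left r1 r4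
        rw [abs_le]
        constructor <;> nlinarith
      have hl := h1 (xs i) ((le_max_left _ _).trans (hge i)) ((y + t : ℕ) : ℤ) hdev
      have hθi : θ (xs i) - (((y + t : ℕ) : ℤ) : ℝ) * α = s + i / R := by
        rw [hs, hθ _ (hxs0 i), hθ _ (hxs0 0), hlog, hlog, Int.cast_natCast]
        field_simp
        push_cast
        ring
      rw [hθi, ← hgidef] at hl
      have e1 : N (xs i) ((y + t : ℕ) : ℤ) / xs i - g0 * Ψ (s + i / R) =
          gi * (N (xs i) ((y + t : ℕ) : ℤ) / (xs i * gi) - Ψ (s + i / R)) + (gi - g0) * Ψ (s + i / R) := by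
        have := (hxs0 i).ne'
        have := hgi0.ne'
        field_simp
        ring
      rw [e1]
      refine (abs_add_le _ _).trans ?_
      rw [abs_mul, abs_mul, abs_of_pos hgi0, abs_of_nonneg (L.psi_nonneg (s + i / R))]
      have q1 : gi * |N (xs i) ((y + t : ℕ) : ℤ) / (xs i * gi) - Ψ (s + i / R)| ≤ G * η₁ :=
        mul_le_mul hgiG hl (abs_nonneg _) hG0.le
      have q2 : |gi - g0| * Ψ (s + i / R) ≤ (η₁ * G) * M :=
        mul_le_mul hcmp (ht₀ _) (L.psi_nonneg _) (by positivity)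
      linarith
    have hsum : |∑ i ∈ range R, (N (xs i) ((y + t : ℕ) : ℤ) / xs i - g0 * Ψ (s + i / R))| ≤ R * (η₁ * G * (M + 1)) := by
      refine (abs_sum_le_sum_abs _ _).trans ((sum_le_sum hterm).trans ?_)
      rw [sum_const, card_range, nsmul_eq_mul]
    have hRi := hR s
    have e2 : (1 / R : ℝ) * ∑ i ∈ range R, N (xs i) ((y + t : ℕ) : ℤ) / xs i - δ * g0 =
        (1 / R : ℝ) * (∑ i ∈ range R, (N (xs i) ((y + t : ℕ) : ℤ) / xs i - g0 * Ψ (s + i / R)) +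
          g0 * (∑ i ∈ range R, Ψ (s + i / R) - R * δ)) := by
      rw [sum_sub_distrib, ← mul_sum]
      field_simp
      ring
    rw [e2, abs_mul, abs_of_pos (by positivity)]
    have h3 : |∑ i ∈ range R, (N (xs i) ((y + t : ℕ) : ℤ) / xs i - g0 * Ψ (s + i / R)) +
          g0 * (∑ i ∈ range R, Ψ (s + i / R) - R * δ)| ≤ R * (η₁ * G * (M + 1)) + G * (η₁ * R) := by
      refine (abs_add_le _ _).trans (add_le_add hsum ?_)
      rw [abs_mul, abs_of_nonneg hg00]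
      exact mul_le_mul hg0G hRi (abs_nonneg _) hG0.le
    calc (1 / R : ℝ) * |_| ≤ 1 / R * (R * (η₁ * G * (M + 1)) + G * (η₁ * R)) :=
          mul_le_mul_of_nonneg_left h3 (by positivity)
      _ = η₁ * (M + 2) * G := by field_simp; ring
  -- the weighted sum
  set g : ℕ → ℝ := fun t => Real.exp (-((t : ℝ) ^ 2 / (2 * (v * ℓ)))) / Real.sqrt (2 * Real.pi * (v * ℓ)) with hg
  have e3 : (δ : ℂ) * ∑ t ∈ range B, F (y + t) * (g t : ℂ) =
      (1 / R : ℂ) * ∑ i ∈ range R, (1 / (xs i : ℂ)) * ∑ t ∈ range B, F (y + t) * (N (xs i) ((y + t : ℕ) : ℤ) : ℂ) -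
      ∑ t ∈ range B, F (y + t) * (((1 / R : ℝ) * ∑ i ∈ range R, N (xs i) ((y + t : ℕ) : ℤ) / xs i - δ * g t : ℝ) : ℂ) := by
    have e4 : ∑ i ∈ range R, (1 / (xs i : ℂ)) * ∑ t ∈ range B, F (y + t) * (N (xs i) ((y + t : ℕ) : ℤ) : ℂ) =
        ∑ t ∈ range B, F (y + t) * ∑ i ∈ range R, (N (xs i) ((y + t : ℕ) : ℤ) : ℂ) / (xs i : ℂ) := by
      simp only [mul_sum]
      rw [sum_comm]
      apply sum_congr rfl
      intro t _
      apply sum_congr rfl
      intro i _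
      ring
    rw [e4, mul_sum, mul_sum, ← sum_sub_distrib]
    apply sum_congr rfl
    intro t _
    push_cast
    ring
  have hn1 : ‖(1 / R : ℂ) * ∑ i ∈ range R, (1 / (xs i : ℂ)) * ∑ t ∈ range B, F (y + t) * (N (xs i) ((y + t : ℕ) : ℤ) : ℂ)‖ ≤
      2 * ε₁ := by
    rw [norm_mul]
    have h4 : ‖∑ i ∈ range R, (1 / (xs i : ℂ)) * ∑ t ∈ range B, F (y + t) * (N (xs i) ((y + t : ℕ) : ℤ) : ℂ)‖ ≤ R * (2 * ε₁) := by
      refine (norm_sum_le _ _).trans ?_
      have : ∀ i ∈ range R, ‖(1 / (xs i : ℂ)) * ∑ t ∈ range B, F (y + t) * (N (xs i) ((y + t : ℕ) : ℤ) : ℂ)‖ ≤ 2 * ε₁ := by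
        intro i _
        rw [norm_mul, norm_div, norm_one, Complex.norm_real, Real.norm_eq_abs, abs_of_pos (hxs0 i), one_div,
          inv_mul_le_iff₀ (hxs0 i)]
        have := hS i
        linarith
      refine (sum_le_sum this).trans ?_
      rw [sum_const, card_range, nsmul_eq_mul]
    rw [norm_div, norm_one, Complex.norm_natCast]
    calc 1 / (R : ℝ) * _ ≤ 1 / R * (R * (2 * ε₁)) := mul_le_mul_of_nonneg_left h4 (by positivity)
      _ = 2 * ε₁ := by field_simp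
  have hBG : (B : ℝ) * G ≤ C1 := by
    have r1 : (B : ℝ) * G ≤ Real.sqrt y * G := mul_le_mul_of_nonneg_right hB hG0.le
    refine r1.trans (le_of_eq ?_)
    rw [hG, hyℓ, hC1, mul_one_div, ← Real.sqrt_div (by positivity)]
    congr 1
    field_simp
  have hn2 : ‖∑ t ∈ range B, F (y + t) * (((1 / R : ℝ) * ∑ i ∈ range R, N (xs i) ((y + t : ℕ) : ℤ) / xs i - δ * g t : ℝ) : ℂ)‖ ≤
      C * (η₁ * (M + 2)) * C1 := by
    refine (norm_sum_le _ _).trans ?_
    have : ∀ t ∈ range B, ‖F (y + t) * (((1 / R : ℝ) * ∑ i ∈ range R, N (xs i) ((y + t : ℕ) : ℤ) / xs i - δ * g t : ℝ) : ℂ)‖ ≤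
        C * (η₁ * (M + 2) * G) := by
      intro t ht
      rw [norm_mul, Complex.norm_real, Real.norm_eq_abs]
      exact mul_le_mul (hF _) (hD t (mem_range.1 ht)) (abs_nonneg _) hC
    refine (sum_le_sum this).trans ?_
    rw [sum_const, card_range, nsmul_eq_mul]
    calc (B : ℝ) * (C * (η₁ * (M + 2) * G)) = C * (η₁ * (M + 2)) * (B * G) := by ring
      _ ≤ C * (η₁ * (M + 2)) * C1 := mul_le_mul_of_nonneg_left hBG (by positivity)
  have hn3 : C * (η₁ * (M + 2)) * C1 ≤ δ * η / 2 := by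
    have e5 : (C + 1) * (η₁ * (M + 2)) * C1 = δ * η / 2 := by
      rw [hη₁]
      field_simp
    have : C * (η₁ * (M + 2)) * C1 ≤ (C + 1) * (η₁ * (M + 2)) * C1 := by
      apply mul_le_mul_of_nonneg_right _ hC10.le
      apply mul_le_mul_of_nonneg_right (by linarith) (by positivity)
    linarith
  have hfin : δ * ‖∑ t ∈ range B, F (y + t) * (g t : ℂ)‖ ≤ δ * η := by
    have e6 : δ * ‖∑ t ∈ range B, F (y + t) * (g t : ℂ)‖ = ‖(δ : ℂ) * ∑ t ∈ range B, F (y + t) * (g t : ℂ)‖ := by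
      rw [norm_mul, Complex.norm_real, Real.norm_eq_abs, abs_of_pos hδ]
    rw [e6, e3]
    refine (norm_sub_le _ _).trans ?_
    linarith
  exact le_of_mul_le_mul_left hfin hδ

/-- the sums over short blocks -/
theorem block_s (L : Law N μ v α θ Ψ δ) (hμ : 0 < μ) (hδ : 0 < δ) {w : ℝ} (hw : 0 < w)
    (hθ : ∀ x : ℝ, 0 < x → θ x = Real.log x / w) {F : ℕ → ℂ} {C : ℝ} (hF : ∀ k, ‖F k‖ ≤ C) (hyp : Tr0 N F) :
    ∀ η : ℝ, 0 < η → ∃ Y : ℕ, 1 ≤ Y ∧ ∀ y : ℕ, Y ≤ y → ∀ B : ℕ, (B : ℝ) ≤ Real.sqrt y →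
      ‖∑ t ∈ range B, F (y + t)‖ ≤ η * Real.sqrt y := by
  intro η hη
  have hpi := Real.pi_pos
  have hv := L.v_pos
  set C2 : ℝ := 2 * (Real.sqrt (2 * Real.pi * v / μ) * Real.exp (μ / (2 * v))) with hC2
  have hC20 : 0 < C2 := by positivity
  obtain ⟨Y, hY1, hY⟩ := block_w L hμ hδ hw hθ hF hyp (η / C2) (by positivity)
  refine ⟨Y, hY1, fun y hy B hB => ?_⟩
  rcases Nat.eq_zero_or_pos B with hB0 | hB0
  · subst hB0
    simp only [range_zero, sum_empty, norm_zero]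
    positivity
  obtain ⟨n, rfl⟩ : ∃ n, B = n + 1 := ⟨B - 1, by omega⟩
  have hy1 : 1 ≤ y := by omega
  have hy0 : (0 : ℝ) < y := by exact_mod_cast hy1
  set ℓ : ℝ := (y : ℝ) / μ with hℓ
  have hℓ0 : 0 < ℓ := by positivity
  have hyℓ : (y : ℝ) = μ * ℓ := by rw [hℓ]; field_simp
  set s : ℝ := Real.sqrt (2 * Real.pi * (v * ℓ)) with hs
  have hs0 : 0 < s := Real.sqrt_pos.2 (by positivity)
  set g : ℕ → ℝ := fun t => Real.exp (-((t : ℝ) ^ 2 / (2 * (v * ℓ)))) / s with hg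
  set c : ℕ → ℝ := fun t => s * Real.exp ((t : ℝ) ^ 2 / (2 * (v * ℓ))) with hc
  have hcg : ∀ t : ℕ, c t * g t = 1 := by
    intro t
    rw [hc, hg]
    simp only
    rw [Real.exp_neg]
    have := Real.exp_pos ((t : ℝ) ^ 2 / (2 * (v * ℓ)))
    field_simp
  have h1 := abel (a := fun t => F (y + t) * (g t : ℂ)) (c := c) (η := η / C2) n (by positivity) (fun i _ => by
    rw [hc]
    simp only
    apply mul_le_mul_of_nonneg_left _ hs0.le
    apply Real.exp_le_exp.2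
    apply div_le_div_of_nonneg_right _ (by positivity)
    apply pow_le_pow_left₀ (Nat.cast_nonneg _)
    push_cast
    linarith) (fun k hk => by
    have := hY y hy k (le_trans (by exact_mod_cast hk) hB)
    exact this)
  have e1 : ∑ i ∈ range (n + 1), (c i : ℂ) * (F (y + i) * (g i : ℂ)) = ∑ i ∈ range (n + 1), F (y + i) := by
    apply sum_congr rfl
    intro i _
    have : (c i : ℂ) * (g i : ℂ) = 1 := by exact_mod_cast hcg i
    linear_combination F (y + i) * this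
  rw [e1] at h1
  refine h1.trans ?_
  have hn2 : ((n : ℝ)) ^ 2 ≤ μ * ℓ := by
    rw [← hyℓ]
    have : (n : ℝ) ≤ Real.sqrt y := by
      push_cast at hB
      linarith
    calc (n : ℝ) ^ 2 ≤ Real.sqrt y ^ 2 := pow_le_pow_left₀ (Nat.cast_nonneg _) this 2
      _ = y := Real.sq_sqrt hy0.le
  have hcn : c n ≤ s * Real.exp (μ / (2 * v)) := by
    rw [hc]
    simp only
    apply mul_le_mul_of_nonneg_left _ hs0.le
    apply Real.exp_le_exp.2
    rw [div_le_div_iff₀ (by positivity) (by positivity)]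
    nlinarith
  have hsy : s = Real.sqrt (2 * Real.pi * v / μ) * Real.sqrt y := by
    rw [hs, ← Real.sqrt_mul (by positivity), hyℓ]
    congr 1
    field_simp
  calc 2 * c n * (η / C2) ≤ 2 * (s * Real.exp (μ / (2 * v))) * (η / C2) := by
        apply mul_le_mul_of_nonneg_right _ (by positivity)
        linarith
    _ = η * Real.sqrt y := by
        rw [hsy, hC2]
        field_simp

/-- THE CONVERSE -/
theorem conv (L : Law N μ v α θ Ψ δ) (hμ : 0 < μ) (hδ : 0 < δ) {w : ℝ} (hw : 0 < w)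
    (hθ : ∀ x : ℝ, 0 < x → θ x = Real.log x / w) {F : ℕ → ℂ} {C : ℝ} (hF : ∀ k, ‖F k‖ ≤ C) (hyp : Tr0 N F) : Sm F := by
  intro ε hε
  set η : ℝ := ε / (3 + 1 / ε) with hη
  have hη0 : 0 < η := by positivity
  obtain ⟨Y, hY1, hY⟩ := block_s L hμ hδ hw hθ hF hyp η hη0
  have key : ∀ H y : ℕ, Y ≤ y → ‖∑ t ∈ range H, F (y + t)‖ ≤ 2 * η * H + η * Real.sqrt (y + H) := by
    intro H
    induction H using Nat.strong_induction_on with
    | _ H ih =>
      intro y hy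
      have hy1 : 1 ≤ y := by omega
      set l : ℕ := ⌊Real.sqrt y⌋₊ with hl
      have hl1 : (l : ℝ) ≤ Real.sqrt y := Nat.floor_le (Real.sqrt_nonneg _)
      have hl2 : Real.sqrt y < l + 1 := Nat.lt_floor_add_one _
      have hsq1 : 1 ≤ Real.sqrt y := Real.one_le_sqrt.2 (by exact_mod_cast hy1)
      have hl3 : 1 ≤ l := Nat.le_floor (by simpa using hsq1)
      have hl4 : (1 : ℝ) ≤ l := by exact_mod_cast hl3
      have hsle : Real.sqrt y ≤ Real.sqrt (y + H) := Real.sqrt_le_sqrt (by linarith [(Nat.cast_nonneg H : (0 : ℝ) ≤ H)])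
      rcases Nat.lt_or_ge l H with hH | hH
      · obtain ⟨H', rfl⟩ : ∃ H', H = l + H' := ⟨H - l, by omega⟩
        rw [sum_range_add]
        refine (norm_add_le _ _).trans ?_
        have a1 := hY y hy l hl1
        have a2 := ih H' (by omega) (y + l) (by omega)
        have e : ∑ x ∈ range H', F (y + (l + x)) = ∑ t ∈ range H', F (y + l + t) := by
          apply sum_congr rfl
          intro t _
          rw [add_assoc]
        rw [e]
        push_cast at a2 ⊢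
        rw [add_assoc (y : ℝ)] at a2
        have a3 : η * Real.sqrt y ≤ η * (2 * l) := mul_le_mul_of_nonneg_left (by linarith) hη0.le
        linarith
      · have a1 := hY y hy H (le_trans (by exact_mod_cast hH) hl1)
        have : 0 ≤ η * (H : ℝ) := by positivity
        have a2 : η * Real.sqrt y ≤ η * Real.sqrt (y + H) := mul_le_mul_of_nonneg_left hsle hη0.le
        linarith
  refine ⟨Y, fun y H hy hH => ?_⟩
  rcases Nat.eq_zero_or_pos H with h0 | h0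
  · subst h0
    simp
  have hH1 : (1 : ℝ) ≤ H := by exact_mod_cast h0
  have b1 : Real.sqrt ((y : ℝ) + H) ≤ Real.sqrt y + Real.sqrt H := by
    rw [Real.sqrt_le_iff]
    have s1 := Real.sq_sqrt (Nat.cast_nonneg y : (0 : ℝ) ≤ y)
    have s2 := Real.sq_sqrt (Nat.cast_nonneg H : (0 : ℝ) ≤ H)
    have s3 := Real.sqrt_nonneg (y : ℝ)
    have s4 := Real.sqrt_nonneg (H : ℝ)
    exact ⟨by positivity, by nlinarith [mul_nonneg s3 s4]⟩
  have b2 : Real.sqrt (H : ℝ) ≤ H := by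
    rw [Real.sqrt_le_left (by linarith)]
    nlinarith
  have b3 : Real.sqrt (y : ℝ) ≤ H / ε := by
    rw [le_div_iff₀ hε]
    linarith
  have b4 := key H y hy
  have b5 : η * Real.sqrt ((y : ℝ) + H) ≤ η * (H / ε + H) := mul_le_mul_of_nonneg_left (by linarith) hη0.le
  have b6 : 2 * η * H + η * (H / ε + H) = ε * H := by
    rw [hη]
    field_simp
    ring
  linarith

end Pool.Agent.U923.CZ
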