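import Pool.Agent.U923.CZ.Fun

/-!
Weyl's criterion for finite sets `A x` with `|A x| ~ δ x`.
-/

set_option autoImplicit false

namespace Pool.Agent.U923.CZ

open Finset Filter Topology MeasureTheory
open Pool.Agent.Helper602.MK (ee)
open Pool.Agent.Helper602.MK.N_J5b (ee_add ee_zero ee_conj norm_ee)
open Pool.Agent.H705R2 (Circ)

theorem int_fourier_zero {n : ℤ} (hn : n ≠ 0) : ∫ x : Circ, (fourier n x : ℂ) = 0 := by
  have ha : ∃ a : Circ, (fourier n a : ℂ) ≠ 1 := by
    refine ⟨((1 / (2 * n) : ℝ) : Circ), ?_⟩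
    rw [fourier_coe_apply]
    have hn' : (n : ℂ) ≠ 0 := by exact_mod_cast hn
    have : 2 * (Real.pi : ℂ) * Complex.I * n * ((1 / (2 * n) : ℝ) : ℂ) / ((1 : ℝ) : ℂ) =
        Real.pi * Complex.I := by
      push_cast
      field_simp
    rw [this, Complex.exp_pi_mul_I]
    norm_num
  obtain ⟨a, ha⟩ := ha
  have h1 : ∫ x : Circ, (fourier n (x + a) : ℂ) = ∫ x : Circ, (fourier n x : ℂ) :=
    integral_add_right_eq_self (fun x => (fourier n x : ℂ)) a
  have h2 : ∀ x : Circ, (fourier n (x + a) : ℂ) = fourier n x * fourier n a := by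
    intro x
    simp only [fourier_apply]
    rw [smul_add, AddCircle.toCircle_add]; simp
  simp_rw [h2] at h1
  rw [integral_mul_const] at h1
  have h3 : (∫ x : Circ, (fourier n x : ℂ)) * ((fourier n a : ℂ) - 1) = 0 := by
    rw [mul_sub, h1]; ring
  rcases mul_eq_zero.1 h3 with h | h
  · exact h
  · exact absurd (sub_eq_zero.1 h) ha

variable {A : ℝ → Finset ℕ} {u : ℕ → ℝ} {δ : ℝ}

/-- continuous functions -/
theorem crit_cont (hc : Tendsto (fun x : ℝ => ((A x).card : ℝ) / x) atTop (𝓝 δ))
    (hx : ∀ m : ℤ, m ≠ 0 → Tendsto (fun x : ℝ => (∑ n ∈ A x, ee (m * u n)) / x) atTop (𝓝 0)) (h : C(Circ, ℂ)) :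
    Tendsto (fun x : ℝ => (∑ n ∈ A x, h (u n : Circ)) / x) atTop (𝓝 (δ * ∫ z : Circ, h z)) := by
  have hmem : ∀ f ∈ (Submodule.span ℂ (Set.range <| @fourier 1)),
      Tendsto (fun x : ℝ => (∑ n ∈ A x, f (u n : Circ)) / x) atTop (𝓝 (δ * ∫ z : Circ, f z)) := by
    intro f hf
    induction hf using Submodule.span_induction with
    | mem f hf =>
      obtain ⟨m, rfl⟩ := hf
      by_cases hm : m = 0
      · subst hm
        have hint : ∫ z : Circ, (fourier 0 z : ℂ) = 1 := by
          simp [fourier_zero, Measure.real]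
        rw [hint, mul_one]
        have h2 := ((Complex.continuous_ofReal.tendsto _).comp hc)
        refine h2.congr fun x => ?_
        simp only [fourier_zero, sum_const, nsmul_eq_mul, mul_one, Function.comp_apply]
        push_cast
        rfl
      · rw [int_fourier_zero hm, mul_zero]
        refine (hx m hm).congr fun x => ?_
        congr 1
        apply sum_congr rfl
        intro n _
        rw [fourier_ee]
    | zero => simp
    | add f g _ _ ihf ihg =>
      have hi : ∫ z : Circ, (f + g) z = (∫ z : Circ, f z) + ∫ z : Circ, g z := by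
        have := integral_add (μ := (volume : Measure Circ)) (f := f) (g := g)
          (f.continuous.integrable_of_hasCompactSupport (HasCompactSupport.of_compactSpace _))
          (g.continuous.integrable_of_hasCompactSupport (HasCompactSupport.of_compactSpace _))
        simpa using this
      rw [hi, mul_add]
      refine (ihf.add ihg).congr (fun x => ?_)
      rw [← add_div, ← sum_add_distrib]; rfl
    | smul c f _ ihf =>
      have hi : ∫ z : Circ, (c • f) z = c * (∫ z : Circ, f z) := by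
        simp [integral_const_mul]
      rw [hi, mul_left_comm]
      refine (ihf.const_mul c).congr (fun x => ?_)
      simp only [ContinuousMap.coe_smul, Pi.smul_apply, smul_eq_mul]
      rw [← mul_sum, mul_div_assoc]
  have hδ0 : 0 ≤ δ := by
    refine ge_of_tendsto hc ?_
    filter_upwards [eventually_gt_atTop 0] with x hx
    positivity
  rw [Metric.tendsto_atTop]
  intro ε hε
  have hcl : h ∈ (Submodule.span ℂ (Set.range <| @fourier 1)).topologicalClosure := by
    rw [span_fourier_closure_eq_top]; trivial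
  rw [← SetLike.mem_coe, Submodule.topologicalClosure_coe, Metric.mem_closure_iff] at hcl
  set η : ℝ := ε / (3 * (δ + 1)) with hη
  have hη0 : 0 < η := by positivity
  have hη1 : (δ + 1) * η = ε / 3 := by rw [hη]; field_simp
  obtain ⟨f, hf, hfd⟩ := hcl η hη0
  obtain ⟨X₁, hX₁⟩ := Metric.tendsto_atTop.1 (hmem f hf) (ε / 3) (by positivity)
  obtain ⟨X₂, hX₂⟩ := eventually_atTop.1 (hc.eventually_lt_const (show δ < δ + 1 by linarith))
  refine ⟨max (max X₁ X₂) 1, fun x hx => ?_⟩
  have hx0 : 0 < x := by linarith [(le_max_right _ _).trans hx]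
  have h1 := hX₁ x (((le_max_left _ _).trans (le_max_left _ _)).trans hx)
  have h5 := hX₂ x (((le_max_right _ _).trans (le_max_left _ _)).trans hx)
  have h4 : ‖h - f‖ < η := by rw [← dist_eq_norm]; exact hfd
  have h2 : ‖(∑ n ∈ A x, h (u n : Circ)) / x - (∑ n ∈ A x, f (u n : Circ)) / (x : ℂ)‖ ≤ (δ + 1) * η := by
    rw [← sub_div, ← sum_sub_distrib, norm_div, Complex.norm_real, Real.norm_eq_abs, abs_of_pos hx0, div_le_iff₀ hx0]
    calc ‖∑ n ∈ A x, (h (u n : Circ) - f (u n : Circ))‖ ≤ ∑ n ∈ A x, ‖h (u n : Circ) - f (u n : Circ)‖ := norm_sum_le _ _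
      _ ≤ ∑ _n ∈ A x, η := sum_le_sum fun n _ => ((h - f).norm_coe_le_norm _).trans h4.le
      _ = (A x).card * η := by rw [sum_const, nsmul_eq_mul]
      _ ≤ ((δ + 1) * x) * η := by
          apply mul_le_mul_of_nonneg_right _ hη0.le
          rw [div_lt_iff₀ hx0] at h5
          exact h5.le
      _ = (δ + 1) * η * x := by ring
  have h3 : ‖(δ : ℂ) * (∫ z : Circ, f z) - δ * ∫ z : Circ, h z‖ ≤ (δ + 1) * η := by
    rw [← mul_sub, norm_mul, Complex.norm_real, Real.norm_eq_abs, abs_of_nonneg hδ0]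
    apply mul_le_mul (by linarith) _ (norm_nonneg _) (by linarith)
    rw [← integral_sub (f.continuous.integrable_of_hasCompactSupport
      (HasCompactSupport.of_compactSpace _))
      (h.continuous.integrable_of_hasCompactSupport (HasCompactSupport.of_compactSpace _))]
    calc ‖∫ z : Circ, (f z - h z)‖ ≤ ‖h - f‖ * (volume : Measure Circ).real Set.univ := by
          apply norm_integral_le_of_norm_le_const
          filter_upwards with z
          rw [norm_sub_rev]
          exact (h - f).norm_coe_le_norm z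
      _ = ‖h - f‖ := by simp [Measure.real]
      _ ≤ η := h4.le
  calc dist ((∑ n ∈ A x, h (u n : Circ)) / (x : ℂ)) (δ * ∫ z : Circ, h z)
      ≤ dist ((∑ n ∈ A x, h (u n : Circ)) / (x : ℂ)) ((∑ n ∈ A x, f (u n : Circ)) / (x : ℂ))
        + dist ((∑ n ∈ A x, f (u n : Circ)) / (x : ℂ)) (δ * ∫ z : Circ, f z)
        + dist (δ * ∫ z : Circ, f z) (δ * ∫ z : Circ, h z) := dist_triangle4 _ _ _ _
    _ < ε / 3 + ε / 3 + ε / 3 := by
        rw [dist_eq_norm, dist_eq_norm (δ * ∫ z : Circ, f z)]
        linarith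
    _ = ε := by ring

open Classical in
/-- closed sets -/
theorem crit_closed (hδ : 0 < δ) (hc : Tendsto (fun x : ℝ => ((A x).card : ℝ) / x) atTop (𝓝 δ))
    (hx : ∀ m : ℤ, m ≠ 0 → Tendsto (fun x : ℝ => (∑ n ∈ A x, ee (m * u n)) / x) atTop (𝓝 0))
    {K : Set Circ} (hK : IsClosed K) {c : ℝ} (hcK : volume K < ENNReal.ofReal c) :
    ∀ᶠ x : ℝ in atTop, (((A x).filter (fun n => (u n : Circ) ∈ K)).card : ℝ) / x < δ * c := by
  have hc0 : 0 < c := by
    by_contra hcon
    rw [ENNReal.ofReal_of_nonpos (not_lt.mp hcon)] at hcK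
    exact not_lt_zero hcK
  obtain ⟨c', hc'1, hc'2⟩ : ∃ c' : ℝ, volume K < ENNReal.ofReal c' ∧ c' < c := by
    obtain ⟨r, hr1, hr2⟩ := ENNReal.lt_iff_exists_nnreal_btwn.mp hcK
    refine ⟨r, by simpa using hr1, ?_⟩
    have := (ENNReal.lt_ofReal_iff_toReal_lt ENNReal.coe_ne_top).mp hr2
    simpa using this
  obtain ⟨U, hKU, hUo, hUv⟩ : ∃ U ⊇ K, IsOpen U ∧ volume U < ENNReal.ofReal c' :=
    K.exists_isOpen_lt_of_lt _ hc'1
  obtain ⟨g, hg0, hg1, hg01⟩ := exists_continuous_zero_one_of_isClosed hUo.isClosed_compl hK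
    (by rw [Set.disjoint_compl_left_iff_subset]; exact hKU)
  let h : C(Circ, ℂ) := ⟨fun z => (g z : ℂ), by fun_prop⟩
  have hc'0 : 0 < c' := by
    by_contra hcon
    rw [ENNReal.ofReal_of_nonpos (not_lt.mp hcon)] at hc'1
    exact not_lt_zero hc'1
  have hint : (∫ z : Circ, h z).re ≤ c' := by
    have h1 : ∫ z : Circ, h z = ((∫ z : Circ, g z : ℝ) : ℂ) := by
      simp only [h, ContinuousMap.coe_mk]
      exact integral_ofReal
    rw [h1, Complex.ofReal_re]
    have h2 : ∫ z : Circ, g z ≤ ∫ z : Circ, U.indicator (fun _ => (1 : ℝ)) z := by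
      apply integral_mono
      · exact g.continuous.integrable_of_hasCompactSupport (HasCompactSupport.of_compactSpace _)
      · exact (integrable_indicator_iff hUo.measurableSet).2 (integrableOn_const (by simp) )
      · intro z
        by_cases hz : z ∈ U
        · simp only [hz, Set.indicator_of_mem]; exact (hg01 z).2
        · simp only [hz, not_false_eq_true, Set.indicator_of_notMem]
          exact le_of_eq (hg0 hz)
    rw [integral_indicator hUo.measurableSet] at h2
    simp only [integral_const, MeasurableSet.univ, measureReal_restrict_apply, Set.univ_inter,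
      smul_eq_mul, mul_one] at h2
    refine h2.trans ?_
    rw [Measure.real]
    exact ENNReal.toReal_le_of_le_ofReal hc'0.le hUv.le
  have hw := crit_cont hc hx h
  have hw' : Tendsto (fun x : ℝ => ((∑ n ∈ A x, h (u n : Circ)) / (x : ℂ)).re) atTop
      (𝓝 ((δ : ℂ) * ∫ z : Circ, h z).re) := (Complex.continuous_re.tendsto _).comp hw
  have hlt : ((δ : ℂ) * ∫ z : Circ, h z).re < δ * c := by
    rw [Complex.re_ofReal_mul]
    exact mul_lt_mul_of_pos_left (lt_of_le_of_lt hint hc'2) hδ
  filter_upwards [hw'.eventually_lt_const hlt, eventually_gt_atTop 0] with x hi hx0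
  refine lt_of_le_of_lt ?_ hi
  have : (∑ n ∈ A x, h (u n : Circ)) / (x : ℂ) = (((∑ n ∈ A x, g (u n : Circ)) / x : ℝ) : ℂ) := by
    push_cast; rfl
  rw [this, Complex.ofReal_re]
  gcongr
  rw [card_filter]
  push_cast
  gcongr with m _
  split_ifs with hm
  · have := hg1 hm
    simp only [Pi.one_apply] at this
    rw [this]
  · exact (hg01 _).1

theorem norm_circ_le (t : ℝ) : ‖(t : Circ)‖ ≤ |t| := by
  have h := QuotientAddGroup.norm_mk_le_norm (S := AddSubgroup.zmultiples (1 : ℝ)) (m := t)
  rw [Real.norm_eq_abs] at h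
  exact h

/-- the number of visits to an interval -/
noncomputable def vis (A : ℝ → Finset ℕ) (u : ℕ → ℝ) (a b x : ℝ) : ℕ :=
  ((A x).filter fun n => a ≤ Int.fract (u n) ∧ Int.fract (u n) < b).card

theorem vis_upper (hδ : 0 < δ) (hc : Tendsto (fun x : ℝ => ((A x).card : ℝ) / x) atTop (𝓝 δ))
    (hx : ∀ m : ℤ, m ≠ 0 → Tendsto (fun x : ℝ => (∑ n ∈ A x, ee (m * u n)) / x) atTop (𝓝 0))
    {a b : ℝ} (hab : a ≤ b) {ε : ℝ} (hε : 0 < ε) :
    ∀ᶠ x : ℝ in atTop, (vis A u a b x : ℝ) / x < δ * (b - a) + ε := by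
  classical
  have hK : IsClosed (Metric.closedBall (((a + b) / 2 : ℝ) : Circ) ((b - a) / 2)) := Metric.isClosed_closedBall
  have hv : volume (Metric.closedBall (((a + b) / 2 : ℝ) : Circ) ((b - a) / 2)) < ENNReal.ofReal (b - a + ε / δ) := by
    rw [AddCircle.volume_closedBall]
    apply (ENNReal.ofReal_lt_ofReal_iff (by have := div_pos hε hδ; linarith)).2
    refine lt_of_le_of_lt (min_le_right _ _) ?_
    have := div_pos hε hδ
    linarith
  filter_upwards [crit_closed hδ hc hx hK hv, eventually_gt_atTop 0] with x h1 hx0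
  have e : δ * (b - a + ε / δ) = δ * (b - a) + ε := by field_simp
  rw [← e]
  refine lt_of_le_of_lt ?_ h1
  apply div_le_div_of_nonneg_right _ hx0.le
  unfold vis
  norm_cast
  apply card_le_card
  intro n hn
  rw [mem_filter] at hn ⊢
  refine ⟨hn.1, ?_⟩
  rw [Metric.mem_closedBall, dist_eq_norm]
  have e2 : ((u n : ℝ) : Circ) = ((Int.fract (u n) : ℝ) : Circ) := by
    have : u n = Int.fract (u n) + ((⌊u n⌋ : ℤ) : ℝ) := (Int.fract_add_floor (u n)).symm
    conv_lhs => rw [this]
    rw [AddCircle.coe_add]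
    have h0 : (((⌊u n⌋ : ℤ) : ℝ) : Circ) = 0 := by
      rw [AddCircle.coe_eq_zero_iff]
      exact ⟨⌊u n⌋, by simp⟩
    rw [h0, add_zero]
  rw [e2, ← AddCircle.coe_sub]
  refine (norm_circ_le _).trans ?_
  rw [abs_le]
  constructor <;> linarith [hn.2.1, hn.2.2]

/-- THE CRITERION -/
theorem crit_vis (hδ : 0 < δ) (hc : Tendsto (fun x : ℝ => ((A x).card : ℝ) / x) atTop (𝓝 δ))
    (hx : ∀ m : ℤ, m ≠ 0 → Tendsto (fun x : ℝ => (∑ n ∈ A x, ee (m * u n)) / x) atTop (𝓝 0))
    {a b : ℝ} (ha : 0 ≤ a) (hab : a ≤ b) (hb : b ≤ 1) :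
    Tendsto (fun x : ℝ => (vis A u a b x : ℝ) / x) atTop (𝓝 (δ * (b - a))) := by
  rw [Metric.tendsto_nhds]
  intro ε hε
  filter_upwards [vis_upper hδ hc hx hab (ε := ε) hε, vis_upper hδ hc hx ha (ε := ε / 4) (by positivity),
    vis_upper hδ hc hx hb (ε := ε / 4) (by positivity), hc.eventually_const_lt (show δ - ε / 4 < δ by linarith),
    eventually_gt_atTop 0] with x h1 h2 h3 h4 hx0
  have hsum : (A x).card = vis A u 0 a x + vis A u a b x + vis A u b 1 x := by
    unfold vis
    rw [← card_union_of_disjoint, ← card_union_of_disjoint]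
    · congr 1
      ext n
      rw [mem_union, mem_union, mem_filter, mem_filter, mem_filter]
      have f0 := Int.fract_nonneg (u n)
      have f1 := Int.fract_lt_one (u n)
      constructor
      · intro hn
        rcases lt_or_ge (Int.fract (u n)) a with h | h
        · exact Or.inl (Or.inl ⟨hn, f0, h⟩)
        · rcases lt_or_ge (Int.fract (u n)) b with h' | h'
          · exact Or.inl (Or.inr ⟨hn, h, h'⟩)
          · exact Or.inr ⟨hn, h', f1⟩
      · rintro ((h | h) | h) <;> exact h.1
    · rw [disjoint_union_left]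
      constructor
      · rw [disjoint_left]
        intro n h h'
        have := (mem_filter.1 h).2.2
        have := (mem_filter.1 h').2.1
        linarith
      · rw [disjoint_left]
        intro n h h'
        have := (mem_filter.1 h).2.2
        have := (mem_filter.1 h').2.1
        linarith
    · rw [disjoint_left]
      intro n h h'
      have := (mem_filter.1 h).2.2
      have := (mem_filter.1 h').2.1
      linarith
  have hsumR : ((A x).card : ℝ) / x = (vis A u 0 a x : ℝ) / x + (vis A u a b x : ℝ) / x + (vis A u b 1 x : ℝ) / x := by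
    rw [hsum]
    push_cast
    ring
  rw [Real.dist_eq, abs_lt]
  constructor <;> nlinarith

end Pool.Agent.U923.CZ
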