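import Pool.Agent.U923.CZ.Tr2
import Pool.Agent.U923.CZ.Crit
import Pool.Agent.U923.CZ.Poly
import Pool.Agent.U923.CZ.Sqf
import Pool.Agent.U923.CZ.Dig

/-!
The transfer principle for functions, uniformly for the elements with `g n ≤ κ`.
-/

set_option autoImplicit false

namespace Pool.Agent.U923.CZ

open Finset Filter Topology MeasureTheory
open Pool.Agent.R468.MF (gn sd win mem_win gn_pos gn_le sd_pos Law full_sum mass_out per_bound win_sum)
open Pool.Agent.Helper602.MK (ee)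
open Pool.Agent.Helper602.MK.N_J5b (ee_add ee_zero ee_conj norm_ee)
open Pool.Agent.H705R2 (Circ)

variable {N : ℝ → ℤ → ℝ} {μ v α : ℝ} {θ : ℝ → ℝ} {Ψ : ℝ → ℝ} {δ : ℝ}

/-- the counts are `c` times those of the levels of `g` on the finite sets `A x` -/
def LevC (c : ℝ) (N : ℝ → ℤ → ℝ) (A : ℝ → Finset ℕ) (g : ℕ → ℕ) : Prop :=
  ∀ x : ℝ, (∀ j : ℕ, N x j = c * (((A x).filter fun n => g n = j).card : ℝ)) ∧ ∀ j : ℤ, j < 0 → N x j = 0

theorem LevN.toC {A : ℝ → Finset ℕ} {g : ℕ → ℕ} (h : LevN N A g) : LevC 1 N A g := fun x =>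
  ⟨fun j => by rw [one_mul]; exact (h x).1 j, (h x).2⟩

theorem sum_levels_cut {c : ℝ} {A : ℝ → Finset ℕ} {g : ℕ → ℕ} (h : LevC c N A g) (f : ℕ → ℂ) (x K : ℝ) :
    ∃ J : Finset ℤ, win μ K x ⊆ J ∧ (∀ n ∈ A x, ((g n : ℕ) : ℤ) ∈ J) ∧ ∀ κ : ℤ,
      ∑ j ∈ J.filter (· ≤ κ), f j.toNat * (N x j : ℂ) =
        c * ∑ n ∈ (A x).filter (fun n => ((g n : ℕ) : ℤ) ≤ κ), f (g n) := by
  classical
  refine ⟨win μ K x ∪ (A x).image fun n => ((g n : ℕ) : ℤ), subset_union_left, fun n hn =>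
    mem_union_right _ (mem_image_of_mem _ hn), fun κ => ?_⟩
  set J : Finset ℤ := win μ K x ∪ (A x).image fun n => ((g n : ℕ) : ℤ) with hJ
  have h1 : ∑ n ∈ (A x).filter (fun n => ((g n : ℕ) : ℤ) ≤ κ), f (g n) =
      ∑ j ∈ J.filter (· ≤ κ), ∑ n ∈ ((A x).filter (fun n => ((g n : ℕ) : ℤ) ≤ κ)).filter (fun n => ((g n : ℕ) : ℤ) = j), f (g n) := by
    refine (sum_fiberwise_of_maps_to (fun n hn => ?_) _).symm
    rw [mem_filter] at hn ⊢
    rw [hJ, mem_union]
    exact ⟨Or.inr (mem_image_of_mem _ hn.1), hn.2⟩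
  rw [h1, mul_sum]
  apply sum_congr rfl
  intro j hj
  have hjκ := (mem_filter.1 hj).2
  rcases lt_or_ge j 0 with hj | hj
  · rw [(h x).2 j hj]
    have : ((A x).filter (fun n => ((g n : ℕ) : ℤ) ≤ κ)).filter (fun n => ((g n : ℕ) : ℤ) = j) = ∅ := by
      apply filter_eq_empty_iff.2
      intro n _ hn
      omega
    rw [this]
    simp
  · obtain ⟨k, rfl⟩ := Int.eq_ofNat_of_zero_le hj
    rw [(h x).1 k]
    have e : ((A x).filter (fun n => ((g n : ℕ) : ℤ) ≤ κ)).filter (fun n => ((g n : ℕ) : ℤ) = (k : ℤ)) =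
        (A x).filter fun n => g n = k := by
      ext n
      rw [mem_filter, mem_filter, mem_filter]
      constructor
      · rintro ⟨⟨a1, _⟩, a2⟩
        exact ⟨a1, by exact_mod_cast a2⟩
      · rintro ⟨a1, a2⟩
        subst a2
        exact ⟨⟨a1, hjκ⟩, rfl⟩
    rw [e, Int.toNat_natCast, sum_congr rfl (fun n hn => by rw [(mem_filter.1 hn).2]), sum_const, nsmul_eq_mul]
    push_cast
    ring

/-- the transfer principle, mean zero -/
theorem tr0 (L : Law N μ v α θ Ψ δ) (hμ : 0 < μ) {c : ℝ} (hc : 0 < c) {A : ℝ → Finset ℕ} {g : ℕ → ℕ} (hA : LevC c N A g)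
    {f : ℕ → ℂ} {C : ℝ} (hf1 : ∀ k, ‖f k‖ ≤ C) (hf : STw α f) :
    ∀ ε : ℝ, 0 < ε → ∃ X₀ : ℝ, 2 ≤ X₀ ∧ ∀ x : ℝ, X₀ ≤ x → ∀ κ : ℕ,
      ‖∑ n ∈ (A x).filter (fun n => g n ≤ κ), f (g n)‖ ≤ ε * x := by
  intro ε hε
  have hC : 0 ≤ C := (norm_nonneg _).trans (hf1 0)
  set D : ℝ := C + 1 with hD
  have hD0 : 0 < D := by positivity
  obtain ⟨K, X₀, hX0, hX⟩ := transfer_cut L hμ (f := fun k => ((1 / D : ℝ) : ℂ) * f k) (fun k => by
    rw [norm_mul, Complex.norm_real, Real.norm_eq_abs, abs_of_pos (by positivity), one_div, inv_mul_le_iff₀ hD0,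
        mul_one]
    have := hf1 k
    linarith) (fun m => by
      refine (congrArg Sm (funext fun k => ?_)).mp ((hf m).const_mul ((1 / D : ℝ) : ℂ))
      ring) (c * ε / D) (by positivity)
  refine ⟨X₀, hX0, fun x hx κ => ?_⟩
  obtain ⟨J, h1, -, h2⟩ := sum_levels_cut (μ := μ) hA (fun k => ((1 / D : ℝ) : ℂ) * f k) x K
  have h3 := hX x hx J h1 κ
  rw [h2 κ] at h3
  have e : (A x).filter (fun n => ((g n : ℕ) : ℤ) ≤ (κ : ℤ)) = (A x).filter (fun n => g n ≤ κ) := by
    apply filter_congr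
    intro n _
    exact Nat.cast_le
  rw [e, ← mul_sum, norm_mul, norm_mul, Complex.norm_real, Complex.norm_real, Real.norm_eq_abs, Real.norm_eq_abs,
    abs_of_pos hc, abs_of_pos (by positivity)] at h3
  have h4 : c / D * ‖∑ n ∈ (A x).filter (fun n => g n ≤ κ), f (g n)‖ ≤ c / D * (ε * x) := by
    calc _ = c * (1 / D * ‖∑ n ∈ (A x).filter (fun n => g n ≤ κ), f (g n)‖) := by ring
      _ ≤ c * ε / D * x := h3
      _ = _ := by ring
  exact le_of_mul_le_mul_left h4 (by positivity)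

/-- THE TRANSFER PRINCIPLE for functions with a mean -/
theorem tr1 (L : Law N μ v α θ Ψ δ) (hμ : 0 < μ) {c : ℝ} (hc : 0 < c) {A : ℝ → Finset ℕ} {g : ℕ → ℕ} (hA : LevC c N A g)
    {f : ℕ → ℂ} {C : ℝ} (hf1 : ∀ k, ‖f k‖ ≤ C) {M : ℂ} (h0 : Sm fun k => f k - M)
    (hf : ∀ m : ℤ, m ≠ 0 → Sm fun k => f k * ee (m * α * k)) :
    ∀ ε : ℝ, 0 < ε → ∃ X₀ : ℝ, 2 ≤ X₀ ∧ ∀ x : ℝ, X₀ ≤ x → ∀ κ : ℕ,
      ‖∑ n ∈ (A x).filter (fun n => g n ≤ κ), (f (g n) - M)‖ ≤ ε * x := by
  refine tr0 L hμ hc hA (f := fun k => f k - M) (C := C + ‖M‖) (fun k => ?_) fun m => ?_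
  · refine (norm_sub_le _ _).trans ?_
    have := hf1 k
    linarith
  · rcases eq_or_ne m 0 with hm | hm
    · subst hm
      simpa only [Int.cast_zero, zero_mul, ee_zero, mul_one] using h0
    · have h2 : Sm fun k : ℕ => (-M) * ee (m * α * k) :=
        sm_linear (fun n hn => (L.irr.intCast_mul hm).ne_int n hn) (-M)
      refine (congrArg Sm (funext fun k => ?_)).mp ((hf m hm).add h2)
      ring

theorem spec1 (L : Law N μ v α θ Ψ δ) {c : ℝ} {A : ℝ → Finset ℕ} {g : ℕ → ℕ} (hA : LevC c N A g) (m : ℤ) :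
    Tendsto (fun x : ℝ => (c * ∑ n ∈ A x, ee (m * α * g n)) / x - ee (m * θ x) * cF Ψ m) atTop (𝓝 0) := by
  rw [Metric.tendsto_atTop]
  intro ε hε
  obtain ⟨K, X₀, hX0, hX⟩ := spectrum L m (ε / 2) (by positivity)
  refine ⟨X₀, fun x hx => ?_⟩
  obtain ⟨J, h1, hJ, h2⟩ := sum_levels_cut (μ := μ) hA (fun k => ee (m * α * k)) x K
  have h3 := hX x hx J h1
  have hx0 : 0 < x := by linarith
  -- a bound for the elements of `J`
  obtain ⟨κ, hκ⟩ : ∃ κ : ℤ, ∀ j ∈ J, j ≤ κ := by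
    rcases J.eq_empty_or_nonempty with h | h
    · subst h; exact ⟨0, by simp⟩
    · exact ⟨J.max' h, fun j hj => J.le_max' j hj⟩
  have e0 : J.filter (· ≤ κ) = J := filter_true_of_mem hκ
  have e1 : (A x).filter (fun n => ((g n : ℕ) : ℤ) ≤ κ) = A x := filter_true_of_mem fun n hn => hκ _ (hJ n hn)
  have h2' := h2 κ
  rw [e0, e1] at h2'
  have e : ∑ j ∈ J, ee (m * α * j) * (N x j : ℂ) = ∑ j ∈ J, ee (m * α * (j.toNat : ℝ)) * (N x j : ℂ) := by
    apply sum_congr rfl
    intro j _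
    rcases lt_or_ge j 0 with hj | hj
    · rw [(hA x).2 j hj]
      simp
    · have : ((j.toNat : ℕ) : ℝ) = j := by exact_mod_cast Int.toNat_of_nonneg hj
      rw [this]
  rw [e, h2'] at h3
  have hxc : (x : ℂ) ≠ 0 := by exact_mod_cast hx0.ne'
  have e2 : (c * ∑ n ∈ A x, ee (m * α * g n)) / x - ee (m * θ x) * cF Ψ m =
      (c * ∑ n ∈ A x, ee (m * α * g n) - x * (ee (m * θ x) * cF Ψ m)) / x := by
    field_simp
  rw [dist_zero_right, e2, norm_div, Complex.norm_real, Real.norm_eq_abs, abs_of_pos hx0, div_lt_iff₀ hx0]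
  nlinarith [mul_pos hε hx0]

/-! ### Weyl's criterion, uniformly -/

variable {ι : Type*} {B : ι → ℝ → Finset ℕ} {u : ℕ → ℝ}

theorem cr_cont (hc : ∀ i x, 0 < x → ((B i x).card : ℝ) ≤ x)
    (hx : ∀ m : ℤ, m ≠ 0 → ∀ ε : ℝ, 0 < ε → ∃ X₀ : ℝ, ∀ x : ℝ, X₀ ≤ x → ∀ i, ‖∑ n ∈ B i x, ee (m * u n)‖ ≤ ε * x)
    (h : C(Circ, ℂ)) : ∀ ε : ℝ, 0 < ε → ∃ X₀ : ℝ, ∀ x : ℝ, X₀ ≤ x → ∀ i,
      ‖∑ n ∈ B i x, h (u n : Circ) - (B i x).card * ∫ z : Circ, h z‖ ≤ ε * x := by
  have hmem : ∀ f ∈ (Submodule.span ℂ (Set.range <| @fourier 1)), ∀ ε : ℝ, 0 < ε → ∃ X₀ : ℝ, ∀ x : ℝ, X₀ ≤ x → ∀ i,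
      ‖∑ n ∈ B i x, f (u n : Circ) - (B i x).card * ∫ z : Circ, f z‖ ≤ ε * x := by
    intro f hf
    induction hf using Submodule.span_induction with
    | mem f hf =>
      obtain ⟨m, rfl⟩ := hf
      intro ε hε
      by_cases hm : m = 0
      · subst hm
        refine ⟨0, fun x hx i => ?_⟩
        have hint : ∫ z : Circ, (fourier 0 z : ℂ) = 1 := by
          simp [Measure.real]
        rw [hint, mul_one]
        simp only [fourier_zero, sum_const, nsmul_eq_mul, mul_one, sub_self, norm_zero]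
        positivity
      · obtain ⟨X₀, hX⟩ := hx m hm ε hε
        refine ⟨X₀, fun x hx i => ?_⟩
        rw [int_fourier_zero hm, mul_zero, sub_zero]
        refine le_trans (le_of_eq ?_) (hX x hx i)
        congr 1
        apply sum_congr rfl
        intro n _
        rw [fourier_ee]
    | zero =>
      intro ε hε
      refine ⟨0, fun x hx i => ?_⟩
      simp only [ContinuousMap.zero_apply, sum_const_zero, integral_zero, mul_zero, sub_zero, norm_zero]
      positivity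
    | add f g _ _ ihf ihg =>
      intro ε hε
      have hi : ∫ z : Circ, (f + g) z = (∫ z : Circ, f z) + ∫ z : Circ, g z := by
        have := integral_add (μ := (volume : Measure Circ)) (f := f) (g := g)
          (f.continuous.integrable_of_hasCompactSupport (HasCompactSupport.of_compactSpace _))
          (g.continuous.integrable_of_hasCompactSupport (HasCompactSupport.of_compactSpace _))
        simpa using this
      obtain ⟨X1, h1⟩ := ihf (ε / 2) (by positivity)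
      obtain ⟨X2, h2⟩ := ihg (ε / 2) (by positivity)
      refine ⟨max X1 X2, fun x hx i => ?_⟩
      have a1 := h1 x ((le_max_left _ _).trans hx) i
      have a2 := h2 x ((le_max_right _ _).trans hx) i
      rw [hi]
      have e : ∑ n ∈ B i x, (f + g) (u n : Circ) - (B i x).card * ((∫ z : Circ, f z) + ∫ z : Circ, g z) =
          (∑ n ∈ B i x, f (u n : Circ) - (B i x).card * ∫ z : Circ, f z) +
          (∑ n ∈ B i x, g (u n : Circ) - (B i x).card * ∫ z : Circ, g z) := by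
        simp only [ContinuousMap.add_apply, sum_add_distrib]
        ring
      rw [e]
      refine (norm_add_le _ _).trans ?_
      linarith
    | smul c f _ ihf =>
      intro ε hε
      have hi : ∫ z : Circ, (c • f) z = c * (∫ z : Circ, f z) := by
        simp [integral_const_mul]
      have hd : (0 : ℝ) < ‖c‖ + 1 := by positivity
      obtain ⟨X1, h1⟩ := ihf (ε / (‖c‖ + 1)) (by positivity)
      refine ⟨max X1 0, fun x hx i => ?_⟩
      have a1 := h1 x ((le_max_left _ _).trans hx) i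
      have hx0 : 0 ≤ x := (le_max_right _ _).trans hx
      rw [hi]
      have e : ∑ n ∈ B i x, (c • f) (u n : Circ) - (B i x).card * (c * (∫ z : Circ, f z)) =
          c * (∑ n ∈ B i x, f (u n : Circ) - (B i x).card * ∫ z : Circ, f z) := by
        rw [mul_sub, mul_sum]
        simp only [ContinuousMap.coe_smul, Pi.smul_apply, smul_eq_mul]
        ring
      rw [e, norm_mul]
      calc ‖c‖ * _ ≤ (‖c‖ + 1) * (ε / (‖c‖ + 1) * x) := mul_le_mul (by linarith) a1 (norm_nonneg _) hd.le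
        _ = ε * x := by field_simp
  intro ε hε
  have hcl : h ∈ (Submodule.span ℂ (Set.range <| @fourier 1)).topologicalClosure := by
    rw [span_fourier_closure_eq_top]; trivial
  rw [← SetLike.mem_coe, Submodule.topologicalClosure_coe, Metric.mem_closure_iff] at hcl
  obtain ⟨f, hf, hfd⟩ := hcl (ε / 3) (by positivity)
  obtain ⟨X₁, hX₁⟩ := hmem f hf (ε / 3) (by positivity)
  refine ⟨max X₁ 1, fun x hx i => ?_⟩
  have hx0 : 0 < x := by linarith [(le_max_right _ _).trans hx]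
  have h1 := hX₁ x ((le_max_left _ _).trans hx) i
  have h4 : ‖h - f‖ < ε / 3 := by rw [← dist_eq_norm]; exact hfd
  have hcard := hc i x hx0
  have h2 : ‖∑ n ∈ B i x, h (u n : Circ) - ∑ n ∈ B i x, f (u n : Circ)‖ ≤ ε / 3 * x := by
    rw [← sum_sub_distrib]
    calc ‖∑ n ∈ B i x, (h (u n : Circ) - f (u n : Circ))‖ ≤ ∑ n ∈ B i x, ‖h (u n : Circ) - f (u n : Circ)‖ := norm_sum_le _ _
      _ ≤ ∑ _n ∈ B i x, ε / 3 := sum_le_sum fun n _ => ((h - f).norm_coe_le_norm _).trans h4.le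
      _ = (B i x).card * (ε / 3) := by rw [sum_const, nsmul_eq_mul]
      _ ≤ x * (ε / 3) := mul_le_mul_of_nonneg_right hcard (by positivity)
      _ = ε / 3 * x := by ring
  have h3 : ‖((B i x).card : ℂ) * (∫ z : Circ, f z) - (B i x).card * ∫ z : Circ, h z‖ ≤ ε / 3 * x := by
    rw [← mul_sub, norm_mul, Complex.norm_natCast]
    have h5 : ‖(∫ z : Circ, f z) - ∫ z : Circ, h z‖ ≤ ε / 3 := by
      rw [← integral_sub (f.continuous.integrable_of_hasCompactSupport
        (HasCompactSupport.of_compactSpace _))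
        (h.continuous.integrable_of_hasCompactSupport (HasCompactSupport.of_compactSpace _))]
      calc ‖∫ z : Circ, (f z - h z)‖ ≤ ‖h - f‖ * (volume : Measure Circ).real Set.univ := by
            apply norm_integral_le_of_norm_le_const
            filter_upwards with z
            rw [norm_sub_rev]
            exact (h - f).norm_coe_le_norm z
        _ = ‖h - f‖ := by simp [Measure.real]
        _ ≤ ε / 3 := h4.le
    calc ((B i x).card : ℝ) * _ ≤ x * (ε / 3) := mul_le_mul hcard h5 (norm_nonneg _) hx0.le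
      _ = ε / 3 * x := by ring
  have e : ∑ n ∈ B i x, h (u n : Circ) - (B i x).card * ∫ z : Circ, h z =
      (∑ n ∈ B i x, h (u n : Circ) - ∑ n ∈ B i x, f (u n : Circ)) +
      (∑ n ∈ B i x, f (u n : Circ) - (B i x).card * ∫ z : Circ, f z) +
      (((B i x).card : ℂ) * (∫ z : Circ, f z) - (B i x).card * ∫ z : Circ, h z) := by ring
  rw [e]
  refine (norm_add_le _ _).trans ?_
  have h6 := norm_add_le (∑ n ∈ B i x, h (u n : Circ) - ∑ n ∈ B i x, f (u n : Circ))
      (∑ n ∈ B i x, f (u n : Circ) - (B i x).card * ∫ z : Circ, f z)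
  linarith

open Classical in
/-- closed sets -/
theorem cr_closed (hc : ∀ i x, 0 < x → ((B i x).card : ℝ) ≤ x)
    (hx : ∀ m : ℤ, m ≠ 0 → ∀ ε : ℝ, 0 < ε → ∃ X₀ : ℝ, ∀ x : ℝ, X₀ ≤ x → ∀ i, ‖∑ n ∈ B i x, ee (m * u n)‖ ≤ ε * x)
    {K : Set Circ} (hK : IsClosed K) {c : ℝ} (hcK : volume K < ENNReal.ofReal c) :
    ∀ ε : ℝ, 0 < ε → ∃ X₀ : ℝ, ∀ x : ℝ, X₀ ≤ x → ∀ i,
      (((B i x).filter (fun n => (u n : Circ) ∈ K)).card : ℝ) ≤ c * (B i x).card + ε * x := by
  intro ε hε
  have hc0 : 0 < c := by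
    by_contra hcon
    rw [ENNReal.ofReal_of_nonpos (not_lt.mp hcon)] at hcK
    exact not_lt_zero hcK
  obtain ⟨U, hKU, hUo, hUv⟩ : ∃ U ⊇ K, IsOpen U ∧ volume U < ENNReal.ofReal c :=
    K.exists_isOpen_lt_of_lt _ hcK
  obtain ⟨g, hg0, hg1, hg01⟩ := exists_continuous_zero_one_of_isClosed hUo.isClosed_compl hK
    (by rw [Set.disjoint_compl_left_iff_subset]; exact hKU)
  let h : C(Circ, ℂ) := ⟨fun z => (g z : ℂ), by fun_prop⟩
  have hint : (∫ z : Circ, g z) ≤ c := by
    have h2 : ∫ z : Circ, g z ≤ ∫ z : Circ, U.indicator (fun _ => (1 : ℝ)) z := by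
      apply integral_mono
      · exact g.continuous.integrable_of_hasCompactSupport (HasCompactSupport.of_compactSpace _)
      · exact (integrable_indicator_iff hUo.measurableSet).2 (integrableOn_const (by simp) )
      · intro z
        by_cases hz : z ∈ U
        · simp only [hz, Set.indicator_of_mem]; exact (hg01 z).2
        · simp only [hz, not_false_eq_true, Set.indicator_of_notMem]
          exact le_of_eq (hg0 hz)
    rw [integral_indicator hUo.measurableSet] at h2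
    simp only [integral_const, MeasurableSet.univ, measureReal_restrict_apply, Set.univ_inter,
      smul_eq_mul, mul_one] at h2
    refine h2.trans ?_
    rw [Measure.real]
    exact ENNReal.toReal_le_of_le_ofReal hc0.le hUv.le
  obtain ⟨X₀, hX⟩ := cr_cont hc hx h ε hε
  refine ⟨X₀, fun x hx i => ?_⟩
  have h1 := hX x hx i
  have h3 : ∑ n ∈ B i x, h (u n : Circ) - (B i x).card * ∫ z : Circ, h z =
      ((∑ n ∈ B i x, g (u n : Circ) - (B i x).card * ∫ z : Circ, g z : ℝ) : ℂ) := by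
    have h4 : ∫ z : Circ, h z = ((∫ z : Circ, g z : ℝ) : ℂ) := by
      simp only [h, ContinuousMap.coe_mk]
      exact integral_ofReal
    rw [h4]
    push_cast
    rfl
  rw [h3, Complex.norm_real, Real.norm_eq_abs] at h1
  have h5 := (abs_le.1 h1).2
  have h6 : (((B i x).filter (fun n => (u n : Circ) ∈ K)).card : ℝ) ≤ ∑ n ∈ B i x, g (u n : Circ) := by
    rw [card_filter]
    push_cast
    apply sum_le_sum
    intro m _
    split_ifs with hm
    · have := hg1 hm
      simp only [Pi.one_apply] at this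
      rw [this]
    · exact (hg01 _).1
  have h7 : ((B i x).card : ℝ) * (∫ z : Circ, g z) ≤ c * (B i x).card := by
    rw [mul_comm c]
    exact mul_le_mul_of_nonneg_left hint (Nat.cast_nonneg _)
  linarith

/-- the number of visits to an interval -/
noncomputable def vs (S : Finset ℕ) (u : ℕ → ℝ) (a b : ℝ) : ℕ :=
  (S.filter fun n => a ≤ Int.fract (u n) ∧ Int.fract (u n) < b).card

theorem vs_upper (hc : ∀ i x, 0 < x → ((B i x).card : ℝ) ≤ x)
    (hx : ∀ m : ℤ, m ≠ 0 → ∀ ε : ℝ, 0 < ε → ∃ X₀ : ℝ, ∀ x : ℝ, X₀ ≤ x → ∀ i, ‖∑ n ∈ B i x, ee (m * u n)‖ ≤ ε * x)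
    {a b : ℝ} (hab : a ≤ b) : ∀ ε : ℝ, 0 < ε → ∃ X₀ : ℝ, ∀ x : ℝ, X₀ ≤ x → ∀ i,
      (vs (B i x) u a b : ℝ) ≤ (b - a) * (B i x).card + ε * x := by
  classical
  intro ε hε
  have hK : IsClosed (Metric.closedBall (((a + b) / 2 : ℝ) : Circ) ((b - a) / 2)) := Metric.isClosed_closedBall
  have hv : volume (Metric.closedBall (((a + b) / 2 : ℝ) : Circ) ((b - a) / 2)) < ENNReal.ofReal (b - a + ε / 2) := by
    rw [AddCircle.volume_closedBall]
    apply (ENNReal.ofReal_lt_ofReal_iff (by linarith)).2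
    refine lt_of_le_of_lt (min_le_right _ _) ?_
    linarith
  obtain ⟨X₀, hX⟩ := cr_closed hc hx hK hv (ε / 2) (by positivity)
  refine ⟨max X₀ 1, fun x hx i => ?_⟩
  have hx0 : 0 < x := by linarith [(le_max_right _ _).trans hx]
  have h1 := hX x ((le_max_left _ _).trans hx) i
  have h2 := hc i x hx0
  have h3 : (vs (B i x) u a b : ℝ) ≤
      (((B i x).filter (fun n => (u n : Circ) ∈ Metric.closedBall (((a + b) / 2 : ℝ) : Circ) ((b - a) / 2))).card : ℝ) := by
    unfold vs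
    norm_cast
    apply card_le_card
    intro n hn
    rw [mem_filter] at hn ⊢
    refine ⟨hn.1, ?_⟩
    rw [Metric.mem_closedBall, dist_eq_norm]
    have e2 : ((u n : ℝ) : Circ) = ((Int.fract (u n) : ℝ) : Circ) := by
      have : u n = Int.fract (u n) + ((⌊u n⌋ : ℤ) : ℝ) := (Int.fract_add_floor (u n)).symm
      conv_lhs => rw [this]
      rw [AddCircle.coe_add]
      have h0 : (((⌊u n⌋ : ℤ) : ℝ) : Circ) = 0 := by
        rw [AddCircle.coe_eq_zero_iff]
        exact ⟨⌊u n⌋, by simp⟩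
      rw [h0, add_zero]
    rw [e2, ← AddCircle.coe_sub]
    refine (norm_circ_le _).trans ?_
    rw [abs_le]
    constructor <;> linarith [hn.2.1, hn.2.2]
  nlinarith

/-- THE CRITERION -/
theorem cr_vs (hc : ∀ i x, 0 < x → ((B i x).card : ℝ) ≤ x)
    (hx : ∀ m : ℤ, m ≠ 0 → ∀ ε : ℝ, 0 < ε → ∃ X₀ : ℝ, ∀ x : ℝ, X₀ ≤ x → ∀ i, ‖∑ n ∈ B i x, ee (m * u n)‖ ≤ ε * x)
    {a b : ℝ} (ha : 0 ≤ a) (hab : a ≤ b) (hb : b ≤ 1) : ∀ ε : ℝ, 0 < ε → ∃ X₀ : ℝ, ∀ x : ℝ, X₀ ≤ x → ∀ i,
      |(vs (B i x) u a b : ℝ) - (b - a) * (B i x).card| ≤ ε * x := by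
  intro ε hε
  obtain ⟨X1, h1⟩ := vs_upper hc hx hab ε hε
  obtain ⟨X2, h2⟩ := vs_upper hc hx ha (ε / 2) (by positivity)
  obtain ⟨X3, h3⟩ := vs_upper hc hx hb (ε / 2) (by positivity)
  refine ⟨max X1 (max X2 X3), fun x hx i => ?_⟩
  have a1 := h1 x ((le_max_left _ _).trans hx) i
  have a2 := h2 x (((le_max_left _ _).trans (le_max_right _ _)).trans hx) i
  have a3 := h3 x (((le_max_right _ _).trans (le_max_right _ _)).trans hx) i
  have hsum : (B i x).card = vs (B i x) u 0 a + vs (B i x) u a b + vs (B i x) u b 1 := by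
    unfold vs
    rw [← card_union_of_disjoint, ← card_union_of_disjoint]
    · congr 1
      ext n
      rw [mem_union, mem_union, mem_filter, mem_filter, mem_filter]
      have f0 := Int.fract_nonneg (u n)
      have f1 := Int.fract_lt_one (u n)
      constructor
      · intro hn
        rcases lt_or_ge (Int.fract (u n)) a with h | h
        · exact Or.inl (Or.inl ⟨hn, f0, h⟩)
        · rcases lt_or_ge (Int.fract (u n)) b with h' | h'
          · exact Or.inl (Or.inr ⟨hn, h, h'⟩)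
          · exact Or.inr ⟨hn, h', f1⟩
      · rintro ((h | h) | h) <;> exact h.1
    · rw [disjoint_union_left]
      constructor
      · rw [disjoint_left]
        intro n h h'
        have := (mem_filter.1 h).2.2
        have := (mem_filter.1 h').2.1
        linarith
      · rw [disjoint_left]
        intro n h h'
        have := (mem_filter.1 h).2.2
        have := (mem_filter.1 h').2.1
        linarith
    · rw [disjoint_left]
      intro n h h'
      have := (mem_filter.1 h).2.2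
      have := (mem_filter.1 h').2.1
      linarith
  have hsumR : ((B i x).card : ℝ) = (vs (B i x) u 0 a : ℝ) + (vs (B i x) u a b : ℝ) + (vs (B i x) u b 1 : ℝ) := by
    rw [hsum]
    push_cast
    ring
  rw [abs_le]
  constructor <;> nlinarith

end Pool.Agent.U923.CZ
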