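import Pool.Agent.U923.CZ.Conv2
import Pool.Agent.U923.CZ.Fun2

/-!
The converse of the transfer principle for the values of a function.
-/

set_option autoImplicit false

namespace Pool.Agent.U923.CZ

open Finset Filter Topology
open Pool.Agent.R468.MF (Law)

variable {N : ℝ → ℤ → ℝ} {μ v α : ℝ} {θ : ℝ → ℝ} {Ψ : ℝ → ℝ} {δ : ℝ}

theorem range_levels {A : ℝ → Finset ℕ} {g : ℕ → ℕ} (hA : LevN N A g) (F : ℕ → ℂ) (x : ℝ) (κ : ℕ) :
    ∑ j ∈ range (κ + 1), F j * (N x (j : ℤ) : ℂ) = ∑ n ∈ (A x).filter (fun n => g n ≤ κ), F (g n) := by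
  classical
  have h1 : ∑ n ∈ (A x).filter (fun n => g n ≤ κ), F (g n) =
      ∑ j ∈ range (κ + 1), ∑ n ∈ ((A x).filter (fun n => g n ≤ κ)).filter (fun n => g n = j), F (g n) := by
    refine (sum_fiberwise_of_maps_to (fun n hn => ?_) _).symm
    rw [mem_filter] at hn
    rw [mem_range]
    omega
  rw [h1]
  apply sum_congr rfl
  intro j hj
  have hjκ := mem_range.1 hj
  rw [(hA x).1 j]
  have e : ((A x).filter (fun n => g n ≤ κ)).filter (fun n => g n = j) = (A x).filter fun n => g n = j := by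
    ext n
    rw [mem_filter, mem_filter, mem_filter]
    constructor
    · rintro ⟨⟨a1, _⟩, a2⟩
      exact ⟨a1, a2⟩
    · rintro ⟨a1, a2⟩
      exact ⟨⟨a1, by omega⟩, a2⟩
  rw [e, sum_congr rfl (fun n hn => by rw [(mem_filter.1 hn).2]), sum_const, nsmul_eq_mul]
  push_cast
  ring

/-- the converse, for the values of `g` -/
theorem conv_fun (L : Law N μ v α θ Ψ δ) (hμ : 0 < μ) (hδ : 0 < δ) {w : ℝ} (hw : 0 < w)
    (hθ : ∀ x : ℝ, 0 < x → θ x = Real.log x / w) {A : ℝ → Finset ℕ} {g : ℕ → ℕ} (hA : LevN N A g)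
    {F : ℕ → ℂ} {C : ℝ} (hF : ∀ k, ‖F k‖ ≤ C)
    (h : ∀ ε : ℝ, 0 < ε → ∃ X₀ : ℝ, ∀ x : ℝ, X₀ ≤ x → ∀ κ : ℕ,
      ‖∑ n ∈ (A x).filter (fun n => g n ≤ κ), F (g n)‖ ≤ ε * x) : Sm F := by
  refine conv L hμ hδ hw hθ hF fun ε hε => ?_
  obtain ⟨X₀, hX⟩ := h ε hε
  refine ⟨max X₀ 0, fun x hx κ => ?_⟩
  rcases κ with _ | κ
  · have : 0 ≤ x := (le_max_right _ _).trans hx
    simp only [range_zero, sum_empty, norm_zero]
    positivity
  · rw [range_levels hA F x κ]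
    exact hX x ((le_max_left _ _).trans hx) κ

end Pool.Agent.U923.CZ
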