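import Pool.Agent.U923.CZ.Spec

/-!
The transfer principle for functions: means of `f (g n)` over finite sets `A x` whose level counts obey a
local limit law with periodic factor.
-/

set_option autoImplicit false

namespace Pool.Agent.U923.CZ

open Finset Filter Topology
open Pool.Agent.R468.MF (gn sd win mem_win gn_pos gn_le sd_pos Law full_sum mass_out per_bound win_sum)
open Pool.Agent.Helper602.MK (ee)
open Pool.Agent.Helper602.MK.N_J5b (ee_add ee_zero ee_conj norm_ee)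

variable {N : ℝ → ℤ → ℝ} {μ v α : ℝ} {θ : ℝ → ℝ} {Ψ : ℝ → ℝ} {δ : ℝ}

/-- the counts are those of the levels of `g` on the finite sets `A x` -/
def LevN (N : ℝ → ℤ → ℝ) (A : ℝ → Finset ℕ) (g : ℕ → ℕ) : Prop :=
  ∀ x : ℝ, (∀ j : ℕ, N x j = (((A x).filter fun n => g n = j).card : ℝ)) ∧ ∀ j : ℤ, j < 0 → N x j = 0

theorem sum_levels {A : ℝ → Finset ℕ} {g : ℕ → ℕ} (h : LevN N A g) (f : ℕ → ℂ) (x K : ℝ) :
    ∃ J : Finset ℤ, win μ K x ⊆ J ∧ ∑ j ∈ J, f j.toNat * (N x j : ℂ) = ∑ n ∈ A x, f (g n) := by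
  classical
  refine ⟨win μ K x ∪ (A x).image fun n => ((g n : ℕ) : ℤ), subset_union_left, ?_⟩
  set J : Finset ℤ := win μ K x ∪ (A x).image fun n => ((g n : ℕ) : ℤ) with hJ
  have h1 : ∑ n ∈ A x, f (g n) = ∑ j ∈ J, ∑ n ∈ (A x).filter (fun n => ((g n : ℕ) : ℤ) = j), f (g n) := by
    refine (sum_fiberwise_of_maps_to (fun n hn => ?_) _).symm
    rw [hJ, mem_union]
    exact Or.inr (mem_image_of_mem _ hn)
  rw [h1]
  apply sum_congr rfl
  intro j _
  rcases lt_or_ge j 0 with hj | hj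
  · rw [(h x).2 j hj]
    have : (A x).filter (fun n => ((g n : ℕ) : ℤ) = j) = ∅ := by
      apply filter_eq_empty_iff.2
      intro n _ hn
      omega
    rw [this]
    simp
  · obtain ⟨k, rfl⟩ := Int.eq_ofNat_of_zero_le hj
    rw [(h x).1 k]
    have e : (A x).filter (fun n => ((g n : ℕ) : ℤ) = (k : ℤ)) = (A x).filter fun n => g n = k := by
      apply filter_congr
      intro n _
      exact Int.natCast_inj
    rw [e, Int.toNat_natCast, sum_congr rfl (fun n hn => by rw [(mem_filter.1 hn).2]), sum_const, nsmul_eq_mul]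
    push_cast
    ring

/-- the transfer principle, mean zero -/
theorem transfer_fun (L : Law N μ v α θ Ψ δ) (hμ : 0 < μ) {A : ℝ → Finset ℕ} {g : ℕ → ℕ} (hA : LevN N A g)
    {f : ℕ → ℂ} (hf1 : ∀ k, ‖f k‖ ≤ 1) (hf : STw α f) :
    Tendsto (fun x : ℝ => (∑ n ∈ A x, f (g n)) / x) atTop (𝓝 0) := by
  rw [Metric.tendsto_atTop]
  intro ε hε
  obtain ⟨K, X₀, hX0, hX⟩ := transfer L hμ hf1 hf (ε / 2) (by positivity)
  refine ⟨X₀, fun x hx => ?_⟩
  obtain ⟨J, h1, h2⟩ := sum_levels (μ := μ) hA f x K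
  have h3 := hX x hx J h1
  rw [h2] at h3
  have hx0 : 0 < x := by linarith
  rw [dist_zero_right, norm_div, Complex.norm_real, Real.norm_eq_abs, abs_of_pos hx0, div_lt_iff₀ hx0]
  nlinarith [mul_pos hε hx0]

theorem spectrum_fun (L : Law N μ v α θ Ψ δ) {A : ℝ → Finset ℕ} {g : ℕ → ℕ} (hA : LevN N A g) (m : ℤ) :
    Tendsto (fun x : ℝ => (∑ n ∈ A x, ee (m * α * g n)) / x - ee (m * θ x) * cF Ψ m) atTop (𝓝 0) := by
  rw [Metric.tendsto_atTop]
  intro ε hε
  obtain ⟨K, X₀, hX0, hX⟩ := spectrum L m (ε / 2) (by positivity)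
  refine ⟨X₀, fun x hx => ?_⟩
  obtain ⟨J, h1, h2⟩ := sum_levels (μ := μ) hA (fun k => ee (m * α * k)) x K
  have h3 := hX x hx J h1
  have hx0 : 0 < x := by linarith
  have e : ∑ j ∈ J, ee (m * α * j) * (N x j : ℂ) = ∑ j ∈ J, ee (m * α * (j.toNat : ℝ)) * (N x j : ℂ) := by
    apply sum_congr rfl
    intro j _
    rcases lt_or_ge j 0 with hj | hj
    · rw [(hA x).2 j hj]
      simp
    · have : ((j.toNat : ℕ) : ℝ) = j := by exact_mod_cast Int.toNat_of_nonneg hj
      rw [this]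
  rw [e, h2] at h3
  have hxc : (x : ℂ) ≠ 0 := by exact_mod_cast hx0.ne'
  have e2 : (∑ n ∈ A x, ee (m * α * g n)) / x - ee (m * θ x) * cF Ψ m =
      (∑ n ∈ A x, ee (m * α * g n) - x * (ee (m * θ x) * cF Ψ m)) / x := by
    field_simp
  rw [dist_zero_right, e2, norm_div, Complex.norm_real, Real.norm_eq_abs, abs_of_pos hx0, div_lt_iff₀ hx0]
  nlinarith [mul_pos hε hx0]

/-- the number of elements -/
theorem card_fun (L : Law N μ v α θ Ψ δ) {A : ℝ → Finset ℕ} {g : ℕ → ℕ} (hA : LevN N A g) :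
    Tendsto (fun x : ℝ => ((A x).card : ℝ) / x) atTop (𝓝 δ) := by
  have h := spectrum_fun L hA 0
  have e : cF Ψ 0 = (δ : ℂ) := by
    rw [cF_eq L.cont]
    simp only [Int.cast_zero, zero_mul, mul_zero, Real.cos_zero, mul_one, Real.sin_zero,
      intervalIntegral.integral_zero, Complex.ofReal_zero, sub_zero]
    rw [L.psi_int]
  simp only [Int.cast_zero, zero_mul, ee_zero, one_mul, e, sum_const, nsmul_eq_mul, mul_one] at h
  have h2 : Tendsto (fun x : ℝ => (((A x).card : ℂ)) / x) atTop (𝓝 (δ : ℂ)) := by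
    have := h.add_const (δ : ℂ)
    simpa using this
  have h3 := (Complex.continuous_re.tendsto _).comp h2
  refine (h3.congr fun x => ?_)
  simp only [Function.comp_apply]
  have : ((((A x).card : ℂ)) / x) = ((((A x).card : ℝ) / x : ℝ) : ℂ) := by push_cast; rfl
  rw [this, Complex.ofReal_re]

/-- THE TRANSFER PRINCIPLE for functions with a mean -/
theorem mean_fun (L : Law N μ v α θ Ψ δ) (hμ : 0 < μ) {A : ℝ → Finset ℕ} {g : ℕ → ℕ} (hA : LevN N A g)
    {f : ℕ → ℂ} {C : ℝ} (hf1 : ∀ k, ‖f k‖ ≤ C) {M : ℂ} (h0 : Sm fun k => f k - M)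
    (hf : ∀ m : ℤ, m ≠ 0 → Sm fun k => f k * ee (m * α * k)) :
    Tendsto (fun x : ℝ => (∑ n ∈ A x, f (g n)) / x) atTop (𝓝 (δ * M)) := by
  have hC : 0 ≤ C := (norm_nonneg _).trans (hf1 0)
  set D : ℝ := C + ‖M‖ + 1 with hD
  have hD0 : 0 < D := by positivity
  have hDc : (D : ℂ) ≠ 0 := by exact_mod_cast hD0.ne'
  have key : Tendsto (fun x : ℝ => (∑ n ∈ A x, ((1 / D : ℝ) : ℂ) * (f (g n) - M)) / x) atTop (𝓝 0) := by
    refine transfer_fun L hμ hA (f := fun k => ((1 / D : ℝ) : ℂ) * (f k - M)) (fun k => ?_) (fun m => ?_)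
    · rw [norm_mul, Complex.norm_real, Real.norm_eq_abs, abs_of_pos (by positivity), one_div, inv_mul_le_iff₀ hD0,
        mul_one]
      refine (norm_sub_le _ _).trans ?_
      have := hf1 k
      linarith
    · rcases eq_or_ne m 0 with hm | hm
      · subst hm
        have := h0.const_mul ((1 / D : ℝ) : ℂ)
        simpa only [Int.cast_zero, zero_mul, ee_zero, mul_one] using this
      · have h1 := hf m hm
        have h2 : Sm fun k : ℕ => (-M) * ee (m * α * k) := by
          refine sm_linear (fun n hn => ?_) (-M)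
          have hirr : Irrational ((m : ℝ) * α) := L.irr.intCast_mul hm
          exact hirr.ne_int n hn
        have h3 := (h1.add h2).const_mul ((1 / D : ℝ) : ℂ)
        refine (congrArg Sm (funext fun k => ?_)).mp h3
        ring
  have h1 := (key.const_mul (D : ℂ))
  have h2 := (card_fun L hA)
  have h3 : Tendsto (fun x : ℝ => ((((A x).card : ℝ) / x : ℝ) : ℂ) * M) atTop (𝓝 ((δ : ℂ) * M)) :=
    ((Complex.continuous_ofReal.tendsto _).comp h2).mul_const M
  have h4 := h1.add h3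
  rw [mul_zero, zero_add] at h4
  refine h4.congr fun x => ?_
  rw [← mul_sum, sum_sub_distrib, sum_const, nsmul_eq_mul]
  push_cast
  field_simp
  ring

end Pool.Agent.U923.CZ
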