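import Pool.Agent.U923.CZ.All2

/-!
From a local limit law for natural numbers `k` and an upper density bound to the structure `Law`.
-/

set_option autoImplicit false

namespace Pool.Agent.U923.CZ

open Finset Filter Topology
open Pool.Agent.R468.MF (gn sd win mem_win gn_pos gn_le sd_pos Law)

variable {μ v α : ℝ} {θ : ℝ → ℝ} {Ψ : ℝ → ℝ} {δ c : ℝ} {A : ℝ → Finset ℕ} {g : ℕ → ℕ}

/-- the counts -/
noncomputable def NG (c : ℝ) (A : ℝ → Finset ℕ) (g : ℕ → ℕ) (x : ℝ) (j : ℤ) : ℝ :=
  if j < 0 then 0 else c * (((A x).filter fun n => g n = j.toNat).card : ℝ)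

theorem NG_lev (c : ℝ) (A : ℝ → Finset ℕ) (g : ℕ → ℕ) : LevC c (NG c A g) A g := by
  intro x
  constructor
  · intro j
    unfold NG
    rw [if_neg (by omega), Int.toNat_natCast]
  · intro j hj
    unfold NG
    rw [if_pos hj]

theorem law_of (hc : 0 < c) (hμ : 0 < μ) (hv : 0 < v) (hirr : Irrational α) (hcont : Continuous Ψ)
    (hper : ∀ t, Ψ (t + 1) = Ψ t) (h0 : ∀ t, 0 ≤ Ψ t) (hint : ∫ t in (0 : ℝ)..1, Ψ t = δ)
    (hdens : ∀ ε : ℝ, 0 < ε → ∃ X₀ : ℝ, ∀ x : ℝ, X₀ ≤ x → c * ((A x).card : ℝ) ≤ (δ + ε) * x)
    (hloc : ∀ K ε : ℝ, 0 < ε → ∃ X₀ : ℝ, ∀ x : ℝ, X₀ ≤ x → ∀ k : ℕ,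
      |(k : ℝ) - μ * Real.log x| ≤ K * Real.sqrt (Real.log x) →
      |c * (((A x).filter fun n => g n = k).card : ℝ) / (x * gn μ v x k) - Ψ (θ x - k * α)| ≤ ε) :
    Law (NG c A g) μ v α θ Ψ δ := by
  exact
    { v_pos := hv
      irr := hirr
      cont := hcont
      per := hper
      psi_nonneg := h0
      psi_int := hint
      nonneg := fun x j => by
        unfold NG
        split_ifs
        · exact le_rfl
        · positivity
      mass := by
        intro ε hε
        obtain ⟨X₀, hX⟩ := hdens ε hε
        refine ⟨max X₀ 2, le_max_right _ _, fun x hx J => ?_⟩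
        refine le_trans ?_ (hX x ((le_max_left _ _).trans hx))
        have h1 : ∑ j ∈ J, NG c A g x j ≤ ∑ j ∈ J.filter (fun j => ¬ j < 0), c * (((A x).filter fun n => g n = j.toNat).card : ℝ) := by
          rw [sum_filter]
          apply sum_le_sum
          intro j _
          unfold NG
          split_ifs <;> simp_all
        refine h1.trans ?_
        rw [← mul_sum]
        apply mul_le_mul_of_nonneg_left _ hc.le
        have h2 : ∑ j ∈ J.filter (fun j => ¬ j < 0), ((A x).filter fun n => g n = j.toNat).card ≤ (A x).card := by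
          rw [← card_biUnion]
          · apply card_le_card
            intro n hn
            rw [mem_biUnion] at hn
            obtain ⟨j, _, hn⟩ := hn
            exact (mem_filter.1 hn).1
          · intro j hj j' hj' hne
            rw [Function.onFun, disjoint_left]
            intro n hn hn'
            rw [coe_filter] at hj hj'
            have a1 := (mem_filter.1 hn).2
            have a2 := (mem_filter.1 hn').2
            have a3 : ¬ j < 0 := hj.2
            have a4 : ¬ j' < 0 := hj'.2
            apply hne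
            omega
        exact_mod_cast h2
      loc := by
        intro K ε hε
        obtain ⟨X₀, hX⟩ := hloc K ε hε
        have hLs : Tendsto (fun x : ℝ => Real.sqrt (Real.log x)) atTop atTop :=
          Real.tendsto_sqrt_atTop.comp Real.tendsto_log_atTop
        obtain ⟨X₅, hX₅⟩ := eventually_atTop.1 (hLs.eventually_ge_atTop (K / μ))
        refine ⟨max (max X₀ X₅) 2, le_max_right _ _, fun x hx j hj => ?_⟩
        have hx2 : 2 ≤ x := (le_max_right _ _).trans hx
        have hl : 0 < Real.log x := Real.log_pos (by linarith)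
        have h5 := hX₅ x (((le_max_right _ _).trans (le_max_left _ _)).trans hx)
        rw [div_le_iff₀ hμ] at h5
        have h8 : 0 ≤ j := by
          have h9 := (abs_le.1 hj).1
          have h6 : K * Real.sqrt (Real.log x) ≤ μ * Real.log x := by
            have h7 : Real.sqrt (Real.log x) ^ 2 = Real.log x := Real.sq_sqrt hl.le
            have h8 : 0 ≤ Real.sqrt (Real.log x) := Real.sqrt_nonneg _
            nlinarith
          have h7 : (0 : ℝ) ≤ j := by linarith
          exact_mod_cast h7
        obtain ⟨k, rfl⟩ := Int.eq_ofNat_of_zero_le h8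
        have h9 := hX x (((le_max_left _ _).trans (le_max_left _ _)).trans hx) k (by exact_mod_cast hj)
        rw [(NG_lev c A g x).1 k]
        push_cast
        exact h9 }

end Pool.Agent.U923.CZ
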