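import Pool.Agent.U923.CZ.Tr

/-!
The characters `e(m α j)`: the mean is asymptotically a multiple of `e(m θ(x))`.
-/

set_option autoImplicit false

namespace Pool.Agent.U923.CZ

open Finset Filter Topology
open Pool.Agent.R468.MF (gn sd win mem_win gn_pos gn_le sd_pos Law full_sum mass_out per_bound win_sum)
open Pool.Agent.Helper602.MK (ee)
open Pool.Agent.Helper602.MK.N_J5b (ee_add ee_zero ee_conj norm_ee)

theorem ee_re_im (t : ℝ) : ee t = (Real.cos (2 * Real.pi * t) : ℂ) + (Real.sin (2 * Real.pi * t) : ℂ) * Complex.I := by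
  unfold ee
  rw [show 2 * (Real.pi : ℂ) * (t : ℂ) * Complex.I = ((2 * Real.pi * t : ℝ) : ℂ) * Complex.I by push_cast; ring,
    Complex.exp_mul_I]
  push_cast
  rfl

/-- the trigonometric integral -/
noncomputable def cF (Ψ : ℝ → ℝ) (m : ℤ) : ℂ := ∫ t in (0 : ℝ)..1, (Ψ t : ℂ) * ee (-(m * t))

theorem cF_eq {Ψ : ℝ → ℝ} (hc : Continuous Ψ) (m : ℤ) : cF Ψ m =
    ((∫ t in (0 : ℝ)..1, Ψ t * Real.cos (2 * Real.pi * (m * t)) : ℝ) : ℂ) -
    ((∫ t in (0 : ℝ)..1, Ψ t * Real.sin (2 * Real.pi * (m * t)) : ℝ) : ℂ) * Complex.I := by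
  unfold cF
  have h1 : Continuous fun t : ℝ => Ψ t * Real.cos (2 * Real.pi * (m * t)) := by fun_prop
  have h2 : Continuous fun t : ℝ => Ψ t * Real.sin (2 * Real.pi * (m * t)) := by fun_prop
  rw [← intervalIntegral.integral_ofReal, ← intervalIntegral.integral_ofReal, ← intervalIntegral.integral_mul_const,
    ← intervalIntegral.integral_sub]
  · apply intervalIntegral.integral_congr
    intro t _
    simp only
    rw [ee_re_im]
    have e1 : 2 * Real.pi * (-((m : ℝ) * t)) = -(2 * Real.pi * (m * t)) := by ring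
    rw [e1, Real.cos_neg, Real.sin_neg]
    push_cast
    ring
  · exact (Complex.continuous_ofReal.comp h1).intervalIntegrable _ _
  · exact ((Complex.continuous_ofReal.comp h2).mul continuous_const).intervalIntegrable _ _

variable {N : ℝ → ℤ → ℝ} {μ v α : ℝ} {θ : ℝ → ℝ} {Ψ : ℝ → ℝ} {δ : ℝ}

theorem trig_sum (L : Law N μ v α θ Ψ δ) {c : ℝ → ℝ} (hc : Continuous c) (hp : ∀ t, c (t + 1) = c t)
    (h1 : ∀ t, |c t| ≤ 1) : ∀ ε : ℝ, 0 < ε → ∃ K : ℝ, 0 < K ∧
    ∃ X₀ : ℝ, 2 ≤ X₀ ∧ ∀ x : ℝ, X₀ ≤ x → ∀ K' : ℝ, K ≤ K' → ∀ s : ℝ,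
      |∑ j ∈ win μ K' x, gn μ v x j * (Ψ (s - j * α) * c (s - j * α)) - ∫ t in (0 : ℝ)..1, Ψ t * c t| ≤ ε := by
  intro ε hε
  obtain ⟨K₁, hK1, X₁, hX1, a1⟩ := win_sum (μ := μ) L.irr L.cont L.per L.psi_nonneg L.v_pos 1 le_rfl (ε / 2)
    (by positivity)
  obtain ⟨K₂, hK2, X₂, hX2, a2⟩ := win_sum (μ := μ) (Φ := fun t => Ψ t * (1 + c t)) L.irr
    (L.cont.mul (continuous_const.add hc)) (fun t => by rw [L.per, hp])
    (fun t => mul_nonneg (L.psi_nonneg t) (by linarith [(abs_le.1 (h1 t)).1])) L.v_pos 1 le_rfl (ε / 2) (by positivity)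
  refine ⟨max K₁ K₂, lt_max_of_lt_left hK1, max X₁ X₂, le_max_of_le_left hX1, fun x hx K' hK' s => ?_⟩
  have b1 := a1 x ((le_max_left _ _).trans hx) K' ((le_max_left _ _).trans hK') s
  have b2 := a2 x ((le_max_right _ _).trans hx) K' ((le_max_right _ _).trans hK') s
  simp only [Nat.sub_self, pow_zero, one_mul, pow_one, Nat.cast_one, Real.sqrt_one, div_one, mul_add, mul_one,
    sum_add_distrib] at b1 b2
  have hint : ∫ t in (0 : ℝ)..1, (Ψ t + Ψ t * c t) = (∫ t in (0 : ℝ)..1, Ψ t) + ∫ t in (0 : ℝ)..1, Ψ t * c t :=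
    intervalIntegral.integral_add (L.cont.intervalIntegrable _ _) ((L.cont.mul hc).intervalIntegrable _ _)
  rw [hint] at b2
  have b3 : |(∑ j ∈ win μ K' x, gn μ v x j * (Ψ (s - j * α) * c (s - j * α)) - ∫ t in (0 : ℝ)..1, Ψ t * c t)| ≤
      ε / 2 + ε / 2 := by
    refine le_trans (le_of_eq ?_) ((abs_sub _ _).trans (add_le_add b2 b1))
    congr 1
    ring
  linarith

/-- THE SPECTRUM -/
theorem spectrum (L : Law N μ v α θ Ψ δ) (m : ℤ) :
    ∀ ε : ℝ, 0 < ε → ∃ K X₀ : ℝ, 2 ≤ X₀ ∧ ∀ x : ℝ, X₀ ≤ x → ∀ J : Finset ℤ, win μ K x ⊆ J →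
      ‖∑ j ∈ J, ee (m * α * j) * (N x j : ℂ) - x * (ee (m * θ x) * cF Ψ m)‖ ≤ ε * x := by
  intro ε hε
  have hcos : ∀ t : ℝ, Real.cos (2 * Real.pi * (m * (t + 1))) = Real.cos (2 * Real.pi * (m * t)) := by
    intro t
    rw [show 2 * Real.pi * (m * (t + 1)) = 2 * Real.pi * (m * t) + m * (2 * Real.pi) by ring]
    exact Real.cos_add_int_mul_two_pi _ _
  have hsin : ∀ t : ℝ, Real.sin (2 * Real.pi * (m * (t + 1))) = Real.sin (2 * Real.pi * (m * t)) := by
    intro t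
    rw [show 2 * Real.pi * (m * (t + 1)) = 2 * Real.pi * (m * t) + m * (2 * Real.pi) by ring]
    exact Real.sin_add_int_mul_two_pi _ _
  obtain ⟨K₀, hK0, X₁, hX1, h1⟩ := mass_out L (ε / 4) (by positivity)
  obtain ⟨K₂, hK2, X₂, hX2, h2⟩ := trig_sum L (c := fun t => Real.cos (2 * Real.pi * (m * t))) (by fun_prop) hcos
    (fun t => Real.abs_cos_le_one _) (ε / 8) (by positivity)
  obtain ⟨K₅, hK5, X₅, hX5, h5⟩ := trig_sum L (c := fun t => Real.sin (2 * Real.pi * (m * t))) (by fun_prop) hsin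
    (fun t => Real.abs_sin_le_one _) (ε / 8) (by positivity)
  set K : ℝ := max K₀ (max K₂ K₅) with hK
  obtain ⟨X₃, hX3, h3⟩ := L.loc K (ε / 8) (by positivity)
  obtain ⟨X₄, hX4, h4⟩ := gn_sum_le (μ := μ) L.v_pos L.irr
  refine ⟨K, max (max X₁ X₂) (max (max X₃ X₄) X₅), le_max_of_le_left (le_max_of_le_left hX1), fun x hx J hJ => ?_⟩
  have hx1 : X₁ ≤ x := ((le_max_left _ _).trans (le_max_left _ _)).trans hx
  have hx2 : X₂ ≤ x := ((le_max_right _ _).trans (le_max_left _ _)).trans hx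
  have hx3 : X₃ ≤ x := (((le_max_left _ _).trans (le_max_left _ _)).trans (le_max_right _ _)).trans hx
  have hx4 : X₄ ≤ x := (((le_max_right _ _).trans (le_max_left _ _)).trans (le_max_right _ _)).trans hx
  have hx5 : X₅ ≤ x := ((le_max_right _ _).trans (le_max_right _ _)).trans hx
  have hxx : 2 ≤ x := hX1.trans hx1
  have hx0 : 0 < x := by linarith
  have hl : 0 < Real.log x := Real.log_pos (by linarith)
  have hout : ‖∑ j ∈ J \ win μ K x, ee (m * α * j) * (N x j : ℂ)‖ ≤ ε / 4 * x := by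
    refine (norm_sum_le _ _).trans ?_
    refine le_trans (sum_le_sum fun j _ => ?_) (h1 x hx1 (J \ win μ K x) (fun j hj => by
      have := (Finset.mem_sdiff.1 hj).2
      rw [mem_win] at this
      exact lt_of_le_of_lt (mul_le_mul_of_nonneg_right (le_max_left K₀ _) (Real.sqrt_nonneg _)) (lt_of_not_ge this)))
    rw [norm_mul, Complex.norm_real, Real.norm_eq_abs, abs_of_nonneg (L.nonneg x j), norm_ee, one_mul]
  have hin : ‖∑ j ∈ win μ K x, ee (m * α * j) * (N x j : ℂ) - x * (ee (m * θ x) * cF Ψ m)‖ ≤ ε / 2 * x := by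
    have c2 := h2 x hx2 K ((le_max_left _ _).trans (le_max_right _ _)) (θ x)
    have c5 := h5 x hx5 K ((le_max_right _ _).trans (le_max_right _ _)) (θ x)
    have e1 : ∑ j ∈ win μ K x, ee (m * α * j) * (N x j : ℂ) =
        (x : ℂ) * (ee (m * θ x) * (((∑ j ∈ win μ K x, gn μ v x j * (Ψ (θ x - j * α) *
            Real.cos (2 * Real.pi * (m * (θ x - j * α)))) : ℝ) : ℂ) -
          ((∑ j ∈ win μ K x, gn μ v x j * (Ψ (θ x - j * α) *
            Real.sin (2 * Real.pi * (m * (θ x - j * α)))) : ℝ) : ℂ) * Complex.I)) +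
        ∑ j ∈ win μ K x, ((x * gn μ v x j * (N x j / (x * gn μ v x j) - Ψ (θ x - j * α)) : ℝ) : ℂ) * ee (m * α * j) := by
      rw [Complex.ofReal_sum, Complex.ofReal_sum, sum_mul, ← sum_sub_distrib, mul_sum, mul_sum, ← sum_add_distrib]
      apply sum_congr rfl
      intro j hj
      have hg := gn_pos (μ := μ) L.v_pos hl j
      have e2 : x * gn μ v x j * (N x j / (x * gn μ v x j) - Ψ (θ x - j * α)) =
          N x j - x * gn μ v x j * Ψ (θ x - j * α) := by
        field_simp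
      have e3 : ee (m * α * j) = ee (m * θ x) * (((Real.cos (2 * Real.pi * (m * (θ x - j * α))) : ℝ) : ℂ) -
          ((Real.sin (2 * Real.pi * (m * (θ x - j * α))) : ℝ) : ℂ) * Complex.I) := by
        have e4 : ((Real.cos (2 * Real.pi * (m * (θ x - j * α))) : ℝ) : ℂ) -
          ((Real.sin (2 * Real.pi * (m * (θ x - j * α))) : ℝ) : ℂ) * Complex.I = ee (-(m * (θ x - j * α))) := by
          rw [ee_re_im, show 2 * Real.pi * (-((m : ℝ) * (θ x - j * α))) = -(2 * Real.pi * (m * (θ x - j * α))) by ring,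
            Real.cos_neg, Real.sin_neg]
          push_cast
          ring
        rw [e4, ← ee_add]
        congr 1
        ring
      rw [e2, e3]
      push_cast
      ring
    rw [e1, cF_eq L.cont]
    set A1 : ℝ := ∑ j ∈ win μ K x, gn μ v x j * (Ψ (θ x - j * α) * Real.cos (2 * Real.pi * (m * (θ x - j * α)))) with hA1
    set A2 : ℝ := ∑ j ∈ win μ K x, gn μ v x j * (Ψ (θ x - j * α) * Real.sin (2 * Real.pi * (m * (θ x - j * α)))) with hA2
    set B1 : ℝ := ∫ t in (0 : ℝ)..1, Ψ t * Real.cos (2 * Real.pi * (m * t)) with hB1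
    set B2 : ℝ := ∫ t in (0 : ℝ)..1, Ψ t * Real.sin (2 * Real.pi * (m * t)) with hB2
    set R : ℂ := ∑ j ∈ win μ K x, ((x * gn μ v x j * (N x j / (x * gn μ v x j) - Ψ (θ x - j * α)) : ℝ) : ℂ) *
      ee (m * α * j) with hR
    have e5 : (x : ℂ) * (ee (m * θ x) * ((A1 : ℂ) - (A2 : ℂ) * Complex.I)) + R -
        x * (ee (m * θ x) * ((B1 : ℂ) - (B2 : ℂ) * Complex.I)) =
        (x : ℂ) * (ee (m * θ x) * (((A1 - B1 : ℝ) : ℂ) - ((A2 - B2 : ℝ) : ℂ) * Complex.I)) + R := by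
      push_cast
      ring
    rw [e5]
    refine (norm_add_le _ _).trans ?_
    have a1 : ‖(x : ℂ) * (ee (m * θ x) * (((A1 - B1 : ℝ) : ℂ) - ((A2 - B2 : ℝ) : ℂ) * Complex.I))‖ ≤ ε / 4 * x := by
      rw [norm_mul, norm_mul, norm_ee, one_mul, Complex.norm_real, Real.norm_eq_abs, abs_of_pos hx0, mul_comm]
      apply mul_le_mul_of_nonneg_right _ hx0.le
      refine (norm_sub_le _ _).trans ?_
      rw [norm_mul, Complex.norm_I, mul_one, Complex.norm_real, Complex.norm_real, Real.norm_eq_abs, Real.norm_eq_abs]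
      linarith
    have a2 : ‖R‖ ≤ ε / 4 * x := by
      rw [hR]
      refine (norm_sum_le _ _).trans ?_
      have : ∀ j ∈ win μ K x, ‖((x * gn μ v x j * (N x j / (x * gn μ v x j) - Ψ (θ x - j * α)) : ℝ) : ℂ) * ee (m * α * j)‖ ≤
          (x * (ε / 8)) * gn μ v x j := by
        intro j hj
        have hg := gn_pos (μ := μ) L.v_pos hl j
        rw [norm_mul, norm_ee, mul_one, Complex.norm_real, Real.norm_eq_abs, abs_mul, abs_of_pos (by positivity)]
        have h6 := h3 x hx3 j (mem_win.1 hj)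
        calc x * gn μ v x j * |N x j / (x * gn μ v x j) - Ψ (θ x - j * α)|
            ≤ x * gn μ v x j * (ε / 8) := mul_le_mul_of_nonneg_left h6 (by positivity)
          _ = _ := by ring
      refine (sum_le_sum this).trans ?_
      rw [← mul_sum]
      have h7 := h4 x hx4 (win μ K x)
      nlinarith [mul_pos hx0 hε]
    linarith
  have e : ∑ j ∈ J, ee (m * α * j) * (N x j : ℂ) = ∑ j ∈ win μ K x, ee (m * α * j) * (N x j : ℂ) +
      ∑ j ∈ J \ win μ K x, ee (m * α * j) * (N x j : ℂ) := by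
    rw [← sum_union disjoint_sdiff, union_sdiff_of_subset hJ]
  rw [e, add_sub_right_comm]
  refine (norm_add_le _ _).trans ?_
  have := mul_pos hε hx0
  linarith

end Pool.Agent.U923.CZ
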