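import Pool.Agent.U923.CZ.Avg

/-!
The transfer principle for a local limit law with a periodic factor.
-/

set_option autoImplicit false

namespace Pool.Agent.U923.CZ

open Finset Filter Topology
open Pool.Agent.R468.MF (gn sd win mem_win gn_pos gn_le sd_pos Law full_sum mass_out per_bound)
open Pool.Agent.Helper602.MK (ee)
open Pool.Agent.H705R2 (Circ)

theorem gn_sum_le {μ v α : ℝ} (hv : 0 < v) (hα : Irrational α) : ∃ X₀ : ℝ, 2 ≤ X₀ ∧ ∀ x : ℝ, X₀ ≤ x →
    ∀ J : Finset ℤ, ∑ j ∈ J, gn μ v x j ≤ 2 := by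
  obtain ⟨X₄, hX4, h4⟩ := full_sum (Φ := fun _ => 1) hα continuous_const (fun _ => rfl) (μ := μ) hv 1 le_rfl 1 one_pos
  refine ⟨X₄, hX4, fun x hx J => ?_⟩
  have hl : 0 < Real.log x := Real.log_pos (by linarith)
  obtain ⟨hs4, a2⟩ := h4 x hx 0
  simp only [Nat.sub_self, pow_zero, one_mul, pow_one, Nat.cast_one, Real.sqrt_one, div_one, mul_one,
    intervalIntegral.integral_const, sub_zero, smul_eq_mul] at a2 hs4
  have := hs4.sum_le_tsum J (fun j _ => (gn_pos hv hl j).le)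
  linarith [(abs_le.1 a2).2]

theorem gauss_small {μ v α : ℝ} (hμ : 0 < μ) (hv : 0 < v) (hα : Irrational α) {ι : Type*} {F : ι → ℕ → ℂ} {B : ℝ}
    (hB : 0 ≤ B) (hFB : ∀ i k, ‖F i k‖ ≤ B) (hF : SmU F) {K : ℝ} (hK : 1 ≤ K) :
    ∀ ε : ℝ, 0 < ε → ∃ X₀ : ℝ, 2 ≤ X₀ ∧ ∀ x : ℝ, X₀ ≤ x → ∀ i : ι,
      ‖∑ j ∈ win μ K x, (gn μ v x j : ℂ) * F i j.toNat‖ ≤ ε := by
  intro ε hε
  have hpi := Real.pi_pos
  set C : ℝ := 2 * Real.sqrt (2 * μ) * (B * (2 + 9 * K ^ 2 / (2 * v))) / Real.sqrt (2 * Real.pi * v) with hC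
  have hC0 : 0 ≤ C := by positivity
  set η : ℝ := ε / (2 + C) with hη
  have hη0 : 0 < η := by positivity
  obtain ⟨Y, hY⟩ := hF η hη0
  obtain ⟨X₁, hX1, h1⟩ := gn_sum_le (μ := μ) hv hα
  -- conditions on `L`
  have hLs : Tendsto (fun x : ℝ => Real.sqrt (Real.log x)) atTop atTop :=
    Real.tendsto_sqrt_atTop.comp Real.tendsto_log_atTop
  obtain ⟨X₂, hX₂⟩ := eventually_atTop.1 ((hLs.eventually_ge_atTop 1).and
    ((hLs.eventually_ge_atTop (2 * K / μ)).and ((hLs.eventually_ge_atTop (2 * (Y + 1) / μ)).and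
    (hLs.eventually_ge_atTop (1 / (η * Real.sqrt (2 * μ)))))))
  refine ⟨max X₁ X₂, le_max_of_le_left hX1, fun x hx i => ?_⟩
  obtain ⟨b1, b2, b3, b4⟩ := hX₂ x ((le_max_right _ _).trans hx)
  have hx1 : X₁ ≤ x := (le_max_left _ _).trans hx
  have hx2 : 2 ≤ x := hX1.trans hx1
  have hl : 0 < Real.log x := Real.log_pos (by linarith)
  set L : ℝ := Real.log x with hL
  set r : ℝ := Real.sqrt L with hr
  have hr2 : r ^ 2 = L := Real.sq_sqrt hl.le
  have hr0 : 0 < r := by linarith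
  have hm2 : 0 < Real.sqrt (2 * μ) := Real.sqrt_pos.2 (by positivity)
  rw [div_le_iff₀ hμ] at b2 b3
  rw [div_le_iff₀ (by positivity)] at b4
  have hKr : 2 * (K * r) ≤ μ * L := by
    rw [← hr2]
    nlinarith
  have hYr : (Y : ℝ) + 1 ≤ μ * L - K * r := by
    have h2 : 2 * ((Y : ℝ) + 1) ≤ μ * L := by
      rw [← hr2]
      nlinarith [(Nat.cast_nonneg Y : (0 : ℝ) ≤ Y)]
    linarith
  obtain ⟨A, M, hmem, hsum⟩ := win_range (μ := μ) (K := K) (x := x) (fun j => (gn μ v x j : ℂ) * F i j.toNat) (by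
    rw [← hL, ← hr]
    linarith [(Nat.cast_nonneg Y : (0 : ℝ) ≤ Y)])
  rw [hsum]
  have hin : ∀ t : ℕ, t < M → |((A + t : ℕ) : ℝ) - μ * L| ≤ K * r := by
    intro t ht
    have := (hmem ((A + t : ℕ) : ℤ)).2 ⟨t, ht, rfl⟩
    rw [mem_win, ← hL, ← hr] at this
    exact_mod_cast this
  rcases Nat.eq_zero_or_pos M with hM0 | hM0
  · subst hM0
    simp only [range_zero, sum_empty, norm_zero]
    exact hε.le
  have hMle : (M : ℝ) ≤ 3 * K * r := by
    have i1 := hin 0 hM0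
    have i2 := hin (M - 1) (by omega)
    rw [abs_le] at i1 i2
    have e : ((A + (M - 1) : ℕ) : ℝ) = A + M - 1 := by
      have : A + (M - 1) + 1 = A + M := by omega
      have h3 : (((A + (M - 1) : ℕ) : ℝ)) + 1 = A + M := by exact_mod_cast this
      linarith
    rw [e] at i2
    push_cast at i1
    have hK1 : 1 ≤ K * r := by nlinarith
    nlinarith
  set H : ℕ := ⌈η * Real.sqrt (2 * μ * L)⌉₊ with hH
  have hsq : Real.sqrt (2 * μ * L) = Real.sqrt (2 * μ) * r := by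
    rw [Real.sqrt_mul (by positivity)]
  have hHpos : 0 < η * Real.sqrt (2 * μ * L) := by rw [hsq]; positivity
  have hH1 : 1 ≤ H := Nat.one_le_ceil_iff.2 hHpos
  have hHle : (H : ℝ) ≤ 2 * η * Real.sqrt (2 * μ) * r := by
    have := Nat.ceil_lt_add_one hHpos.le
    rw [← hH, hsq] at this
    nlinarith
  have hsd : sd v x = Real.sqrt (2 * Real.pi * v) * r := by
    unfold sd
    rw [← hL, show 2 * Real.pi * (v * L) = 2 * Real.pi * v * L by ring, Real.sqrt_mul (by positivity)]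
  have hsd0 : 0 < sd v x := sd_pos hv hl
  have hc0 : 0 < Real.sqrt (2 * Real.pi * v) := Real.sqrt_pos.2 (by positivity)
  have key := shift_avg (G := fun t => gn μ v x ((A + t : ℕ) : ℤ)) (F := fun t => F i (A + t)) (g := 1 / sd v x)
    (D := (2 * (K * r) + 1) / (2 * (v * L)) / sd v x) (B := B) (η := η) hB (fun k => hFB i _) M H hH1
    (by positivity) (by positivity) (fun t _ => (gn_pos hv hl _).le) (fun t _ => gn_le hv hl _)
    (fun t ht => by
      have h2 := gn_step (μ := μ) hv hl (R := K * r) (j := ((A + t : ℕ) : ℤ)) (by exact_mod_cast hin t ht)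
      have e : ((A + (t + 1) : ℕ) : ℤ) = ((A + t : ℕ) : ℤ) + 1 := by push_cast; ring
      simp only [e]
      exact h2)
    (fun t ht => by
      have h2 := hin t ht
      rw [abs_le] at h2
      have h3 : Y ≤ A + t := by
        have : (Y : ℝ) ≤ ((A + t : ℕ) : ℝ) := by linarith
        exact_mod_cast this
      have h4 : η * Real.sqrt ((A + t : ℕ) : ℝ) ≤ H := by
        refine le_trans ?_ (Nat.le_ceil _)
        apply mul_le_mul_of_nonneg_left _ hη0.le
        apply Real.sqrt_le_sqrt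
        linarith
      have h5 := hY (A + t) H h3 h4 i
      refine le_trans (le_of_eq ?_) h5
      congr 1
      apply sum_congr rfl
      intro k _
      rw [add_assoc])
  have e1 : ∑ t ∈ range M, (gn μ v x ((A + t : ℕ) : ℤ) : ℂ) * F i (((A + t : ℕ) : ℤ)).toNat =
      ∑ t ∈ range M, (gn μ v x ((A + t : ℕ) : ℤ) : ℂ) * F i (A + t) := by
    apply sum_congr rfl
    intro t _
    rw [Int.toNat_natCast]
  rw [e1]
  refine key.trans ?_
  have hG2 : ∑ t ∈ range M, gn μ v x ((A + t : ℕ) : ℤ) ≤ 2 := by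
    have h2 := h1 x hx1 ((range M).image fun t => ((A + t : ℕ) : ℤ))
    rw [sum_image] at h2
    · exact h2
    · intro t _ t' _ h
      simp only at h
      omega
  have hD : (M : ℝ) * ((2 * (K * r) + 1) / (2 * (v * L)) / sd v x) ≤ 9 * K ^ 2 / (2 * v) * (1 / sd v x) := by
    have h2 : 2 * (K * r) + 1 ≤ 3 * K * r := by nlinarith
    have h3 : (M : ℝ) * (2 * (K * r) + 1) ≤ (3 * K * r) * (3 * K * r) :=
      mul_le_mul hMle h2 (by positivity) (by positivity)
    have h4 : (M : ℝ) * ((2 * (K * r) + 1) / (2 * (v * L)) / sd v x) =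
        (M * (2 * (K * r) + 1)) / (2 * (v * L)) * (1 / sd v x) := by ring
    rw [h4]
    apply mul_le_mul_of_nonneg_right _ (by positivity)
    rw [div_le_div_iff₀ (by positivity) (by positivity)]
    calc (M : ℝ) * (2 * (K * r) + 1) * (2 * v) ≤ (3 * K * r) * (3 * K * r) * (2 * v) :=
          mul_le_mul_of_nonneg_right h3 (by positivity)
      _ = 9 * K ^ 2 * (2 * (v * r ^ 2)) := by ring
      _ = 9 * K ^ 2 * (2 * (v * L)) := by rw [hr2]
  have hE : (H : ℝ) * (B * (2 * (1 / sd v x) + M * ((2 * (K * r) + 1) / (2 * (v * L)) / sd v x))) ≤ η * C := by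
    calc (H : ℝ) * (B * (2 * (1 / sd v x) + M * ((2 * (K * r) + 1) / (2 * (v * L)) / sd v x)))
        ≤ (2 * η * Real.sqrt (2 * μ) * r) * (B * (2 * (1 / sd v x) + 9 * K ^ 2 / (2 * v) * (1 / sd v x))) := by
          apply mul_le_mul hHle _ (by positivity) (by positivity)
          apply mul_le_mul_of_nonneg_left _ hB
          linarith
      _ = η * C := by
          rw [hsd, hC]
          field_simp
  have hfin : η * ∑ t ∈ range M, gn μ v x ((A + t : ℕ) : ℤ) ≤ η * 2 := mul_le_mul_of_nonneg_left hG2 hη0.le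
  have h9 : η * 2 + η * C = ε := by
    rw [hη]
    field_simp
  linarith

variable {N : ℝ → ℤ → ℝ} {μ v α : ℝ} {θ : ℝ → ℝ} {Ψ : ℝ → ℝ} {δ : ℝ}

/-- THE TRANSFER PRINCIPLE -/
theorem transfer (L : Law N μ v α θ Ψ δ) (hμ : 0 < μ) {f : ℕ → ℂ} (hf1 : ∀ k, ‖f k‖ ≤ 1) (hf : STw α f) :
    ∀ ε : ℝ, 0 < ε → ∃ K X₀ : ℝ, 2 ≤ X₀ ∧ ∀ x : ℝ, X₀ ≤ x → ∀ J : Finset ℤ, win μ K x ⊆ J →
      ‖∑ j ∈ J, f j.toNat * (N x j : ℂ)‖ ≤ ε * x := by
  intro ε hε
  -- the continuous function on the circle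
  have hper : Function.Periodic Ψ 1 := L.per
  let P : Circ → ℝ := hper.lift
  have hP : ∀ t : ℝ, P (t : Circ) = Ψ t := fun t => hper.lift_coe t
  have hPc : Continuous P := by
    have hq : Topology.IsQuotientMap ((↑) : ℝ → Circ) := QuotientAddGroup.isQuotientMap_mk _
    rw [hq.continuous_iff]
    have : P ∘ ((↑) : ℝ → Circ) = Ψ := funext hP
    rw [this]
    exact L.cont
  let Φ : C(Circ, ℂ) := ⟨fun z => (P z : ℂ), Complex.continuous_ofReal.comp hPc⟩
  have hΦ : ∀ t : ℝ, Φ (t : Circ) = (Ψ t : ℂ) := fun t => by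
    change ((P (t : Circ) : ℝ) : ℂ) = _
    rw [hP]
  obtain ⟨t₀, ht₀⟩ := per_bound L.cont L.per
  have hsm := closure_rot hf1 hf Φ
  have hbd : ∀ (s : ℝ) (k : ℕ), ‖f k * Φ ((s - k * α : ℝ) : Circ)‖ ≤ Ψ t₀ := by
    intro s k
    rw [norm_mul, hΦ, Complex.norm_real, Real.norm_eq_abs, abs_of_nonneg (L.psi_nonneg _)]
    calc ‖f k‖ * Ψ (s - k * α) ≤ 1 * Ψ t₀ := mul_le_mul (hf1 k) (ht₀ _) (L.psi_nonneg _) (by norm_num)
      _ = Ψ t₀ := one_mul _
  obtain ⟨K₀, hK0, X₁, hX1, h1⟩ := mass_out L (ε / 4) (by positivity)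
  set K : ℝ := max K₀ 1 with hK
  have hK1 : 1 ≤ K := le_max_right _ _
  obtain ⟨X₂, hX2, h2⟩ := gauss_small (μ := μ) hμ L.v_pos L.irr (L.psi_nonneg t₀) hbd hsm hK1 (ε / 4) (by positivity)
  obtain ⟨X₃, hX3, h3⟩ := L.loc K (ε / 8) (by positivity)
  obtain ⟨X₄, hX4, h4⟩ := gn_sum_le (μ := μ) L.v_pos L.irr
  have hLs : Tendsto (fun x : ℝ => Real.sqrt (Real.log x)) atTop atTop :=
    Real.tendsto_sqrt_atTop.comp Real.tendsto_log_atTop
  obtain ⟨X₅, hX₅⟩ := eventually_atTop.1 (hLs.eventually_ge_atTop (K / μ))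
  refine ⟨K, max (max X₁ X₂) (max (max X₃ X₄) X₅), le_max_of_le_left (le_max_of_le_left hX1), fun x hx J hJ => ?_⟩
  have hx1 : X₁ ≤ x := ((le_max_left _ _).trans (le_max_left _ _)).trans hx
  have hx2 : X₂ ≤ x := ((le_max_right _ _).trans (le_max_left _ _)).trans hx
  have hx3 : X₃ ≤ x := (((le_max_left _ _).trans (le_max_left _ _)).trans (le_max_right _ _)).trans hx
  have hx4 : X₄ ≤ x := (((le_max_right _ _).trans (le_max_left _ _)).trans (le_max_right _ _)).trans hx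
  have hx5 : X₅ ≤ x := ((le_max_right _ _).trans (le_max_right _ _)).trans hx
  have hxx : 2 ≤ x := hX1.trans hx1
  have hx0 : 0 < x := by linarith
  have hl : 0 < Real.log x := Real.log_pos (by linarith)
  -- outside
  have hout : ‖∑ j ∈ J \ win μ K x, f j.toNat * (N x j : ℂ)‖ ≤ ε / 4 * x := by
    refine (norm_sum_le _ _).trans ?_
    refine le_trans (sum_le_sum fun j _ => ?_) (h1 x hx1 (J \ win μ K x) (fun j hj => by
      have := (Finset.mem_sdiff.1 hj).2
      rw [mem_win] at this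
      exact lt_of_le_of_lt (mul_le_mul_of_nonneg_right (le_max_left K₀ 1) (Real.sqrt_nonneg _)) (lt_of_not_ge this)))
    rw [norm_mul, Complex.norm_real, Real.norm_eq_abs, abs_of_nonneg (L.nonneg x j)]
    calc ‖f j.toNat‖ * N x j ≤ 1 * N x j := mul_le_mul_of_nonneg_right (hf1 _) (L.nonneg x j)
      _ = N x j := one_mul _
  -- inside
  have hin : ‖∑ j ∈ win μ K x, f j.toNat * (N x j : ℂ)‖ ≤ ε / 2 * x := by
    have hpos : ∀ j ∈ win μ K x, (((j.toNat : ℕ) : ℝ)) = j := by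
      intro j hj
      rw [mem_win, abs_le] at hj
      have h5 := hX₅ x hx5
      rw [div_le_iff₀ hμ] at h5
      have h6 : K * Real.sqrt (Real.log x) ≤ μ * Real.log x := by
        have h7 : Real.sqrt (Real.log x) ^ 2 = Real.log x := Real.sq_sqrt hl.le
        have h8 : 0 ≤ Real.sqrt (Real.log x) := Real.sqrt_nonneg _
        nlinarith
      have h7 : (0 : ℝ) ≤ j := by linarith
      have h8 : 0 ≤ j := by exact_mod_cast h7
      exact_mod_cast Int.toNat_of_nonneg h8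
    have e1 : ∑ j ∈ win μ K x, f j.toNat * (N x j : ℂ) =
        (x : ℂ) * ∑ j ∈ win μ K x, (gn μ v x j : ℂ) * (f j.toNat * Φ ((θ x - j.toNat * α : ℝ) : Circ)) +
        ∑ j ∈ win μ K x, ((x * gn μ v x j * (N x j / (x * gn μ v x j) - Ψ (θ x - j * α)) : ℝ) : ℂ) * f j.toNat := by
      rw [mul_sum, ← sum_add_distrib]
      apply sum_congr rfl
      intro j hj
      rw [hΦ, hpos j hj]
      have hg := gn_pos (μ := μ) L.v_pos hl j
      have e2 : x * gn μ v x j * (N x j / (x * gn μ v x j) - Ψ (θ x - j * α)) =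
          N x j - x * gn μ v x j * Ψ (θ x - j * α) := by
        field_simp
      rw [e2]
      push_cast
      ring
    rw [e1]
    refine (norm_add_le _ _).trans ?_
    have a1 : ‖(x : ℂ) * ∑ j ∈ win μ K x, (gn μ v x j : ℂ) * (f j.toNat * Φ ((θ x - j.toNat * α : ℝ) : Circ))‖ ≤ ε / 4 * x := by
      rw [norm_mul, Complex.norm_real, Real.norm_eq_abs, abs_of_pos hx0, mul_comm]
      exact mul_le_mul_of_nonneg_right (h2 x hx2 (θ x)) hx0.le
    have a2 : ‖∑ j ∈ win μ K x, ((x * gn μ v x j * (N x j / (x * gn μ v x j) - Ψ (θ x - j * α)) : ℝ) : ℂ) * f j.toNat‖ ≤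
        ε / 4 * x := by
      refine (norm_sum_le _ _).trans ?_
      have : ∀ j ∈ win μ K x, ‖((x * gn μ v x j * (N x j / (x * gn μ v x j) - Ψ (θ x - j * α)) : ℝ) : ℂ) * f j.toNat‖ ≤
          (x * (ε / 8)) * gn μ v x j := by
        intro j hj
        have hg := gn_pos (μ := μ) L.v_pos hl j
        rw [norm_mul, Complex.norm_real, Real.norm_eq_abs, abs_mul, abs_of_pos (by positivity)]
        have h6 := h3 x hx3 j (mem_win.1 hj)
        calc x * gn μ v x j * |N x j / (x * gn μ v x j) - Ψ (θ x - j * α)| * ‖f j.toNat‖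
            ≤ x * gn μ v x j * (ε / 8) * 1 := by
              apply mul_le_mul _ (hf1 _) (norm_nonneg _) (by positivity)
              exact mul_le_mul_of_nonneg_left h6 (by positivity)
          _ = _ := by ring
      refine (sum_le_sum this).trans ?_
      rw [← mul_sum]
      have h7 := h4 x hx4 (win μ K x)
      nlinarith [mul_pos hx0 hε]
    linarith
  have e : ∑ j ∈ J, f j.toNat * (N x j : ℂ) = ∑ j ∈ win μ K x, f j.toNat * (N x j : ℂ) +
      ∑ j ∈ J \ win μ K x, f j.toNat * (N x j : ℂ) := by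
    rw [← sum_union disjoint_sdiff, union_sdiff_of_subset hJ]
  rw [e]
  refine (norm_add_le _ _).trans ?_
  have := mul_pos hε hx0
  linarith

end Pool.Agent.U923.CZ
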