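import Pool.Agent.R468.MF.Tup
import Pool.Agent.Helper602.MK.J5b

/-!
Window sums: functions with small twisted sums over the intervals `(y, y + H]`, `H ≥ ε √y`, and Gaussian
averages of such functions.
-/

set_option autoImplicit false

namespace Pool.Agent.U923.CZ

open Finset
open Pool.Agent.R468.MF (gn sd win mem_win gn_pos gn_le sd_pos)
open Pool.Agent.Helper602.MK (ee)
open Pool.Agent.Helper602.MK.N_J5b (ee_add ee_zero ee_conj norm_ee)
open Pool.Agent.H705R2 (Circ)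

/-- small sums over all the intervals of length at least `ε √y` -/
def Sm (F : ℕ → ℂ) : Prop :=
  ∀ ε : ℝ, 0 < ε → ∃ Y : ℕ, ∀ y H : ℕ, Y ≤ y → ε * Real.sqrt y ≤ H → ‖∑ i ∈ range H, F (y + i)‖ ≤ ε * H

/-- small sums with all the twists by multiples of `α` -/
def STw (α : ℝ) (f : ℕ → ℂ) : Prop := ∀ m : ℤ, Sm fun k => f k * ee (m * α * k)

/-- uniform smallness for a family -/
def SmU {ι : Type*} (F : ι → ℕ → ℂ) : Prop :=
  ∀ ε : ℝ, 0 < ε → ∃ Y : ℕ, ∀ y H : ℕ, Y ≤ y → ε * Real.sqrt y ≤ H → ∀ i : ι, ‖∑ n ∈ range H, F i (y + n)‖ ≤ ε * H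

theorem Sm.mono_eps {F : ℕ → ℂ} (h : ∀ ε : ℝ, 0 < ε → ∃ ε' : ℝ, 0 < ε' ∧ ε' ≤ ε ∧ ∃ Y : ℕ, ∀ y H : ℕ, Y ≤ y →
    ε' * Real.sqrt y ≤ H → ‖∑ i ∈ range H, F (y + i)‖ ≤ ε * H) : Sm F := by
  intro ε hε
  obtain ⟨ε', h1, h2, Y, hY⟩ := h ε hε
  exact ⟨Y, fun y H hy hH => hY y H hy ((mul_le_mul_of_nonneg_right h2 (Real.sqrt_nonneg _)).trans hH)⟩

theorem Sm.add {F G : ℕ → ℂ} (hF : Sm F) (hG : Sm G) : Sm fun k => F k + G k := by
  intro ε hε
  obtain ⟨Y1, h1⟩ := hF (ε / 2) (by positivity)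
  obtain ⟨Y2, h2⟩ := hG (ε / 2) (by positivity)
  refine ⟨max Y1 Y2, fun y H hy hH => ?_⟩
  have hs : ε / 2 * Real.sqrt y ≤ H := by
    have := Real.sqrt_nonneg (y : ℝ)
    nlinarith
  rw [sum_add_distrib]
  refine (norm_add_le _ _).trans ?_
  have a1 := h1 y H ((le_max_left _ _).trans hy) hs
  have a2 := h2 y H ((le_max_right _ _).trans hy) hs
  linarith

theorem Sm.const_mul {F : ℕ → ℂ} (hF : Sm F) (c : ℂ) : Sm fun k => c * F k := by
  intro ε hε
  have hc := norm_nonneg c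
  have hd : (0 : ℝ) < ‖c‖ + 1 := by positivity
  obtain ⟨Y1, h1⟩ := hF (ε / (‖c‖ + 1)) (by positivity)
  refine ⟨Y1, fun y H hy hH => ?_⟩
  have hle : ε / (‖c‖ + 1) ≤ ε := div_le_self hε.le (by linarith)
  have hs : ε / (‖c‖ + 1) * Real.sqrt y ≤ H :=
    (mul_le_mul_of_nonneg_right hle (Real.sqrt_nonneg _)).trans hH
  rw [← mul_sum, norm_mul]
  have a1 := h1 y H hy hs
  calc ‖c‖ * ‖∑ i ∈ range H, F (y + i)‖ ≤ (‖c‖ + 1) * (ε / (‖c‖ + 1) * H) :=
        mul_le_mul (by linarith) a1 (norm_nonneg _) hd.le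
    _ = ε * H := by field_simp

/-- bounded sums are small -/
theorem Sm.of_bounded {F : ℕ → ℂ} {C : ℝ} (h : ∀ y H : ℕ, ‖∑ i ∈ range H, F (y + i)‖ ≤ C) : Sm F := by
  intro ε hε
  have hC : 0 ≤ C := (norm_nonneg _).trans (h 0 0)
  refine ⟨⌈(C / (ε * ε)) ^ 2⌉₊, fun y H hy hH => (h y H).trans ?_⟩
  have h1 : (C / (ε * ε)) ^ 2 ≤ y := (Nat.le_ceil _).trans (by exact_mod_cast hy)
  have h2 : C / (ε * ε) ≤ Real.sqrt y := Real.le_sqrt_of_sq_le h1
  rw [div_le_iff₀ (by positivity)] at h2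
  calc C ≤ Real.sqrt y * (ε * ε) := h2
    _ = ε * (ε * Real.sqrt y) := by ring
    _ ≤ ε * H := mul_le_mul_of_nonneg_left hH hε.le

/-- the geometric sum -/
theorem geom_window {z : ℂ} (hz : ‖z‖ = 1) (hz1 : z ≠ 1) (c : ℂ) (y H : ℕ) :
    ‖∑ i ∈ range H, c * z ^ (y + i)‖ ≤ ‖c‖ * (2 / ‖z - 1‖) := by
  have e1 : ∑ i ∈ range H, c * z ^ (y + i) = c * (z ^ y * ∑ i ∈ range H, z ^ i) := by
    rw [mul_sum, mul_sum]
    exact sum_congr rfl fun i _ => by rw [pow_add]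
  have hd : 0 < ‖z - 1‖ := norm_pos_iff.2 (sub_ne_zero.2 hz1)
  rw [e1, norm_mul, norm_mul, norm_pow, hz, one_pow, one_mul, geom_sum_eq hz1, norm_div]
  apply mul_le_mul_of_nonneg_left _ (norm_nonneg _)
  apply div_le_div_of_nonneg_right _ hd.le
  refine (norm_sub_le _ _).trans ?_
  rw [norm_pow, hz, one_pow, norm_one]
  norm_num

theorem ee_nat_mul' (x : ℝ) (k : ℕ) : ee (x * k) = ee x ^ k := by
  unfold ee
  rw [← Complex.exp_nat_mul]
  congr 1
  push_cast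
  ring

theorem ee_eq_one_iff' (t : ℝ) : ee t = 1 ↔ ∃ n : ℤ, t = n := by
  unfold ee
  rw [Complex.exp_eq_one_iff]
  have hpi : (2 * (Real.pi : ℂ) * Complex.I) ≠ 0 := by
    simp [Real.pi_ne_zero, Complex.I_ne_zero]
  constructor
  · rintro ⟨n, hn⟩
    refine ⟨n, ?_⟩
    have h1 : (2 * (Real.pi : ℂ) * Complex.I) * t = (2 * (Real.pi : ℂ) * Complex.I) * n := by
      linear_combination hn
    have h2 := mul_left_cancel₀ hpi h1
    exact_mod_cast h2
  · rintro ⟨n, rfl⟩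
    exact ⟨n, by push_cast; ring⟩

/-- linear phases -/
theorem sm_linear {β : ℝ} (hβ : ∀ n : ℤ, β ≠ n) (c : ℂ) : Sm fun k => c * ee (β * k) := by
  have hz : ee β ≠ 1 := fun h => by
    obtain ⟨n, hn⟩ := (ee_eq_one_iff' β).1 h
    exact hβ n hn
  refine Sm.of_bounded (C := ‖c‖ * (2 / ‖ee β - 1‖)) fun y H => ?_
  have := geom_window (norm_ee β) hz c y H
  refine le_trans (le_of_eq ?_) this
  congr 1
  apply sum_congr rfl
  intro i _
  rw [ee_nat_mul']

/-! ### continuous functions along the rotation -/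

theorem fourier_ee (n : ℤ) (t : ℝ) : (fourier n (t : Circ) : ℂ) = ee (n * t) := by
  rw [fourier_coe_apply]
  unfold ee
  congr 1
  push_cast
  ring

/-- small sums of `f k Φ (θ - k α)`, uniformly in `θ` -/
theorem closure_rot {α : ℝ} {f : ℕ → ℂ} (hf1 : ∀ k, ‖f k‖ ≤ 1) (hf : STw α f) (Φ : C(Circ, ℂ)) :
    SmU (ι := ℝ) fun θ k => f k * Φ ((θ - k * α : ℝ) : Circ) := by
  have hmem : ∀ g ∈ (Submodule.span ℂ (Set.range <| @fourier 1)),
      SmU (ι := ℝ) fun θ k => f k * g ((θ - k * α : ℝ) : Circ) := by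
    intro g hg
    induction hg using Submodule.span_induction with
    | mem g hg =>
      obtain ⟨n, rfl⟩ := hg
      intro ε hε
      obtain ⟨Y, hY⟩ := hf (-n) ε hε
      refine ⟨Y, fun y H hy hH θ => ?_⟩
      have h1 := hY y H hy hH
      have e1 : ∑ i ∈ range H, f (y + i) * (fourier n ((θ - ((y + i : ℕ) : ℝ) * α : ℝ) : Circ) : ℂ) =
          ee (n * θ) * ∑ i ∈ range H, f (y + i) * ee (((-n : ℤ) : ℝ) * α * ((y + i : ℕ) : ℝ)) := by
        rw [mul_sum]
        apply sum_congr rfl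
        intro i _
        rw [fourier_ee]
        have : (n : ℝ) * (θ - ((y + i : ℕ) : ℝ) * α) = n * θ + ((-n : ℤ) : ℝ) * α * ((y + i : ℕ) : ℝ) := by
          push_cast
          ring
        rw [this, ee_add]
        ring
      rw [e1, norm_mul, norm_ee, one_mul]
      exact h1
    | zero =>
      intro ε hε
      refine ⟨0, fun y H _ _ θ => ?_⟩
      simp only [ContinuousMap.zero_apply, mul_zero, sum_const_zero, norm_zero]
      positivity
    | add g g' _ _ ih ih' =>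
      intro ε hε
      obtain ⟨Y1, h1⟩ := ih (ε / 2) (by positivity)
      obtain ⟨Y2, h2⟩ := ih' (ε / 2) (by positivity)
      refine ⟨max Y1 Y2, fun y H hy hH θ => ?_⟩
      have hs : ε / 2 * Real.sqrt y ≤ H := by
        have := Real.sqrt_nonneg (y : ℝ)
        nlinarith
      have a1 := h1 y H ((le_max_left _ _).trans hy) hs θ
      have a2 := h2 y H ((le_max_right _ _).trans hy) hs θ
      simp only [ContinuousMap.add_apply, mul_add, sum_add_distrib]
      refine (norm_add_le _ _).trans ?_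
      linarith
    | smul c g _ ih =>
      intro ε hε
      have hc := norm_nonneg c
      have hd : (0 : ℝ) < ‖c‖ + 1 := by positivity
      obtain ⟨Y1, h1⟩ := ih (ε / (‖c‖ + 1)) (by positivity)
      refine ⟨Y1, fun y H hy hH θ => ?_⟩
      have hle : ε / (‖c‖ + 1) ≤ ε := div_le_self hε.le (by linarith)
      have hs : ε / (‖c‖ + 1) * Real.sqrt y ≤ H :=
        (mul_le_mul_of_nonneg_right hle (Real.sqrt_nonneg _)).trans hH
      have a1 := h1 y H hy hs θ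
      have e1 : ∑ n ∈ range H, f (y + n) * (c • g : C(Circ, ℂ)) ((θ - ((y + n : ℕ) : ℝ) * α : ℝ) : Circ) =
          c * ∑ n ∈ range H, f (y + n) * g ((θ - ((y + n : ℕ) : ℝ) * α : ℝ) : Circ) := by
        rw [mul_sum]
        apply sum_congr rfl
        intro i _
        have : (c • g : C(Circ, ℂ)) ((θ - ((y + i : ℕ) : ℝ) * α : ℝ) : Circ) =
          c * g ((θ - ((y + i : ℕ) : ℝ) * α : ℝ) : Circ) := rfl
        rw [this]
        ring
      rw [e1, norm_mul]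
      calc ‖c‖ * _ ≤ (‖c‖ + 1) * (ε / (‖c‖ + 1) * H) :=
            mul_le_mul (by linarith) a1 (norm_nonneg _) hd.le
        _ = ε * H := by field_simp
  intro ε hε
  have hcl : Φ ∈ (Submodule.span ℂ (Set.range <| @fourier 1)).topologicalClosure := by
    rw [span_fourier_closure_eq_top]; trivial
  rw [← SetLike.mem_coe, Submodule.topologicalClosure_coe, Metric.mem_closure_iff] at hcl
  obtain ⟨g, hg, hgd⟩ := hcl (ε / 2) (by positivity)
  obtain ⟨Y, hY⟩ := hmem g hg (ε / 2) (by positivity)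
  refine ⟨Y, fun y H hy hH θ => ?_⟩
  have hs : ε / 2 * Real.sqrt y ≤ H := by
    have := Real.sqrt_nonneg (y : ℝ)
    nlinarith
  have a1 := hY y H hy hs θ
  rw [dist_eq_norm] at hgd
  have e1 : ∑ n ∈ range H, f (y + n) * Φ ((θ - ((y + n : ℕ) : ℝ) * α : ℝ) : Circ) =
      ∑ n ∈ range H, f (y + n) * g ((θ - ((y + n : ℕ) : ℝ) * α : ℝ) : Circ) +
      ∑ n ∈ range H, f (y + n) * (Φ - g) ((θ - ((y + n : ℕ) : ℝ) * α : ℝ) : Circ) := by
    rw [← sum_add_distrib]
    apply sum_congr rfl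
    intro i _
    rw [ContinuousMap.sub_apply]
    ring
  rw [e1]
  refine (norm_add_le _ _).trans ?_
  have a2 : ‖∑ n ∈ range H, f (y + n) * (Φ - g) ((θ - ((y + n : ℕ) : ℝ) * α : ℝ) : Circ)‖ ≤ ε / 2 * H := by
    refine (norm_sum_le _ _).trans ?_
    have : ∀ n ∈ range H, ‖f (y + n) * (Φ - g) ((θ - ((y + n : ℕ) : ℝ) * α : ℝ) : Circ)‖ ≤ ε / 2 := by
      intro n _
      rw [norm_mul]
      calc _ ≤ 1 * (ε / 2) := mul_le_mul (hf1 _) (((Φ - g).norm_coe_le_norm _).trans hgd.le) (norm_nonneg _) (by norm_num)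
        _ = ε / 2 := one_mul _
    refine (sum_le_sum this).trans ?_
    rw [sum_const, card_range, nsmul_eq_mul]
    linarith
  linarith

end Pool.Agent.U923.CZ
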